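import Pool.Agent.Helper237.Brouwer.Compl

/-!
# Sums of Laplacian eigenvalues of graphs without isolated vertices

`upper_star`: the sum of any `k` Laplacian eigenvalues is at most `2 m - n + 2 k` for graphs without
isolated vertices; `upper_dom`: it is at most `2 m - n + 1 + k` if there is a vertex adjacent to all
other vertices.
-/

set_option autoImplicit false

namespace Pool.Agent.T2H88.LE

open Finset Pool.Helper237.Brouwer

/-- A graph without isolated vertices has a spanning star forest without isolated vertices. -/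
theorem star_partition {V : Type} [Fintype V] [LinearOrder V] (G : SimpleGraph V)
    (hG : ∀ v, ∃ u, G.Adj v u) :
    ∃ p : V → V, (∀ v, p (p v) = p v) ∧ (∀ v, p v ≠ v → G.Adj v (p v)) ∧
      (∀ w, p w = w → ∃ v, v ≠ w ∧ p v = w) := by
  classical
  obtain ⟨H, ⟨hHG, hH⟩, hmin⟩ : ∃ H : SimpleGraph V, (H ≤ G ∧ ∀ v, ∃ u, H.Adj v u) ∧
      ∀ H' : SimpleGraph V, (H' ≤ G ∧ ∀ v, ∃ u, H'.Adj v u) → ¬ H' < H := by
    have hwf : WellFounded ((· < ·) : SimpleGraph V → SimpleGraph V → Prop) :=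
      Finite.to_wellFoundedLT.wf
    obtain ⟨H, hH, hmin⟩ := hwf.has_min {H : SimpleGraph V | H ≤ G ∧ ∀ v, ∃ u, H.Adj v u}
      ⟨G, le_refl G, hG⟩
    exact ⟨H, hH, fun H' h' => hmin H' h'⟩
  obtain ⟨Lf, hLf⟩ : ∃ Lf : V → V → Prop, Lf = fun v u => H.Adj v u ∧ ∀ x, H.Adj v x → x = u :=
    ⟨_, rfl⟩
  have hleaf : ∀ a b, H.Adj a b → Lf a b ∨ Lf b a := by
    intro a b hab
    have hlt : H.deleteEdges {s(a, b)} < H := by
      refine lt_of_le_of_ne (SimpleGraph.deleteEdges_le _) fun h => ?_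
      have : (H.deleteEdges {s(a, b)}).Adj a b := by rw [h]; exact hab
      rw [SimpleGraph.deleteEdges_adj] at this
      exact this.2 rfl
    have h1 : ¬ ∀ v, ∃ u, (H.deleteEdges {s(a, b)}).Adj v u := fun h =>
      hmin _ ⟨(SimpleGraph.deleteEdges_le _).trans hHG, h⟩ hlt
    push Not at h1
    obtain ⟨x, hx⟩ := h1
    have h2 : ∀ y, H.Adj x y → s(x, y) = s(a, b) := by
      intro y hy
      by_contra hne
      exact hx y (by rw [SimpleGraph.deleteEdges_adj]; exact ⟨hy, by simpa using hne⟩)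
    obtain ⟨y, hy⟩ := hH x
    have h3 := h2 y hy
    rw [Sym2.eq_iff] at h3
    rcases h3 with ⟨rfl, rfl⟩ | ⟨rfl, rfl⟩
    · left
      rw [hLf]
      refine ⟨hab, fun z hz => ?_⟩
      have h4 := h2 z hz
      rw [Sym2.eq_iff] at h4
      rcases h4 with ⟨_, h⟩ | ⟨h, h'⟩
      · exact h
      · rw [h', ← h]
    · right
      rw [hLf]
      refine ⟨hab.symm, fun z hz => ?_⟩
      have h4 := h2 z hz
      rw [Sym2.eq_iff] at h4
      rcases h4 with ⟨h, h'⟩ | ⟨_, h'⟩
      · rw [h', ← h]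
      · exact h'
  have huniq : ∀ v u u', Lf v u → H.Adj v u' → u' = u := by
    intro v u u' h h'
    rw [hLf] at h
    exact h.2 u' h'
  have hadj : ∀ v u, Lf v u → H.Adj v u := by
    intro v u h
    rw [hLf] at h
    exact h.1
  obtain ⟨C, hC⟩ : ∃ C : V → V → Prop, C = fun v u => Lf v u ∧ (¬ Lf u v ∨ u < v) := ⟨_, rfl⟩
  have hCL : ∀ v u, C v u → Lf v u := by
    intro v u h
    rw [hC] at h
    exact h.1
  let p : V → V := fun v => if h : ∃ u, C v u then h.choose else v
  have hp1 : ∀ v u, C v u → p v = u := by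
    intro v u h
    have he : ∃ u, C v u := ⟨u, h⟩
    have h1 : p v = he.choose := dif_pos he
    have h2 := he.choose_spec
    rw [h1]
    exact huniq v u _ (hCL v u h) (hadj _ _ (hCL _ _ h2))
  have hp2 : ∀ v, (¬ ∃ u, C v u) → p v = v := fun v h => dif_neg h
  have hCC : ∀ v u, C v u → ¬ ∃ x, C u x := by
    rintro v u h ⟨x, hx⟩
    rw [hC] at h hx
    obtain ⟨h1, h2⟩ := h
    obtain ⟨h3, h4⟩ := hx
    have h5 : v = x := huniq u x v h3 (hadj _ _ h1).symm
    subst h5
    rcases h2 with h2 | h2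
    · exact h2 h3
    · rcases h4 with h4 | h4
      · exact h4 h1
      · exact lt_asymm h2 h4
  refine ⟨p, fun v => ?_, fun v hv => ?_, fun w hw => ?_⟩
  · by_cases h : ∃ u, C v u
    · obtain ⟨u, hu⟩ := h
      rw [hp1 v u hu]
      exact hp2 u (hCC v u hu)
    · rw [hp2 v h, hp2 v h]
  · by_cases h : ∃ u, C v u
    · obtain ⟨u, hu⟩ := h
      rw [hp1 v u hu]
      have h1 : Lf v u := by rw [hC] at hu; exact hu.1
      exact hHG (hadj _ _ h1)
    · exact absurd (hp2 v h) hv
  · obtain ⟨u, hu⟩ := hH w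
    have hne : w ≠ u := hu.ne
    have hnC : ¬ C w u := fun h => by
      rw [hp1 w u h] at hw
      exact hne hw.symm
    have hnC' : ¬ (Lf w u ∧ (¬ Lf u w ∨ u < w)) := by
      rw [hC] at hnC; exact hnC
    have hcu : C u w := by
      rw [hC]
      rcases hleaf w u hu with h | h
      · have h2 : ¬ (¬ Lf u w ∨ u < w) := fun h' => hnC' ⟨h, h'⟩
        push Not at h2
        exact ⟨h2.1, Or.inr (lt_of_le_of_ne h2.2 hne)⟩
      · refine ⟨h, ?_⟩
        by_cases h1 : Lf w u
        · have h2 : ¬ (¬ Lf u w ∨ u < w) := fun h' => hnC' ⟨h1, h'⟩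
          push Not at h2
          exact Or.inr (lt_of_le_of_ne h2.2 hne)
        · exact Or.inl h1
    exact ⟨u, hne.symm, hp1 u w hcu⟩

/-- the inequality for one star -/
theorem star_real {s y R z : ℝ} (hs : 1 ≤ s) (hy0 : 0 ≤ y) (hy1 : y ≤ 1) (hR : 0 ≤ R)
    (h1 : z ^ 2 ≤ s * (y * (1 - y))) (h2 : z ^ 2 ≤ s * (y * R)) :
    (s - 2) * y - 2 * z ≤ s - 1 + R := by
  obtain ⟨ρ, hρ⟩ : ∃ ρ, ρ = min R (1 - y) := ⟨_, rfl⟩
  have hρ0 : 0 ≤ ρ := by rw [hρ]; exact le_min hR (by linarith)
  have hρR : ρ ≤ R := by rw [hρ]; exact min_le_left _ _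
  have hρy : ρ ≤ 1 - y := by rw [hρ]; exact min_le_right _ _
  have h3 : z ^ 2 ≤ s * (y * ρ) := by
    rcases min_choice R (1 - y) with h | h
    · rw [hρ, h]; exact h2
    · rw [hρ, h]; exact h1
  have h4 : (2 * z) ^ 2 ≤ (s * ρ + y) ^ 2 := by nlinarith [sq_nonneg (s * ρ - y)]
  have h5 : |2 * z| ≤ |s * ρ + y| := sq_le_sq.1 h4
  have h6 : 0 ≤ s * ρ + y := by positivity
  rw [abs_of_nonneg h6] at h5
  have h7 := (abs_le.1 h5).1
  have h8 : (s - 1) * ρ ≤ (s - 1) * (1 - y) := mul_le_mul_of_nonneg_left hρy (by linarith)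
  nlinarith

/-- the inequality for a spanning star -/
theorem star_real' {s y z : ℝ} (hs : 0 ≤ s) (hy0 : 0 ≤ y) (hy1 : y ≤ 1)
    (h1 : z ^ 2 ≤ s * (y * (1 - y))) :
    (s - 1) * y - 2 * z ≤ s := by
  have h4 : (2 * z) ^ 2 ≤ (s * (1 - y) + y) ^ 2 := by nlinarith [sq_nonneg (s * (1 - y) - y)]
  have h5 : |2 * z| ≤ |s * (1 - y) + y| := sq_le_sq.1 h4
  have h6 : 0 ≤ s * (1 - y) + y := by
    have := mul_nonneg hs (sub_nonneg.2 hy1)
    linarith
  rw [abs_of_nonneg h6] at h5
  have h7 := (abs_le.1 h5).1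
  nlinarith

section
variable {V : Type} [Fintype V] [DecidableEq V] (G : SimpleGraph V) [DecidableRel G.Adj]
  (T : Finset V)

theorem proj_sq_le (i j : V) : proj G T i j ^ 2 ≤ proj G T i i * proj G T j j := by
  unfold proj
  have := Finset.sum_mul_sq_le_sq_mul_sq T
    (fun a => (G.isHermitian_lapMatrix ℝ).eigenvectorBasis a i)
    (fun a => (G.isHermitian_lapMatrix ℝ).eigenvectorBasis a j)
  simpa [sq] using this

/-- the value of an edge is at most `2` -/
theorem phi_le (i j : V) : proj G T i i + proj G T j j - 2 * proj G T i j ≤ 2 := by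
  obtain ⟨X, hX⟩ : ∃ X, X = proj G T i i + proj G T j j - 2 * proj G T i j := ⟨_, rfl⟩
  rw [← hX]
  by_cases hij : i = j
  · subst hij
    rw [hX]; linarith
  have h1 : ∑ l, (proj G T i l - proj G T j l) ^ 2 = X := by
    have h2 : ∀ l, (proj G T i l - proj G T j l) ^ 2 =
        proj G T i l ^ 2 + proj G T j l ^ 2 - 2 * (proj G T i l * proj G T l j) := by
      intro l
      rw [proj_symm G T l j]; ring
    rw [Finset.sum_congr rfl fun l _ => h2 l, Finset.sum_sub_distrib, Finset.sum_add_distrib,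
      proj_idem, proj_idem, ← Finset.mul_sum, proj_mul, hX]
  have h2 : (proj G T i i - proj G T j i) ^ 2 + (proj G T i j - proj G T j j) ^ 2 ≤ X := by
    rw [← h1]
    have := Finset.sum_le_sum_of_subset_of_nonneg (s := {i, j}) (t := Finset.univ)
      (f := fun l => (proj G T i l - proj G T j l) ^ 2) (Finset.subset_univ _)
      (fun l _ _ => sq_nonneg _)
    rwa [Finset.sum_pair hij] at this
  have h3 : X = (proj G T i i - proj G T j i) - (proj G T i j - proj G T j j) := by
    rw [hX, proj_symm G T j i]; ring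
  have h4 : X ^ 2 ≤ 2 * X := by
    nlinarith [sq_nonneg ((proj G T i i - proj G T j i) + (proj G T i j - proj G T j j))]
  nlinarith

/-- the edges of a star forest `v ↦ p v` -/
theorem sum_le_forest (p : V → V) (hp : ∀ v, p (p v) = p v) (ha : ∀ v, p v ≠ v → G.Adj v (p v)) :
    ∑ a ∈ T, (G.isHermitian_lapMatrix ℝ).eigenvalues a ≤ 2 * (G.edgeFinset.card : ℝ) +
      ∑ v, if p v ≠ v then (proj G T v v + proj G T (p v) (p v) - 2 * proj G T v (p v) - 2)
        else 0 := by
  obtain ⟨ψ, hψ⟩ : ∃ ψ : V → V → ℝ, ψ = fun i j =>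
    proj G T i i + proj G T j j - 2 * proj G T i j - 2 := ⟨_, rfl⟩
  have hψs : ∀ i j, ψ i j = ψ j i := by
    intro i j
    rw [hψ]
    simp only
    rw [proj_symm G T i j]; ring
  have hψ0 : ∀ i j, ψ i j ≤ 0 := by
    intro i j
    have := phi_le G T i j
    rw [hψ]
    simp only
    linarith
  have h1 := sum_eigen_eq G T
  have h2 := edges_eq G
  have h3 : ∑ i, ∑ j, (if G.Adj i j then
      (proj G T i i + proj G T j j - 2 * proj G T i j) else 0) =
      ∑ i, ∑ j, (if G.Adj i j then ψ i j else 0) +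
        2 * ∑ i, ∑ j, (if G.Adj i j then (1 : ℝ) else 0) := by
    rw [Finset.mul_sum, ← Finset.sum_add_distrib]
    refine Finset.sum_congr rfl fun i _ => ?_
    rw [Finset.mul_sum, ← Finset.sum_add_distrib]
    refine Finset.sum_congr rfl fun j _ => ?_
    split_ifs
    · rw [hψ]; ring
    · ring
  have h4 : ∑ i, ∑ j, (if G.Adj i j then ψ i j else 0) ≤
      ∑ i, ∑ j, ((if p i = j ∧ i ≠ j then ψ i j else 0) +
        (if p j = i ∧ i ≠ j then ψ i j else 0)) := by
    refine Finset.sum_le_sum fun i _ => Finset.sum_le_sum fun j _ => ?_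
    have h5 := hψ0 i j
    by_cases c1 : p i = j ∧ i ≠ j
    · have hadj : G.Adj i j := by
        have := ha i (by rw [c1.1]; exact fun h => c1.2 h.symm)
        rwa [c1.1] at this
      have c2 : ¬ (p j = i ∧ i ≠ j) := by
        rintro ⟨h, -⟩
        have h6 := hp i
        rw [c1.1, h] at h6
        exact c1.2 h6
      rw [if_pos c1, if_neg c2, if_pos hadj, add_zero]
    · by_cases c2 : p j = i ∧ i ≠ j
      · have hadj : G.Adj i j := by
          have := ha j (by rw [c2.1]; exact c2.2)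
          rw [c2.1] at this
          exact this.symm
        rw [if_neg c1, if_pos c2, if_pos hadj, zero_add]
      · rw [if_neg c1, if_neg c2, add_zero]
        split_ifs
        · exact h5
        · exact le_refl _
  have h5 : ∑ i, ∑ j, ((if p i = j ∧ i ≠ j then ψ i j else 0) +
        (if p j = i ∧ i ≠ j then ψ i j else 0)) = 2 * ∑ v, if p v ≠ v then ψ v (p v) else 0 := by
    have e1 : ∀ i, ∑ j, (if p i = j ∧ i ≠ j then ψ i j else 0) =
        if p i ≠ i then ψ i (p i) else 0 := by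
      intro i
      rw [Finset.sum_eq_single (p i)]
      · by_cases h : p i = i
        · rw [if_neg (by rw [h]; simp), if_neg (by simpa using h)]
        · rw [if_pos ⟨rfl, fun h' => h h'.symm⟩, if_pos h]
      · intro j _ hj
        rw [if_neg fun h => hj h.1.symm]
      · intro h
        exact absurd (Finset.mem_univ _) h
    have e2 : ∀ j, ∑ i, (if p j = i ∧ i ≠ j then ψ i j else 0) =
        if p j ≠ j then ψ j (p j) else 0 := by
      intro j
      rw [← e1 j]
      refine Finset.sum_congr rfl fun i _ => ?_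
      by_cases h : p j = i ∧ i ≠ j
      · rw [if_pos h, if_pos ⟨h.1, fun h' => h.2 h'.symm⟩, hψs]
      · rw [if_neg h, if_neg fun h' => h ⟨h'.1, fun h'' => h'.2 h''.symm⟩]
    simp_rw [Finset.sum_add_distrib]
    rw [Finset.sum_congr rfl fun i _ => e1 i, Finset.sum_comm,
      Finset.sum_congr rfl fun i _ => e2 i]
    ring
  rw [h3, h2] at h1
  rw [h5] at h4
  have h6 : (∑ v, if p v ≠ v then (proj G T v v + proj G T (p v) (p v) - 2 * proj G T v (p v) - 2)
        else 0) = ∑ v, if p v ≠ v then ψ v (p v) else 0 := by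
    rw [hψ]
  rw [h6]
  linarith

end

/-- **The sum of `k` Laplacian eigenvalues of a graph without isolated vertices.** -/
theorem upper_star {V : Type} [Fintype V] [LinearOrder V] (G : SimpleGraph V)
    [DecidableRel G.Adj] (T : Finset V) (hG : ∀ v, ∃ u, G.Adj v u) :
    ∑ a ∈ T, (G.isHermitian_lapMatrix ℝ).eigenvalues a ≤
      2 * (G.edgeFinset.card : ℝ) - Fintype.card V + 2 * T.card := by
  classical
  obtain ⟨p, hp, ha, hn⟩ := star_partition G hG
  refine (sum_le_forest G T p hp ha).trans ?_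
  have htr := proj_trace G T
  have h1 : (∑ v : V, (-1 + 2 * proj G T v v)) = -(Fintype.card V : ℝ) + 2 * T.card := by
    rw [Finset.sum_add_distrib, ← Finset.mul_sum, htr]
    simp
  have h2 : (∑ v, if p v ≠ v then (proj G T v v + proj G T (p v) (p v) - 2 * proj G T v (p v) - 2)
        else 0) ≤ ∑ v : V, (-1 + 2 * proj G T v v) := by
    rw [← Finset.sum_fiberwise Finset.univ p, ← Finset.sum_fiberwise Finset.univ p
      (fun v => (-1 + 2 * proj G T v v))]
    refine Finset.sum_le_sum fun w _ => ?_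
    by_cases hw : p w = w
    · obtain ⟨F, hF⟩ : ∃ F : Finset V, F = (Finset.univ.filter fun v => p v = w).erase w := ⟨_, rfl⟩
      have hwm : w ∈ Finset.univ.filter fun v => p v = w := by simp [hw]
      have hFm : ∀ v ∈ F, p v = w ∧ v ≠ w := by
        intro v hv
        rw [hF, Finset.mem_erase, Finset.mem_filter] at hv
        exact ⟨hv.2.2, hv.1⟩
      have hFne : F.Nonempty := by
        obtain ⟨v, hv1, hv2⟩ := hn w hw
        exact ⟨v, by rw [hF, Finset.mem_erase, Finset.mem_filter]; exact ⟨hv1, by simp, hv2⟩⟩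
      rw [← Finset.sum_erase_add _ _ hwm, ← Finset.sum_erase_add _ _ hwm, ← hF]
      have e1 : ∑ v ∈ F, (if p v ≠ v then
          (proj G T v v + proj G T (p v) (p v) - 2 * proj G T v (p v) - 2) else 0) =
          ∑ v ∈ F, (proj G T v v + proj G T w w - 2 * proj G T v w - 2) := by
        refine Finset.sum_congr rfl fun v hv => ?_
        obtain ⟨h1, h2⟩ := hFm v hv
        rw [h1, if_pos fun h => h2 h.symm]
      rw [e1, if_neg (by simp [hw])]
      obtain ⟨s, hs⟩ : ∃ s : ℝ, s = F.card := ⟨_, rfl⟩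
      obtain ⟨y, hy⟩ : ∃ y : ℝ, y = proj G T w w := ⟨_, rfl⟩
      obtain ⟨R, hR⟩ : ∃ R : ℝ, R = ∑ v ∈ F, proj G T v v := ⟨_, rfl⟩
      obtain ⟨z, hz⟩ : ∃ z : ℝ, z = ∑ v ∈ F, proj G T v w := ⟨_, rfl⟩
      have hs1 : 1 ≤ s := by
        rw [hs]
        exact_mod_cast Finset.card_pos.2 hFne
      have hy01 := proj_diag_le_one G T w
      rw [← hy] at hy01
      have hR0 : 0 ≤ R := by
        rw [hR]; exact Finset.sum_nonneg fun v _ => (proj_diag_le_one G T v).1
      have hz2 : z ^ 2 ≤ s * ∑ v ∈ F, proj G T v w ^ 2 := by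
        rw [hz, hs]
        exact sq_sum_le_card_mul_sum_sq
      have hA : ∑ v ∈ F, proj G T v w ^ 2 ≤ y * (1 - y) := by
        have h3 := proj_idem G T w
        have h4 : proj G T w w ^ 2 + ∑ v ∈ F, proj G T w v ^ 2 ≤ ∑ j, proj G T w j ^ 2 := by
          have hwF : w ∉ F := fun h => (hFm w h).2 rfl
          have h6 := Finset.sum_le_sum_of_subset_of_nonneg (s := insert w F) (t := Finset.univ)
            (f := fun j => proj G T w j ^ 2) (Finset.subset_univ _) (fun _ _ _ => sq_nonneg _)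
          rwa [Finset.sum_insert hwF] at h6
        rw [h3, ← hy] at h4
        have h5 : ∑ v ∈ F, proj G T v w ^ 2 = ∑ v ∈ F, proj G T w v ^ 2 :=
          Finset.sum_congr rfl fun v _ => by rw [proj_symm]
        rw [h5]
        nlinarith
      have hB : ∑ v ∈ F, proj G T v w ^ 2 ≤ y * R := by
        calc ∑ v ∈ F, proj G T v w ^ 2 ≤ ∑ v ∈ F, proj G T v v * proj G T w w :=
              Finset.sum_le_sum fun v _ => proj_sq_le G T v w
          _ = y * R := by rw [← Finset.sum_mul, hy, hR]; ring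
      have hmain := star_real hs1 hy01.1 hy01.2 hR0
        (hz2.trans (mul_le_mul_of_nonneg_left hA (by linarith)))
        (hz2.trans (mul_le_mul_of_nonneg_left hB (by linarith)))
      have e2 : ∑ v ∈ F, (proj G T v v + proj G T w w - 2 * proj G T v w - 2) =
          R + s * y - 2 * z - 2 * s := by
        rw [Finset.sum_sub_distrib, Finset.sum_sub_distrib, Finset.sum_add_distrib,
          ← Finset.mul_sum, ← hR, ← hz, ← hy]
        simp only [Finset.sum_const, nsmul_eq_mul, ← hs]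
        ring
      have e3 : ∑ v ∈ F, (-1 + 2 * proj G T v v) = -s + 2 * R := by
        rw [Finset.sum_add_distrib, ← Finset.mul_sum, ← hR]
        simp only [Finset.sum_const, nsmul_eq_mul, ← hs]
        ring
      rw [e2, e3, ← hy]
      linarith
    · have hempty : (Finset.univ.filter fun v => p v = w) = ∅ := by
        rw [Finset.filter_eq_empty_iff]
        intro v _ h
        apply hw
        rw [← h, hp]
      rw [hempty, Finset.sum_empty, Finset.sum_empty]
  linarith

/-- **The sum of `k` Laplacian eigenvalues of a graph with a dominating vertex.** -/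
theorem upper_dom {V : Type} [Fintype V] [DecidableEq V] (G : SimpleGraph V)
    [DecidableRel G.Adj] (T : Finset V) (w : V) (hG : ∀ v, v ≠ w → G.Adj v w) :
    ∑ a ∈ T, (G.isHermitian_lapMatrix ℝ).eigenvalues a ≤
      2 * (G.edgeFinset.card : ℝ) - Fintype.card V + 1 + T.card := by
  classical
  refine (sum_le_forest G T (fun _ => w) (fun _ => rfl) (fun v hv => hG v hv.symm)).trans ?_
  obtain ⟨F, hF⟩ : ∃ F : Finset V, F = Finset.univ.erase w := ⟨_, rfl⟩
  have hwm : w ∈ (Finset.univ : Finset V) := Finset.mem_univ w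
  have htr := proj_trace G T
  rw [← Finset.sum_erase_add _ _ hwm, ← hF] at htr ⊢
  have hFm : ∀ v ∈ F, v ≠ w := by
    intro v hv
    rw [hF] at hv
    exact Finset.ne_of_mem_erase hv
  have e1 : ∑ v ∈ F, (if w ≠ v then
      (proj G T v v + proj G T w w - 2 * proj G T v w - 2) else 0) =
      ∑ v ∈ F, (proj G T v v + proj G T w w - 2 * proj G T v w - 2) :=
    Finset.sum_congr rfl fun v hv => if_pos (hFm v hv).symm
  rw [e1, if_neg (by simp)]
  obtain ⟨s, hs⟩ : ∃ s : ℝ, s = F.card := ⟨_, rfl⟩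
  obtain ⟨y, hy⟩ : ∃ y : ℝ, y = proj G T w w := ⟨_, rfl⟩
  obtain ⟨R, hR⟩ : ∃ R : ℝ, R = ∑ v ∈ F, proj G T v v := ⟨_, rfl⟩
  obtain ⟨z, hz⟩ : ∃ z : ℝ, z = ∑ v ∈ F, proj G T v w := ⟨_, rfl⟩
  have hs1 : 0 ≤ s := by rw [hs]; positivity
  have hcard : (Fintype.card V : ℝ) = s + 1 := by
    have h0 : 0 < Fintype.card V := Fintype.card_pos_iff.2 ⟨w⟩
    rw [hs, hF, Finset.card_erase_of_mem hwm, Finset.card_univ, Nat.cast_sub h0]
    simp
  have hy01 := proj_diag_le_one G T w
  rw [← hy] at hy01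
  have hz2 : z ^ 2 ≤ s * ∑ v ∈ F, proj G T v w ^ 2 := by
    rw [hz, hs]
    exact sq_sum_le_card_mul_sum_sq
  have hA : ∑ v ∈ F, proj G T v w ^ 2 ≤ y * (1 - y) := by
    have h3 := proj_idem G T w
    have h4 : proj G T w w ^ 2 + ∑ v ∈ F, proj G T w v ^ 2 ≤ ∑ j, proj G T w j ^ 2 := by
      have hwF : w ∉ F := fun h => (hFm w h) rfl
      have h6 := Finset.sum_le_sum_of_subset_of_nonneg (s := insert w F) (t := Finset.univ)
        (f := fun j => proj G T w j ^ 2) (Finset.subset_univ _) (fun _ _ _ => sq_nonneg _)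
      rwa [Finset.sum_insert hwF] at h6
    rw [h3, ← hy] at h4
    have h5 : ∑ v ∈ F, proj G T v w ^ 2 = ∑ v ∈ F, proj G T w v ^ 2 :=
      Finset.sum_congr rfl fun v _ => by rw [proj_symm]
    rw [h5]
    nlinarith
  have hmain := star_real' hs1 hy01.1 hy01.2
    (hz2.trans (mul_le_mul_of_nonneg_left hA (by linarith)))
  have e2 : ∑ v ∈ F, (proj G T v v + proj G T w w - 2 * proj G T v w - 2) =
      R + s * y - 2 * z - 2 * s := by
    rw [Finset.sum_sub_distrib, Finset.sum_sub_distrib, Finset.sum_add_distrib,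
      ← Finset.mul_sum, ← hR, ← hz, ← hy]
    simp only [Finset.sum_const, nsmul_eq_mul, ← hs]
    ring
  rw [← hR, ← hy] at htr
  rw [e2, hcard, ← htr]
  linarith

end Pool.Agent.T2H88.LE
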