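import Pool.Agent.T2H88.LE.Multi
import Pool.Agent.T2H88.LE.Upper
import Pool.Agent.Helper244.Br.Final

/-!
# Two-sided bounds for the maximum Laplacian energy of sparse connected graphs
-/

set_option autoImplicit false

namespace Pool.Agent.T2H88.LE

open Finset Matrix Pool.Agent.Helper554.LE

/-- The number `min (s n, m + s(s+1)/2, 2m - n + 2s) - 2ms/n`. -/
noncomputable def Vb (n m s : ℕ) : ℝ :=
  min (min ((s : ℝ) * n) (m + s * (s + 1) / 2)) (2 * m - n + 2 * s) - 2 * m / n * s

/-- the set of large eigenvalues -/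
theorem top_set {n : ℕ} (hn : 0 < n) (G : SimpleGraph (Fin n))
    [DecidableRel G.Adj] : ∃ t : Finset (Fin n),
      ∑ i ∈ t, (G.isHermitian_lapMatrix ℝ).eigenvalues i ≤ t.card * n ∧
      ∑ i ∈ t, (G.isHermitian_lapMatrix ℝ).eigenvalues i ≤
        (G.edgeFinset.card : ℝ) + t.card * (t.card + 1) / 2 ∧
      lapEnergy G = 2 * (∑ i ∈ t, (G.isHermitian_lapMatrix ℝ).eigenvalues i
        - 2 * (G.edgeFinset.card : ℝ) / n * t.card) := by
  classical
  set hL := G.isHermitian_lapMatrix ℝ with hLdef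
  set c : ℝ := 2 * (G.edgeFinset.card : ℝ) / n with hc
  set t : Finset (Fin n) := Finset.univ.filter fun i => c ≤ hL.eigenvalues i with ht
  have hnR : (n : ℝ) ≠ 0 := by positivity
  refine ⟨t, ?_, ?_, ?_⟩
  · calc ∑ i ∈ t, hL.eigenvalues i ≤ ∑ i ∈ t, (n : ℝ) :=
          Finset.sum_le_sum fun i _ => eig_le G hL i
      _ = t.card * n := by simp
  · have hsub : t.val.map hL.eigenvalues ≤ (G.lapMatrix ℝ).charpoly.roots := by
      rw [hL.roots_charpoly_eq_eigenvalues]
      have : t.val.map hL.eigenvalues ≤ (Finset.univ : Finset (Fin n)).val.map hL.eigenvalues :=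
        Multiset.map_le_map (Finset.val_le_iff.mpr (Finset.subset_univ t))
      simpa [Function.comp_def] using this
    have h := Pool.Br.brouwer_multiset G _ hsub
    have h1 : (t.val.map hL.eigenvalues).sum = ∑ i ∈ t, hL.eigenvalues i := rfl
    have h2 : (t.val.map hL.eigenvalues).card = t.card := by simp
    rw [h1, h2] at h
    have h3 : ((Nat.choose (t.card + 1) 2 : ℕ) : ℝ) = t.card * (t.card + 1) / 2 := by
      rw [Nat.cast_choose_two]
      push_cast
      ring
    rw [h3] at h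
    exact h
  · rw [lapEnergy_eq G hL]
    have h2 : ∑ i, hL.eigenvalues i = c * n := by
      have h3 : (G.lapMatrix ℝ).trace = ∑ i, hL.eigenvalues i := by
        have := hL.trace_eq_sum_eigenvalues
        simpa using this
      rw [← h3, trace_lap, hc]
      field_simp
    have h4 : ∀ i, |hL.eigenvalues i - c| = 2 * (if i ∈ t then hL.eigenvalues i - c else 0)
        - (hL.eigenvalues i - c) := by
      intro i
      by_cases hi : c ≤ hL.eigenvalues i
      · have : i ∈ t := by simp [ht, hi]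
        rw [if_pos this, abs_of_nonneg (by linarith)]
        ring
      · have : i ∉ t := by simp [ht, hi]
        rw [if_neg this, abs_of_nonpos (by linarith [not_le.mp hi])]
        ring
    rw [Finset.sum_congr rfl fun i _ => h4 i, Finset.sum_sub_distrib, ← Finset.mul_sum,
      Finset.sum_ite_mem, Finset.univ_inter, Finset.sum_sub_distrib, Finset.sum_sub_distrib, h2]
    simp only [Finset.sum_const, Finset.card_univ, Fintype.card_fin, nsmul_eq_mul]
    ring

theorem exists_nbr {n : ℕ} (hn : 2 ≤ n) {G : SimpleGraph (Fin n)} (hG : G.Connected) (v : Fin n) :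
    ∃ u, G.Adj v u := by
  classical
  have : Nontrivial (Fin n) := Fin.nontrivial_iff_two_le.2 hn
  have h := hG.preconnected.degree_pos_of_nontrivial v
  exact (G.degree_pos_iff_exists_adj v).1 h

theorem upper_V {n m : ℕ} (hn : 2 ≤ n) {e : ℝ} (he : e ∈ Energies n m) :
    ∃ s ≤ n, e ≤ 2 * Vb n m s := by
  obtain ⟨G, _, hc, hG, rfl⟩ := he
  obtain ⟨t, h1, h2, h3⟩ := top_set (by omega) G
  have h4 := upper_star G t (fun v => exists_nbr hn hc v)
  refine ⟨t.card, by simpa using Finset.card_le_univ t, ?_⟩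
  rw [h3, Vb]
  rw [hG] at h2 h4 ⊢
  rw [Fintype.card_fin] at h4
  have := le_min (le_min h1 h2) h4
  linarith

/-- an upper bound for the graphs with a dominating vertex -/
theorem upper_D {n m κ : ℕ} (h1 : n ≤ m) (hn : 1 ≤ n) (hκ1 : κ * (κ - 1) ≤ 2 * (m - n + 1))
    (hκ : 2 ≤ κ) (G : SimpleGraph (Fin n)) [DecidableRel G.Adj] (hm : G.edgeFinset.card = m)
    (w : Fin n) (hG : ∀ v, v ≠ w → G.Adj v w) :
    lapEnergy G ≤ 4 * m - 2 * n - 2 * ((κ : ℝ) - 1) := by
  obtain ⟨t, h2, h3, h4⟩ := top_set (by omega) G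
  have h5 := upper_dom G t w hG
  rw [h4]
  rw [hm] at h3 h5 ⊢
  rw [Fintype.card_fin] at h5
  set S := ∑ i ∈ t, (G.isHermitian_lapMatrix ℝ).eigenvalues i with hS
  have hnR : (1 : ℝ) ≤ n := by exact_mod_cast hn
  have h1R : (n : ℝ) ≤ m := by exact_mod_cast h1
  set c : ℝ := 2 * (m : ℝ) / n with hc
  have hc2 : 2 ≤ c := by
    rw [hc, le_div_iff₀ (by linarith)]; linarith
  have hκR : (2 : ℝ) ≤ κ := by exact_mod_cast hκ
  have hκ1R : (κ : ℝ) * (κ - 1) ≤ 2 * (m - n + 1) := by
    have : ((κ * (κ - 1) : ℕ) : ℝ) ≤ ((2 * (m - n + 1) : ℕ) : ℝ) := by exact_mod_cast hκ1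
    push_cast [Nat.cast_sub h1, Nat.cast_sub (by omega : 1 ≤ κ)] at this
    exact this
  rcases Nat.lt_or_ge t.card κ with ht | ht
  · rcases Nat.eq_zero_or_pos t.card with h0 | h0
    · have : t = ∅ := Finset.card_eq_zero.1 h0
      rw [hS, this]
      simp only [Finset.sum_empty, Finset.card_empty, Nat.cast_zero, mul_zero, sub_zero]
      nlinarith [sq_nonneg ((κ : ℝ) - 3)]
    · have h0R : (1 : ℝ) ≤ t.card := by exact_mod_cast h0
      have htR : (t.card : ℝ) + 1 ≤ κ := by exact_mod_cast ht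
      have h6 : 2 * (t.card : ℝ) ≤ c * t.card := mul_le_mul_of_nonneg_right hc2 (by linarith)
      have h7 : 0 ≤ ((κ : ℝ) - t.card) * (κ + t.card - 3) :=
        mul_nonneg (by linarith) (by linarith)
      nlinarith
  · have htR : (κ : ℝ) ≤ t.card := by exact_mod_cast ht
    have h6 : (c - 1) * κ ≤ (c - 1) * t.card := mul_le_mul_of_nonneg_left htR (by linarith)
    have h7 : 1 * (κ : ℝ) ≤ (c - 1) * κ := mul_le_mul_of_nonneg_right (by linarith) (by linarith)
    linarith

theorem lower_V {n m κ : ℕ} (hn : 3 ≤ n) (h1 : n ≤ m) (h2 : m ≤ n.choose 2)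
    (hκ1 : κ * (κ - 1) ≤ 2 * (m - n + 1)) (hκ2 : 2 * (m - n + 1) < κ * (κ + 1)) (s : ℕ)
    (hs : s ≤ n) : ∃ e ∈ Energies n m, 2 * Vb n m s - 2 * κ ≤ e := by
  obtain ⟨a, j, hj, hjn, hm⟩ := decomp n m (by omega) h2
  obtain ⟨r, hr⟩ : ∃ r, n = a + 1 + j + r := ⟨n - (a + 1 + j), by omega⟩
  have hnR : (3 : ℝ) ≤ n := by exact_mod_cast hn
  have hn0 : (n : ℝ) ≠ 0 := by positivity
  have h1R : (n : ℝ) ≤ m := by exact_mod_cast h1
  have hmR : (m : ℝ) = a * (a - 1) / 2 + a * (((a + 1 + j + r : ℕ) : ℝ) - a) + j := by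
    rw [hm, hr]
    push_cast [Nat.cast_choose_two]
    have : ((a + 1 + j + r - a : ℕ) : ℝ) = ((a + 1 + j + r : ℕ) : ℝ) - a := by
      rw [Nat.cast_sub (by omega)]
    rw [this]
    push_cast
    ring
  have ha1 : 1 ≤ a := by
    by_contra h
    have : a = 0 := by omega
    subst this
    simp at hm
    omega
  have hmem : lapEnergy (Gr (a + 1 + j + r) a j) ∈ Energies (a + 1 + j + r) m := by
    refine ⟨Gr (a + 1 + j + r) a j, inferInstance,
      gr_connected a j r hj (fun h => by omega), ?_, rfl⟩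
    have := (gr_lower a j r hj m hmR).1
    exact_mod_cast this
  have hl1 := gr_lower' a j r hj m hmR
  have hl2 := (gr_lower a j r hj m hmR).2
  rw [← hr] at hmem hl1 hl2
  set c : ℝ := 2 * (m : ℝ) / n with hc
  have hcn : (n : ℝ) * c = 2 * m := by rw [hc]; field_simp
  have hmleR : 2 * (m : ℝ) ≤ n * (n - 1) := by
    have h3 : (m : ℝ) ≤ ((n.choose 2 : ℕ) : ℝ) := by exact_mod_cast h2
    rw [Nat.cast_choose_two] at h3
    linarith
  have hcle : c ≤ n - 1 := by
    have : (n : ℝ) * c ≤ n * (n - 1) := by rw [hcn]; linarith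
    exact le_of_mul_le_mul_left this (by linarith)
  have hc2 : 2 ≤ c := by
    rw [hc, le_div_iff₀ (by linarith)]; linarith
  have hmn : 2 * m ≤ n * (n - 1) := by
    rw [Nat.choose_two_right] at h2
    have := Nat.div_mul_le_self (n * (n - 1)) 2
    omega
  have hκn : κ + 1 ≤ n := by
    by_contra h
    have h3 : n ≤ κ := by omega
    have h4 : n * (n - 1) ≤ κ * (κ - 1) := Nat.mul_le_mul h3 (by omega)
    omega
  have hκ0 : 1 ≤ κ := by
    by_contra h
    have : κ = 0 := by omega
    subst this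
    omega
  have hκ0R : (1 : ℝ) ≤ κ := by exact_mod_cast hκ0
  have hκ2R : 2 * ((m : ℝ) - n + 1) ≤ κ * (κ + 1) := by
    have : ((2 * (m - n + 1) : ℕ) : ℝ) ≤ ((κ * (κ + 1) : ℕ) : ℝ) := by exact_mod_cast hκ2.le
    push_cast [Nat.cast_sub h1] at this
    exact this
  have hκ1R : (κ : ℝ) * (κ - 1) ≤ 2 * (m - n + 1) := by
    have : ((κ * (κ - 1) : ℕ) : ℝ) ≤ ((2 * (m - n + 1) : ℕ) : ℝ) := by exact_mod_cast hκ1
    push_cast [Nat.cast_sub h1, Nat.cast_sub (by omega : 1 ≤ κ)] at this
    exact this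
  have hU : ∀ x : ℝ, x = Vb n m s → x ≤ s * n - c * s ∧ x ≤ m + s * (s + 1) / 2 - c * s ∧
      x ≤ 2 * m - n + 2 * s - c * s := by
    rintro x rfl
    rw [Vb, ← hc]
    refine ⟨?_, ?_, ?_⟩
    · have := min_le_left (min ((s : ℝ) * n) (m + s * (s + 1) / 2)) (2 * (m : ℝ) - n + 2 * s)
      have := min_le_left ((s : ℝ) * n) ((m : ℝ) + s * (s + 1) / 2)
      linarith
    · have := min_le_left (min ((s : ℝ) * n) (m + s * (s + 1) / 2)) (2 * (m : ℝ) - n + 2 * s)
      have := min_le_right ((s : ℝ) * n) ((m : ℝ) + s * (s + 1) / 2)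
      linarith
    · have := min_le_right (min ((s : ℝ) * n) (m + s * (s + 1) / 2)) (2 * (m : ℝ) - n + 2 * s)
      linarith
  obtain ⟨u1, u2, u3⟩ := hU _ rfl
  have haR : (1 : ℝ) ≤ a := by exact_mod_cast ha1
  have hsR : (s : ℝ) ≤ n := by exact_mod_cast hs
  by_cases hκe : κ + 1 = n
  · -- the complete graph
    refine ⟨_, hmem, ?_⟩
    have hκeR : (κ : ℝ) = n - 1 := by rw [← hκe]; push_cast; ring
    have h3 : (n : ℝ) - 1 ≤ c := by
      have : (n : ℝ) * (n - 1) ≤ n * c := by
        rw [hcn]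
        rw [hκeR] at hκ1R
        nlinarith
      exact le_of_mul_le_mul_left this (by linarith)
    have h4 : c = n - 1 := le_antisymm hcle h3
    rw [h4] at u1 hl1
    rw [hκeR]
    nlinarith
  · obtain ⟨E, hE, hl3⟩ := core_lower (n := n) (m := m) (k := κ + 1) (by omega) (by omega)
      (by omega) (by
        have h3 : (κ + 1) * (κ + 1 - 1) = κ * (κ + 1) := by
          rw [Nat.add_sub_cancel, Nat.mul_comm]
        rw [h3]
        omega)
    rw [← hc] at hl3
    push_cast at hl3
    -- the value at s >= κ + 1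
    have hfar : (κ : ℝ) + 1 ≤ s → 2 * Vb n m s - 2 * κ ≤ E := by
      intro hks
      have h6 : (c - 2) * (κ + 1) ≤ (c - 2) * s := mul_le_mul_of_nonneg_left hks (by linarith)
      linarith
    rcases Nat.lt_or_ge a s with has | has
    · rcases Nat.lt_or_ge κ s with hks | hks
      · exact ⟨E, hE, hfar (by exact_mod_cast hks)⟩
      · -- a + 1 ≤ s ≤ κ : convexity
        have hasR : (a : ℝ) + 1 ≤ s := by exact_mod_cast has
        have hksR : (s : ℝ) ≤ κ + 1 := by
          have : (s : ℝ) ≤ κ := by exact_mod_cast hks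
          linarith
        by_cases hconv : (s : ℝ) + a + 2 ≤ 2 * c
        · -- f(s) ≤ f(a+1)
          refine ⟨_, hmem, ?_⟩
          have h7 : 0 ≤ (s - a - 1 : ℝ) * (2 * c - s - a - 2) :=
            mul_nonneg (by linarith) (by linarith)
          have h8 : (m : ℝ) + s * (s + 1) / 2 - c * s ≤
              m + (a + 1) * (a + 2) / 2 - c * (a + 1) := by
            linarith [h7, show (s - a - 1 : ℝ) * (2 * c - s - a - 2) =
              2 * ((m + (a + 1) * (a + 2) / 2 - c * (a + 1)) -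
                (m + s * (s + 1) / 2 - c * s)) by ring]
          have h9 : (m : ℝ) + (a + 1) * (a + 2) / 2 - c * (a + 1) =
              a * (n - c) + (a + 1 + j - c) := by
            rw [← hr] at hmR
            rw [hmR]; ring
          linarith
        · rw [not_le] at hconv
          refine ⟨E, hE, ?_⟩
          have h7 : 0 ≤ ((κ : ℝ) + 1 - s) * (κ + 1 + s + 1 - 2 * c) :=
            mul_nonneg (by linarith) (by linarith)
          have h8 : (m : ℝ) + s * (s + 1) / 2 - c * s ≤
              m + (κ + 1) * (κ + 2) / 2 - c * (κ + 1) := by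
            linarith [h7, show ((κ : ℝ) + 1 - s) * (κ + 1 + s + 1 - 2 * c) =
              2 * ((m + (κ + 1) * (κ + 2) / 2 - c * (κ + 1)) -
                (m + s * (s + 1) / 2 - c * s)) by ring]
          nlinarith
    · -- s ≤ a
      refine ⟨_, hmem, ?_⟩
      have hasR : (s : ℝ) ≤ a := by exact_mod_cast has
      have h6 : (s : ℝ) * (n - c) ≤ a * (n - c) := mul_le_mul_of_nonneg_right hasR (by linarith)
      linarith

end Pool.Agent.T2H88.LE
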