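import Pool.Agent.T2H88.LE.Cor

/-!
# Graphs with a dominating vertex do not have maximum Laplacian energy
-/

set_option autoImplicit false

namespace Pool.Agent.T2H88.LE

open Finset Matrix Pool.Agent.Helper554.LE

/-- a sharper upper bound for the graphs with a dominating vertex -/
theorem upper_D' {n m κ : ℕ} (h1 : n ≤ m) (hn : 2 ≤ n) (hκ1 : κ * (κ - 1) ≤ 2 * (m - n + 1))
    (hκ : 2 ≤ κ) (hh : (2 * (m : ℝ) / n - 1) * (κ - 1) ≤ m - n + 1)
    (G : SimpleGraph (Fin n)) [DecidableRel G.Adj] (hm : G.edgeFinset.card = m)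
    (w : Fin n) (hG : ∀ v, v ≠ w → G.Adj v w) :
    lapEnergy G ≤ 2 * (2 * m - n + 1 - (2 * m / n - 1) * (κ : ℝ)) := by
  obtain ⟨t, h2, h3, h4⟩ := top_set (by omega) G
  have h5 := upper_dom G t w hG
  rw [h4]
  rw [hm] at h3 h5 ⊢
  rw [Fintype.card_fin] at h5
  set S := ∑ i ∈ t, (G.isHermitian_lapMatrix ℝ).eigenvalues i with hS
  have hnR : (2 : ℝ) ≤ n := by exact_mod_cast hn
  have h1R : (n : ℝ) ≤ m := by exact_mod_cast h1
  set c : ℝ := 2 * (m : ℝ) / n with hc
  have hcn : c * n = 2 * m := by rw [hc]; field_simp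
  have hc2 : 2 ≤ c := by
    rw [hc, le_div_iff₀ (by linarith)]; linarith
  have hcm : c ≤ m := by nlinarith
  have hκR : (2 : ℝ) ≤ κ := by exact_mod_cast hκ
  have hκ1R : (κ : ℝ) * (κ - 1) ≤ 2 * (m - n + 1) := by
    have : ((κ * (κ - 1) : ℕ) : ℝ) ≤ ((2 * (m - n + 1) : ℕ) : ℝ) := by exact_mod_cast hκ1
    push_cast [Nat.cast_sub h1, Nat.cast_sub (by omega : 1 ≤ κ)] at this
    exact this
  suffices h : S - c * t.card ≤ 2 * m - n + 1 - (c - 1) * κ by linarith
  rcases Nat.lt_or_ge t.card κ with ht | ht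
  · rcases Nat.eq_zero_or_pos t.card with h0 | h0
    · have : t = ∅ := Finset.card_eq_zero.1 h0
      rw [hS, this]
      simp only [Finset.sum_empty, Finset.card_empty, Nat.cast_zero, mul_zero, sub_zero]
      nlinarith
    · have h0R : (1 : ℝ) ≤ t.card := by exact_mod_cast h0
      have htR : (t.card : ℝ) + 1 ≤ κ := by exact_mod_cast ht
      have e1 : ((t.card : ℝ) - 1) * (κ * (κ - 1)) ≤ (t.card - 1) * (2 * (m - n + 1)) :=
        mul_le_mul_of_nonneg_left hκ1R (by linarith)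
      have e2 : ((κ : ℝ) - t.card) * ((c - 1) * (κ - 1)) ≤ (κ - t.card) * (m - n + 1) :=
        mul_le_mul_of_nonneg_left hh (by linarith)
      have e3 : (t.card : ℝ) * (t.card - 1) ≤ κ * (t.card - 1) :=
        mul_le_mul_of_nonneg_right (by linarith) (by linarith)
      have e4 : (κ - 1) * ((t.card : ℝ) * (t.card - 1)) ≤ (κ - 1) * (κ * (t.card - 1)) :=
        mul_le_mul_of_nonneg_left e3 (by linarith)
      have e5 : (κ - 1) * ((t.card : ℝ) * (t.card - 1) / 2 + (c - 1) * (κ - t.card)) ≤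
          (κ - 1) * (m - n + 1) := by nlinarith
      have e6 := le_of_mul_le_mul_left e5 (by linarith)
      linarith
  · have htR : (κ : ℝ) ≤ t.card := by exact_mod_cast ht
    have h6 : (c - 1) * κ ≤ (c - 1) * t.card := mul_le_mul_of_nonneg_left htR (by linarith)
    linarith

/-- **No graph with a dominating vertex has maximum Laplacian energy** for
`10^9 (m - n + 1)^3 ≤ n^4`. -/
theorem dom_lt {n m : ℕ} (h1 : n ≤ m) (hC : 10 ^ 9 * (m - n + 1) ^ 3 ≤ n ^ 4) {M : ℝ}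
    (hM : ∀ E ∈ Energies n m, E ≤ M)
    (G : SimpleGraph (Fin n)) [DecidableRel G.Adj] (hm : G.edgeFinset.card = m)
    (w : Fin n) (hG : ∀ v, v ≠ w → G.Adj v w) : lapEnergy G < M := by
  obtain ⟨k, hk3, hk1, hk2⟩ := exists_min (m - n + 1) (by omega)
  -- κ with κ (κ - 1) ≤ 2 (m - n + 1) < κ (κ + 1)
  obtain ⟨κ, hκ2, hκ1, hκ3⟩ : ∃ κ, 2 ≤ κ ∧ κ * (κ - 1) ≤ 2 * (m - n + 1) ∧
      2 * (m - n + 1) < κ * (κ + 1) := by
    rcases Nat.lt_or_ge (2 * (m - n + 1)) ((k - 1) * (k - 2)) with h | h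
    · refine ⟨k - 2, ?_, ?_, ?_⟩
      · by_contra h4
        have : k = 3 := by omega
        subst this
        omega
      · rw [show k - 2 - 1 = k - 3 from by omega]; exact hk2.le
      · rw [show k - 2 + 1 = k - 1 from by omega, Nat.mul_comm (k - 2) (k - 1)]; exact h
    · refine ⟨k - 1, by omega, ?_, ?_⟩
      · rw [show k - 1 - 1 = k - 2 from by omega]; exact h
      · have h5 : 2 * (m - n + 1) = (k - 1) * (k - 2) := le_antisymm hk1 h
        rw [h5]
        exact Nat.mul_lt_mul_of_pos_left (by omega) (by omega)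
  have hn1 : 0 < n := by
    by_contra h
    have : n = 0 := by omega
    subst this
    simp at hC
  have h1R : (n : ℝ) ≤ m := by exact_mod_cast h1
  have hn0 : (0 : ℝ) < n := by exact_mod_cast hn1
  obtain ⟨e, he⟩ : ∃ e : ℝ, e = (m : ℝ) - n := ⟨_, rfl⟩
  have he0 : 0 ≤ e := by rw [he]; linarith
  obtain ⟨r, hr⟩ : ∃ r : ℝ, r = Real.sqrt (e + 1) := ⟨_, rfl⟩
  have hrr : r * r = e + 1 := by rw [hr]; exact Real.mul_self_sqrt (by linarith)
  have hr0 : 0 ≤ r := by rw [hr]; exact Real.sqrt_nonneg _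
  have hr1 : 1 ≤ r := by nlinarith
  have hm' : (m : ℝ) = n + e := by rw [he]; ring
  have hCR : 10 ^ 9 * (e + 1) ^ 3 ≤ (n : ℝ) ^ 4 := by
    have : ((10 ^ 9 * (m - n + 1) ^ 3 : ℕ) : ℝ) ≤ ((n ^ 4 : ℕ) : ℝ) := by exact_mod_cast hC
    push_cast [Nat.cast_sub h1] at this
    have h10 : (10 : ℝ) ^ 9 = 1000000000 := by norm_num
    rw [he, h10]; exact this
  have hn2 : 31622 * (r * r * r) ≤ (n : ℝ) * n := by
    have e1 : (31622 * (r * r * r)) ^ 2 ≤ ((n : ℝ) * n) ^ 2 := by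
      have : (31622 * (r * r * r)) ^ 2 = 31622 ^ 2 * (e + 1) ^ 3 := by rw [← hrr]; ring
      rw [this]
      have e3 : (0 : ℝ) ≤ (e + 1) ^ 3 := by positivity
      nlinarith
    exact abs_le_of_sq_le_sq' e1 (by positivity) |>.2
  have hrr1 : r ≤ r * r := by nlinarith
  have hrr2 : r * r ≤ r * r * r := by nlinarith
  have hn3 : 177 * r ≤ n := by nlinarith
  have hκ2R : (2 : ℝ) ≤ κ := by exact_mod_cast hκ2
  have hκ1R : (κ : ℝ) * (κ - 1) ≤ 2 * (e + 1) := by
    have : ((κ * (κ - 1) : ℕ) : ℝ) ≤ ((2 * (m - n + 1) : ℕ) : ℝ) := by exact_mod_cast hκ1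
    push_cast [Nat.cast_sub h1, Nat.cast_sub (by omega : 1 ≤ κ)] at this
    rw [he]; exact this
  have hκ3R : 2 * (e + 1) + 1 ≤ (κ : ℝ) * (κ + 1) := by
    have : ((2 * (m - n + 1) + 1 : ℕ) : ℝ) ≤ ((κ * (κ + 1) : ℕ) : ℝ) := by exact_mod_cast hκ3
    push_cast [Nat.cast_sub h1] at this
    rw [he]; exact this
  have hκr : (κ : ℝ) ≤ 5 / 2 * r := by
    by_contra h
    rw [not_le] at h
    have e1 : (5 / 2 * r) * (5 / 2 * r - 1) ≤ (κ : ℝ) * (κ - 1) := by nlinarith
    nlinarith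
  -- the upper bound for G
  have hc : 2 * (m : ℝ) / n = 2 + 2 * e / n := by rw [hm']; field_simp
  obtain ⟨b, hb⟩ : ∃ b : ℝ, b = 2 * e / n := ⟨_, rfl⟩
  have hbn : b * n = 2 * e := by rw [hb]; field_simp
  have hb0 : 0 ≤ b := by rw [hb]; positivity
  have hup : (2 * (m : ℝ) / n - 1) * (κ - 1) ≤ m - n + 1 := by
    rw [hc, ← hb, ← he]
    rcases Nat.lt_or_ge κ 3 with h | h
    · have : (κ : ℝ) = 2 := by
        have : κ = 2 := by omega
        exact_mod_cast this
      rw [this]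
      have : b ≤ e := by nlinarith
      linarith
    · have h3 : (3 : ℝ) ≤ κ := by exact_mod_cast h
      have h4 : b ≤ κ / 6 := by
        have : b * n ≤ κ / 6 * n := by
          rw [hbn]
          have : (κ : ℝ) * (κ + 1) ≤ κ * (n / 6) := by
            apply mul_le_mul_of_nonneg_left _ (by linarith)
            linarith
          linarith
        exact le_of_mul_le_mul_right this hn0
      nlinarith
  have h2 := upper_D' h1 (by
    have : (2 : ℝ) ≤ n := by linarith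
    exact_mod_cast this) hκ1 hκ2 hup G hm w hG
  refine lt_of_le_of_lt h2 ?_
  -- the lower bound with k = κ + 2
  obtain ⟨K, hK⟩ : ∃ K, K = κ + 2 := ⟨_, rfl⟩
  have hKR : (K : ℝ) = κ + 2 := by rw [hK]; push_cast; ring
  have hKn : 2 * K ≤ n := by
    have : 2 * (K : ℝ) ≤ n := by rw [hKR]; linarith
    exact_mod_cast this
  have h3 := (multi_both (k := K) (by omega) hKn h1 (by
    rw [hK, show κ + 2 - 1 = κ + 1 from by omega, show κ + 2 - 2 = κ from by omega,
      Nat.mul_comm (κ + 1) κ]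
    exact hκ3.le) hM).2
  refine lt_of_lt_of_le ?_ h3
  have hq : 2 ≤ n / K := (Nat.le_div_iff_mul_le (by omega)).2 hKn
  have hq2 : n < K * (n / K + 1) := by
    have := Nat.lt_mul_div_succ n (show 0 < K by omega)
    simpa using this
  obtain ⟨q, hqd⟩ : ∃ q : ℕ, q = n / K := ⟨_, rfl⟩
  rw [← hqd] at hq hq2 ⊢
  have hqR : (2 : ℝ) ≤ q := by exact_mod_cast hq
  have hq2R : (n : ℝ) ≤ K * (q + 1) := by exact_mod_cast hq2.le
  have hKr : (K : ℝ) ≤ 9 / 2 * r := by rw [hKR]; linarith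
  have hK4 : (4 : ℝ) ≤ K := by rw [hKR]; linarith
  -- q is large
  have hq3 : (n : ℝ) ≤ 9 / 2 * r * (q + 1) := by nlinarith
  have hq38 : 38 ≤ (q : ℝ) := by
    by_contra h
    rw [not_le] at h
    nlinarith
  have h5 : 4 * (K : ℝ) * (m - n) / n = 2 * b * K := by rw [hb, he]; ring
  rw [h5, hc, ← hb]
  suffices h : 2 * (K : ℝ) * (K - 1) / (K - 2 + q) < 2 * ((K : ℝ) - 3 - 2 * b) by
    have hκK : (κ : ℝ) = K - 2 := by rw [hKR]; ring
    rw [hκK]
    linarith
  have hK2q : 0 < (K : ℝ) - 2 + q := by linarith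
  rw [div_lt_iff₀ hK2q]
  -- K (q - 1) > (3 + 2 b) (K - 2 + q)
  suffices h : (3 + 2 * b) * (K - 2 + q) < K * (q - 1) by nlinarith
  rcases le_or_gt b (1 / 4) with hb4 | hb4
  · have h6 : (3 + 2 * b) * (K - 2 + q) ≤ (7 / 2) * (K - 2 + q) :=
      mul_le_mul_of_nonneg_right (by linarith) hK2q.le
    nlinarith
  · -- b > 1/4
    have h7 : (3 + 2 * b) ≤ 14 * b := by linarith
    have h8 : (3 + 2 * b) * (K - 2 + q) ≤ 14 * b * (K - 2 + q) :=
      mul_le_mul_of_nonneg_right h7 hK2q.le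
    have hKlow : 2 * (e + 1) ≤ (K : ℝ) * K := by rw [hKR]; nlinarith
    have hKr2 : r ≤ K := by nlinarith
    -- 28 b ≤ K - 1 and 28 b < q - 1
    have h9 : 28 * b * n ≤ (K - 1) * n := by
      have e1 : 28 * b * n = 56 * e := by rw [mul_assoc, hbn]; ring
      rw [e1]
      have e2 : 56 * e ≤ 56 * (r * r) := by linarith
      have e3 : (3 : ℝ) / 4 * r * (177 * r) ≤ (K - 1) * n := by
        apply mul_le_mul _ hn3 (by positivity) (by linarith)
        linarith
      nlinarith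
    have h10 : 28 * b ≤ K - 1 := le_of_mul_le_mul_right h9 hn0
    have h11 : 28 * b * n < (q - 1) * n := by
      have e1 : 28 * b * n = 56 * e := by rw [mul_assoc, hbn]; ring
      rw [e1]
      have e2 : (n : ℝ) / (9 * r) ≤ q - 1 := by
        rw [div_le_iff₀ (by positivity)]
        nlinarith
      have e3 : (n : ℝ) / (9 * r) * n ≤ (q - 1) * n := mul_le_mul_of_nonneg_right e2 hn0.le
      have e4 : 3513 * (r * r) ≤ (n : ℝ) / (9 * r) * n := by
        rw [div_mul_eq_mul_div, le_div_iff₀ (by positivity)]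
        nlinarith
      nlinarith
    have h12 : 28 * b < q - 1 := lt_of_mul_lt_mul_right h11 hn0.le
    have h13 : 14 * b * (K - 2 + q) = 14 * b * (K - 1) + 14 * b * (q - 1) := by ring
    rw [h13] at h8
    have h14 : 28 * b * (K - 1) ≤ (q - 1) * (K - 1) :=
      mul_le_mul_of_nonneg_right h12.le (by linarith)
    have h15 : 28 * b * (q - 1) ≤ (K - 1) * (q - 1) :=
      mul_le_mul_of_nonneg_right h10 (by linarith)
    nlinarith

end Pool.Agent.T2H88.LE
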