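import Pool.Agent.T2H88.LE.Lin4

/-!
# The asymptotics for linearly many extra edges
-/

set_option autoImplicit false

namespace Pool.Agent.T2H88.LE

open Finset Matrix Pool.Agent.Helper554.LE

theorem lin_main {ε g : ℝ} (hε : 0 < ε) (hg0 : 0 < g) (hg1 : g ≤ 1) :
    ∃ N : ℕ, ∀ n m : ℕ, N ≤ n → g * n ≤ (m : ℝ) - n → g * ((m : ℝ) - n) ≤ n →
      ∃ M : ℝ, IsGreatest (Energies n m) M ∧
        |M - (4 * m - 2 * n - 4 * Real.sqrt 2 * ((m - n) * Real.sqrt (m - n)) *
          (1 / n + 1 / (2 * (m - n) + n)))| ≤ ε * ((m - n) * Real.sqrt (m - n)) / n := by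
  obtain ⟨τ, hτ⟩ : ∃ τ : ℝ, τ = min (1 / 2) (ε / 24) := ⟨_, rfl⟩
  have hτ0 : 0 < τ := by rw [hτ]; exact lt_min (by norm_num) (by positivity)
  have hτ1 : τ ≤ 1 / 2 := by rw [hτ]; exact min_le_left _ _
  have hτ2 : τ ≤ ε / 24 := by rw [hτ]; exact min_le_right _ _
  obtain ⟨σ, hσ⟩ : ∃ σ : ℝ, σ = g ^ 2 * τ / 3 := ⟨_, rfl⟩
  have hσ0 : 0 < σ := by rw [hσ]; positivity
  obtain ⟨C₀, hC₀⟩ : ∃ C₀ : ℝ, C₀ = 2 + (2 + 1) / σ := ⟨_, rfl⟩
  obtain ⟨c₀, hc₀⟩ : ∃ c₀ : ℝ, c₀ = 2 * (C₀ + 1) / σ := ⟨_, rfl⟩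
  have hC0 : 0 < C₀ := by rw [hC₀]; positivity
  have hc0 : 0 < c₀ := by rw [hc₀]; positivity
  obtain ⟨η, hη⟩ : ∃ η : ℝ, η = min (τ / 2) (σ / (2 * (2 + c₀))) := ⟨_, rfl⟩
  have hη0 : 0 < η := by rw [hη]; exact lt_min (by positivity) (by positivity)
  have hη1 : η ≤ τ / 2 := by rw [hη]; exact min_le_left _ _
  have hη2 : (2 + c₀) * η ≤ σ / 2 := by
    have h1 : η ≤ σ / (2 * (2 + c₀)) := by rw [hη]; exact min_le_right _ _
    have h2 := mul_le_mul_of_nonneg_left h1 (by linarith : 0 ≤ 2 + c₀)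
    have h3 : (2 + c₀) * (σ / (2 * (2 + c₀))) = σ / 2 := by
      field_simp
    linarith
  obtain ⟨R, hR⟩ : ∃ R : ℝ, R = 1 / η * (48 / g + 2400) / (2 * τ) + 400 / ε + 100 / g + 10 :=
    ⟨_, rfl⟩
  have hRa : 0 < 1 / η * (48 / g + 2400) / (2 * τ) := by positivity
  have hRb : 0 < 400 / ε := by positivity
  have hRc : 0 < 100 / g := by positivity
  obtain ⟨N, hN⟩ := exists_nat_ge (R ^ 2 / g)
  refine ⟨N, fun n m hNn hl hu => ?_⟩
  have hs2 : Real.sqrt 2 * Real.sqrt 2 = 2 := Real.mul_self_sqrt (by norm_num)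
  obtain ⟨w, hw⟩ : ∃ w : ℝ, w = Real.sqrt 2 := ⟨_, rfl⟩
  have hww : w * w = 2 := by rw [hw]; exact hs2
  have hw0 : 0 ≤ w := by rw [hw]; exact Real.sqrt_nonneg 2
  have hw1 : w ≤ 3 / 2 := by
    by_contra hx
    rw [not_le] at hx
    have := mul_self_lt_mul_self (by norm_num) hx
    linarith
  have hNR : (N : ℝ) ≤ n := by exact_mod_cast hNn
  have hRpos : 0 < R := by rw [hR]; positivity
  have hn0 : (0 : ℝ) < n := by
    have : 0 < R ^ 2 / g := by positivity
    linarith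
  have hmn : (0 : ℝ) < (m : ℝ) - n := by
    have : 0 < g * n := by positivity
    linarith
  have hnm' : n ≤ m := by
    have : (n : ℝ) ≤ m := by linarith
    exact_mod_cast this
  obtain ⟨r, hrd⟩ : ∃ r : ℝ, r = Real.sqrt (m - n) := ⟨_, rfl⟩
  have hrr : r * r = (m : ℝ) - n := by
    rw [hrd]; exact Real.mul_self_sqrt hmn.le
  have hr0 : 0 ≤ r := by rw [hrd]; exact Real.sqrt_nonneg _
  have hrR : R ≤ r := by
    have h1 : R ^ 2 ≤ r ^ 2 := by
      have h2 : R ^ 2 / g ≤ n := by linarith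
      rw [div_le_iff₀ hg0] at h2
      have : r ^ 2 = (m : ℝ) - n := by rw [← hrr]; ring
      rw [this]; linarith
    exact abs_le_of_sq_le_sq' h1 hr0 |>.2
  have hr10 : 10 ≤ r := by linarith
  have hrpos : 0 < r := by linarith
  rw [← hrr] at hl hu
  have hrn : 100 * r ≤ n := by
    have h1 : 100 / g ≤ r := by linarith
    rw [div_le_iff₀ hg0] at h1
    have h2 : 100 * r ≤ (r * g) * r := mul_le_mul_of_nonneg_right h1 hr0
    linarith
  have hn2 : 2 ≤ n := by
    have : (2 : ℝ) ≤ n := by linarith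
    exact_mod_cast this
  -- the least k
  obtain ⟨k, hk3, hk1, hk2⟩ := exists_min (m - n + 1) (by omega)
  have hkR : (3 : ℝ) ≤ k := by exact_mod_cast hk3
  have hk2R : ((k : ℝ) - 2) * (k - 3) ≤ 2 * (r * r + 1) := by
    have : (((k - 2) * (k - 3) : ℕ) : ℝ) ≤ ((2 * (m - n + 1) : ℕ) : ℝ) := by
      exact_mod_cast hk2.le
    push_cast [Nat.cast_sub hnm', Nat.cast_sub hk3, Nat.cast_sub (by omega : 2 ≤ k)] at this
    rw [hrr]; exact this
  have hkr : (k : ℝ) ≤ w * r + 5 := by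
    by_contra hcon
    rw [not_le] at hcon
    have h1 : (w * r + 2) * (w * r + 2) ≤ (k - 3) * (k - 3) := by
      apply mul_self_le_mul_self
      · positivity
      · linarith
    have h2 : (k - 3 : ℝ) * (k - 3) ≤ (k - 2) * (k - 3) :=
      mul_le_mul_of_nonneg_right (by linarith) (by linarith)
    have h3 : (w * r + 2) * (w * r + 2) = w * w * (r * r) + 4 * (w * r) + 4 := by ring
    rw [hww] at h3
    have h4 : 0 ≤ w * r := by positivity
    linarith
  have hkr3 : (k : ℝ) ≤ 3 * r := by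
    have : w * r ≤ 3 / 2 * r := mul_le_mul_of_nonneg_right hw1 hr0
    linarith
  have hkn : 2 * k ≤ n := by
    have : 2 * (k : ℝ) ≤ n := by linarith
    exact_mod_cast this
  have hne : (Energies n m).Nonempty := by
    obtain ⟨E, hE, -⟩ := multi_lower (n := n) (k := k) (m := m) (by omega) hkn (by omega) (by
      have : m - (n - 1) = m - n + 1 := by omega
      rw [this]; exact hk1)
    exact ⟨E, hE⟩
  obtain ⟨M, hM, hmax⟩ := Set.exists_max_image (Energies n m) id (energies_finite n m) hne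
  simp only [id] at hmax
  refine ⟨M, ⟨hM, fun e he => hmax e he⟩, ?_⟩
  rw [← hrd]
  have hc3 : ((m : ℝ) - n) * r = r * r * r := by rw [← hrr]
  rw [hc3]
  have hc4 : 2 * ((m : ℝ) - n) + n = 2 * (r * r) + n := by rw [hrr]
  rw [hc4]
  have hden : 0 < 2 * (r * r) + (n : ℝ) := by positivity
  obtain ⟨Z, hZ⟩ : ∃ Z : ℝ, Z = w * r * (2 * (r * r) / n + 2 * (r * r) / (2 * (r * r) + n)) :=
    ⟨_, rfl⟩
  have hZ2 : 4 * Real.sqrt 2 * (r * r * r) * (1 / (n : ℝ) + 1 / (2 * (r * r) + n)) = 2 * Z := by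
    rw [hZ, ← hw]; ring
  rw [hZ2]
  have hZ6 : Z ≤ 6 * (r * r * r) / n := by
    have h1 : 2 * (r * r) / (2 * (r * r) + n) ≤ 2 * (r * r) / (n : ℝ) :=
      div_le_div_of_nonneg_left (by positivity) hn0 (by linarith [mul_self_nonneg r])
    have h2 : Z ≤ w * r * (2 * (2 * (r * r) / n)) := by
      rw [hZ]; exact mul_le_mul_of_nonneg_left (by linarith) (by positivity)
    have h3 : w * (r * (2 * (2 * (r * r) / n))) ≤ 3 / 2 * (r * (2 * (2 * (r * r) / n))) :=
      mul_le_mul_of_nonneg_right hw1 (by positivity)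
    have h4 : 3 / 2 * (r * (2 * (2 * (r * r) / n))) = 6 * (r * r * r) / n := by ring
    linarith
  have hZ0 : 0 ≤ Z := by rw [hZ]; positivity
  have h24 : 24 * τ * (r * r * r) / n ≤ ε * (r * r * r) / n := by
    apply div_le_div_of_nonneg_right _ hn0.le
    exact mul_le_mul_of_nonneg_right (by linarith) (by positivity)
  -- upper bound
  have hup : M ≤ 4 * m - 2 * n - 2 * ((1 - 2 * τ) * Z) := by
    obtain ⟨G, _, hc, hm, hME⟩ := hM
    obtain ⟨T, -, -, h3⟩ := top_set (by omega) G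
    have hmR : (m : ℝ) = n + r * r := by linarith
    rw [hm] at h3
    obtain ⟨S, hS⟩ : ∃ S, S = ∑ a ∈ T, (G.isHermitian_lapMatrix ℝ).eigenvalues a := ⟨_, rfl⟩
    obtain ⟨L, hL⟩ : ∃ L : ℝ, L = 2 * (m : ℝ) - n + 2 * T.card - S := ⟨_, rfl⟩
    obtain ⟨b, hb⟩ : ∃ b : ℝ, b = 2 * (r * r) / n := ⟨_, rfl⟩
    have hc' : 2 * (m : ℝ) / n = 2 + b := by rw [hb, hmR]; field_simp
    have hL' : L = 2 * (m : ℝ) - n + 2 * T.card -
        ∑ a ∈ T, (G.isHermitian_lapMatrix ℝ).eigenvalues a := by rw [hL, hS]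
    have hL0 : 0 ≤ L := by
      have h4 := upper_star G T (fun v => exists_nbr hn2 hc v)
      rw [hm, Fintype.card_fin] at h4
      rw [hL']; linarith
    obtain ⟨k', h, hk0, hkT, hh0, hhk, hcount, hmain⟩ :=
      lin_loss hn2 G hc hm T hL' hη0 (by linarith) hσ0 (by norm_num : (0 : ℝ) ≤ 1) hC₀ hc₀ hη2
    rw [← hrr] at hcount
    have hbig : 1 / η * (48 / g + 2400) ≤ 2 * τ * r := by
      have h5 : 1 / η * (48 / g + 2400) / (2 * τ) ≤ r := by linarith
      rw [div_le_iff₀ (by positivity)] at h5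
      linarith
    have hfin := lin_real hn0 hg0 hg1 hτ0 hτ1 hrpos hl hu hw0 hww hη0 hη1 hσ0 hσ hL0
      (Nat.cast_nonneg T.card) hk0 hkT hh0 hhk hcount hbig hmain
    rw [← hZ, ← hb] at hfin
    rw [← hME, h3, ← hS, hc']
    linarith
  -- lower bound
  have hlow := (multi_both (by omega) hkn hnm' hk1 (fun e he => hmax e he)).2
  have hq2 : n < k * (n / k + 1) := by
    have := Nat.lt_mul_div_succ n (show 0 < k by omega)
    simpa using this
  obtain ⟨q, hqd⟩ : ∃ q : ℕ, q = n / k := ⟨_, rfl⟩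
  rw [← hqd] at hq2 hlow
  have hq2R : (n : ℝ) ≤ k * (q + 1) := by exact_mod_cast hq2.le
  rw [← hrr] at hlow
  have hk0R : (0 : ℝ) < k := by linarith
  have hq0 : (0 : ℝ) ≤ q := Nat.cast_nonneg _
  have hlow2 : 2 * (k : ℝ) * (k - 1) / (k - 2 + q) ≤ 2 * k * (k * k) / (k * (k - 3) + n) := by
    have hd1 : (0 : ℝ) < k - 2 + q := by linarith
    have hd2 : (0 : ℝ) < k * (k - 3) + n := by
      have : 0 ≤ (k : ℝ) * (k - 3) := mul_nonneg hk0R.le (by linarith)
      linarith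
    rw [div_le_div_iff₀ hd1 hd2]
    have h1 : (k : ℝ) * (k - 3) + n ≤ k * (k - 2 + q) := by linarith
    have h2 : 2 * (k : ℝ) * (k - 1) * (k * (k - 3) + n) ≤ 2 * k * (k - 1) * (k * (k - 2 + q)) :=
      mul_le_mul_of_nonneg_left h1 (mul_nonneg (by linarith) (by linarith))
    have h3 : 2 * (k : ℝ) * (k - 1) * (k * (k - 2 + q)) ≤ 2 * k * k * (k * (k - 2 + q)) := by
      apply mul_le_mul_of_nonneg_right _ (mul_nonneg hk0R.le hd1.le)
      linarith
    linarith
  have hkK : (k : ℝ) ≤ w * r + 5 := hkr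
  have hkw : 4 * (k : ℝ) * (r * r) / n ≤ 4 * (w * r) * (r * r) / n + 20 * (r * r) / n := by
    rw [← add_div]
    apply div_le_div_of_nonneg_right _ hn0.le
    have := mul_le_mul_of_nonneg_right hkK (mul_self_nonneg r)
    linarith
  have hkc : 2 * (k : ℝ) * (k * k) / (k * (k - 3) + n) ≤
      4 * (w * r) * (r * r) / (2 * (r * r) + n) + 200 * (r * r) / n := by
    have hk1R : 2 * (r * r + 1) ≤ ((k : ℝ) - 1) * (k - 2) := by
      have : ((2 * (m - n + 1) : ℕ) : ℝ) ≤ (((k - 1) * (k - 2) : ℕ) : ℝ) := by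
        exact_mod_cast hk1
      push_cast [Nat.cast_sub hnm', Nat.cast_sub (by omega : 1 ≤ k),
        Nat.cast_sub (by omega : 2 ≤ k)] at this
      rw [hrr]; exact this
    have hkk3 : 2 * (r * r) ≤ (k : ℝ) * (k - 3) := by linarith
    have hwr0 : 0 ≤ w * r := by positivity
    have hk2' : (k : ℝ) * k ≤ (w * r + 5) * (w * r + 5) :=
      mul_self_le_mul_self hk0R.le hkK
    have hk3' : (k : ℝ) * (k * k) ≤ (w * r + 5) * ((w * r + 5) * (w * r + 5)) :=
      mul_le_mul hkK hk2' (by positivity) (by linarith)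
    have hexp : (w * r + 5) * ((w * r + 5) * (w * r + 5)) =
        2 * (w * r) * (r * r) + 30 * (r * r) + 75 * (w * r) + 125 := by
      have : (w * r + 5) * ((w * r + 5) * (w * r + 5)) =
          (w * w) * (w * r) * (r * r) + 15 * (w * w) * (r * r) + 75 * (w * r) + 125 := by ring
      rw [this, hww]; ring
    have hr2 : 10 * r ≤ r * r := mul_le_mul_of_nonneg_right hr10 hr0
    have hwr : w * r ≤ 3 / 2 * r := mul_le_mul_of_nonneg_right hw1 hr0
    have hnum : 2 * (k : ℝ) * (k * k) ≤ 4 * (w * r) * (r * r) + 200 * (r * r) := by linarith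
    have h1 : 2 * (k : ℝ) * (k * k) / (k * (k - 3) + n) ≤
        2 * k * (k * k) / (2 * (r * r) + n) :=
      div_le_div_of_nonneg_left (by positivity) hden (by linarith)
    have h2 : 2 * (k : ℝ) * (k * k) / (2 * (r * r) + n) ≤
        (4 * (w * r) * (r * r) + 200 * (r * r)) / (2 * (r * r) + n) :=
      div_le_div_of_nonneg_right hnum hden.le
    rw [add_div] at h2
    have h3 : 200 * (r * r) / (2 * (r * r) + n) ≤ 200 * (r * r) / (n : ℝ) :=
      div_le_div_of_nonneg_left (by positivity) hn0 (by linarith [mul_self_nonneg r])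
    linarith
  rw [abs_le]
  constructor
  · have e1 : 220 * (r * r) / n ≤ ε * (r * r * r) / n := by
      apply div_le_div_of_nonneg_right _ hn0.le
      have h1 : 400 / ε ≤ r := by linarith
      rw [div_le_iff₀ hε] at h1
      have h2 : 400 * (r * r) ≤ (r * ε) * (r * r) :=
        mul_le_mul_of_nonneg_right h1 (mul_self_nonneg r)
      have h3 : 0 ≤ r * r := mul_self_nonneg r
      linarith
    have e2 : 2 * Z = 4 * (w * r) * (r * r) / n + 4 * (w * r) * (r * r) / (2 * (r * r) + n) := by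
      rw [hZ]; ring
    have e3 : 20 * (r * r) / (n : ℝ) + 200 * (r * r) / n = 220 * (r * r) / n := by ring
    rw [e2]
    linarith
  · have e1 : 4 * (τ * Z) ≤ 24 * τ * (r * r * r) / n := by
      have := mul_le_mul_of_nonneg_left hZ6 hτ0.le
      have e2 : τ * (6 * (r * r * r) / n) * 4 = 24 * τ * (r * r * r) / n := by ring
      linarith
    linarith

end Pool.Agent.T2H88.LE
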