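import Pool.Agent.T2H88.LE.Bal

/-!
# Corollaries
-/

set_option autoImplicit false

namespace Pool.Agent.T2H88.LE

open Finset Matrix Pool.Agent.Helper554.LE

/-- upper bound of `Vb` for `n ≤ m ≤ 3n/2` -/
theorem Vb_le {n m k s : ℕ} (hn : 1 ≤ n) (h1 : n ≤ m) (h3 : 2 * m ≤ 3 * n) (hk : 3 ≤ k)
    (hkn : 2 * k ≤ n) (hmin : (k - 2) * (k - 3) < 2 * (m - n + 1)) :
    Vb n m s ≤ 2 * m - n - 2 * k * ((m : ℝ) - n) / n := by
  have hnR : (1 : ℝ) ≤ n := by exact_mod_cast hn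
  have h1R : (n : ℝ) ≤ m := by exact_mod_cast h1
  have h3R : 2 * (m : ℝ) ≤ 3 * n := by exact_mod_cast h3
  have hkR : (3 : ℝ) ≤ k := by exact_mod_cast hk
  have hknR : 2 * (k : ℝ) ≤ n := by exact_mod_cast hkn
  have hn0 : (n : ℝ) ≠ 0 := by linarith
  obtain ⟨b, hb⟩ : ∃ b : ℝ, b = 2 * ((m : ℝ) - n) / n := ⟨_, rfl⟩
  have hbn : b * n = 2 * ((m : ℝ) - n) := by rw [hb]; field_simp
  have hb0 : 0 ≤ b := by rw [hb]; apply div_nonneg <;> linarith
  have hb1 : b ≤ 1 := by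
    rw [hb, div_le_one (by linarith)]; linarith
  have hc : 2 * (m : ℝ) / n = 2 + b := by rw [hb]; field_simp; ring
  have hr : 2 * (k : ℝ) * ((m : ℝ) - n) / n = b * k := by rw [hb]; ring
  have hbk : b * k ≤ (m : ℝ) - n := by nlinarith
  have hminR : ((k : ℝ) - 2) * (k - 3) ≤ 2 * (m - n) := by
    obtain ⟨q, rfl⟩ : ∃ q, k = q + 3 := ⟨k - 3, by omega⟩
    have e1 : q + 3 - 2 = q + 1 := by omega
    have e2 : q + 3 - 3 = q := by omega
    rw [e1, e2] at hmin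
    obtain ⟨w, hw⟩ : ∃ w, m = n + w := ⟨m - n, by omega⟩
    subst hw
    have e3 : n + w - n + 1 = w + 1 := by omega
    rw [e3] at hmin
    obtain ⟨z, hz⟩ := Nat.even_mul_succ_self q
    have e4 : (q + 1) * q = q * (q + 1) := Nat.mul_comm _ _
    have e5 : (q + 1) * q ≤ 2 * w := by omega
    have e6 : (((q + 1) * q : ℕ) : ℝ) ≤ ((2 * w : ℕ) : ℝ) := by exact_mod_cast e5
    push_cast at e6 ⊢
    nlinarith
  rw [hr, Vb, hc]
  rcases Nat.lt_or_ge s k with hs | hs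
  · rcases Nat.eq_zero_or_pos s with h0 | h0
    · subst h0
      have := min_le_left (min (((0 : ℕ) : ℝ) * n) (m + ((0 : ℕ) : ℝ) * (((0 : ℕ) : ℝ) + 1) / 2))
        (2 * (m : ℝ) - n + 2 * ((0 : ℕ) : ℝ))
      have h5 := min_le_left (((0 : ℕ) : ℝ) * n) ((m : ℝ) + ((0 : ℕ) : ℝ) * (((0 : ℕ) : ℝ) + 1) / 2)
      have h6 := this.trans h5
      simp only [Nat.cast_zero, zero_mul, mul_zero, sub_zero] at h6 ⊢
      linarith
    · have h4 : min (min ((s : ℝ) * n) (m + s * (s + 1) / 2)) (2 * (m : ℝ) - n + 2 * s) ≤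
          m + s * (s + 1) / 2 := (min_le_left _ _).trans (min_le_right _ _)
      have hsR : (1 : ℝ) ≤ s := by exact_mod_cast h0
      have hskR : (s : ℝ) + 1 ≤ k := by exact_mod_cast hs
      rcases Nat.lt_or_ge s 4 with h5 | h5
      · have h6 : (s : ℝ) * (s - 3) ≤ 0 := by
          have : (s : ℝ) ≤ 3 := by exact_mod_cast (by omega : s ≤ 3)
          nlinarith
        have h7 : b * (k - s) ≤ b * k := by nlinarith
        nlinarith
      · have h5R : (4 : ℝ) ≤ s := by exact_mod_cast h5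
        have h6 : b * ((k : ℝ) - s) ≤ k - s := by nlinarith
        have h7 : 0 ≤ ((k : ℝ) - 1 - s) * (k - 1 + s - 5) :=
          mul_nonneg (by linarith) (by linarith)
        nlinarith
  · have h4 := min_le_right (min ((s : ℝ) * n) (m + s * (s + 1) / 2)) (2 * (m : ℝ) - n + 2 * s)
    have hsR : (k : ℝ) ≤ s := by exact_mod_cast hs
    have h5 : b * k ≤ b * s := mul_le_mul_of_nonneg_left hsR hb0
    linarith

/-- `Vb` is at most `2m - n` -/
theorem Vb_le' {n m s : ℕ} (hn : 1 ≤ n) (h1 : n ≤ m) : Vb n m s ≤ 2 * m - n := by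
  have hnR : (1 : ℝ) ≤ n := by exact_mod_cast hn
  have h1R : (n : ℝ) ≤ m := by exact_mod_cast h1
  have hc2 : 2 ≤ 2 * (m : ℝ) / n := by
    rw [le_div_iff₀ (by linarith)]; linarith
  rw [Vb]
  have h4 := min_le_right (min ((s : ℝ) * n) (m + s * (s + 1) / 2)) (2 * (m : ℝ) - n + 2 * s)
  have h5 : 2 * (s : ℝ) ≤ 2 * (m : ℝ) / n * s := mul_le_mul_of_nonneg_right hc2 (by positivity)
  linarith

/-- both lower bounds from the balanced multi-hub graph -/
theorem multi_both {n k m : ℕ} (hk1 : 1 ≤ k) (hkn : 2 * k ≤ n) (h1 : n ≤ m)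
    (hf : 2 * (m - n + 1) ≤ (k - 1) * (k - 2)) {M : ℝ}
    (hM : ∀ E ∈ Energies n m, E ≤ M) :
    4 * (m : ℝ) - 2 * n - 4 * k * (m - n) / n - 4 * (m - n + k) / ((n / k : ℕ) : ℝ) ≤ M ∧
    4 * (m : ℝ) - 2 * n - 4 * k * (m - n) / n -
      2 * k * (k - 1) / (k - 2 + ((n / k : ℕ) : ℝ)) ≤ M := by
  have hf' : 2 * (m - (n - 1)) ≤ (k - 1) * (k - 2) := by
    have : m - (n - 1) = m - n + 1 := by omega
    rw [this]; exact hf
  have hnR : (2 : ℝ) ≤ n := by exact_mod_cast (by omega : 2 ≤ n)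
  have hn0 : (n : ℝ) ≠ 0 := by linarith
  have hkR : (1 : ℝ) ≤ k := by exact_mod_cast hk1
  have hq : 2 ≤ n / k := (Nat.le_div_iff_mul_le hk1).2 hkn
  have hqR : (2 : ℝ) ≤ ((n / k : ℕ) : ℝ) := by exact_mod_cast hq
  obtain ⟨E, hE, h2⟩ := multi_lower hk1 hkn (by omega) hf'
  obtain ⟨E', hE', h3⟩ := multi_lower2 hk1 hkn (by omega) hf'
  obtain ⟨q, hqd⟩ : ∃ q : ℝ, q = ((n / k : ℕ) : ℝ) := ⟨_, rfl⟩
  rw [← hqd] at h2 h3 hqR ⊢
  have hq0 : q ≠ 0 := by linarith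
  constructor
  · refine le_trans (le_of_eq ?_) (h2.trans (hM E hE))
    field_simp
    ring
  · refine le_trans (le_of_eq ?_) (h3.trans (hM E' hE'))
    have h4 : (k : ℝ) - 2 + q ≠ 0 := by linarith
    have h5 : (k : ℝ) - 1 + (q - 1) = k - 2 + q := by ring
    rw [h5]
    field_simp
    ring

theorem lapEnergy_nonneg {n : ℕ} (G : SimpleGraph (Fin n)) [DecidableRel G.Adj] :
    0 ≤ lapEnergy G := by
  rw [lapEnergy_eq G (SimpleGraph.isHermitian_lapMatrix (R := ℝ) G)]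
  exact Finset.sum_nonneg fun i _ => abs_nonneg _

/-- the least `k` with `(k-1)(k-2) ≥ 2t` -/
theorem exists_min (t : ℕ) (ht : 1 ≤ t) : ∃ k, 3 ≤ k ∧ 2 * t ≤ (k - 1) * (k - 2) ∧
    (k - 2) * (k - 3) < 2 * t := by
  classical
  have hex : ∃ x, 2 * t ≤ (x + 2) * (x + 1) := ⟨2 * t, by nlinarith⟩
  refine ⟨Nat.find hex + 3, by omega, ?_, ?_⟩
  · have := Nat.find_spec hex
    rw [show Nat.find hex + 3 - 1 = Nat.find hex + 2 from by omega,
      show Nat.find hex + 3 - 2 = Nat.find hex + 1 from by omega]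
    exact this
  · rw [show Nat.find hex + 3 - 2 = Nat.find hex + 1 from by omega,
      show Nat.find hex + 3 - 3 = Nat.find hex from by omega]
    rcases Nat.eq_zero_or_pos (Nat.find hex) with h | h
    · rw [h]; omega
    · obtain ⟨y, hy⟩ : ∃ y, Nat.find hex = y + 1 := ⟨Nat.find hex - 1, by omega⟩
      have := Nat.find_min hex (m := y) (by omega)
      rw [hy]
      rw [show y + 1 + 1 = y + 2 from by omega]
      omega

theorem lower_cor {n m : ℕ} (hn : 3 ≤ n) (h1 : n ≤ m) {M : ℝ}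
    (hM : ∀ E ∈ Energies n m, E ≤ M) (hne : (Energies n m).Nonempty) :
    4 * (m : ℝ) - 2 * n - 250 * ((m - n + 1) * Real.sqrt (m - n + 1)) / n ≤ M := by
  obtain ⟨k, hk3, hk1, hk2⟩ := exists_min (m - n + 1) (by omega)
  have hnR : (3 : ℝ) ≤ n := by exact_mod_cast hn
  have h1R : (n : ℝ) ≤ m := by exact_mod_cast h1
  have hn0 : (0 : ℝ) < n := by linarith
  obtain ⟨e, he⟩ : ∃ e : ℝ, e = (m : ℝ) - n := ⟨_, rfl⟩
  have he0 : 0 ≤ e := by rw [he]; linarith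
  obtain ⟨r, hr⟩ : ∃ r : ℝ, r = Real.sqrt (m - n + 1) := ⟨_, rfl⟩
  have hrr : r * r = e + 1 := by rw [hr, he]; exact Real.mul_self_sqrt (by linarith)
  have hr0 : 0 ≤ r := by rw [hr]; exact Real.sqrt_nonneg _
  have hr1 : 1 ≤ r := by nlinarith
  have hkR : (3 : ℝ) ≤ k := by exact_mod_cast hk3
  have hk2R : ((k : ℝ) - 2) * (k - 3) ≤ 2 * (e + 1) := by
    have : (((k - 2) * (k - 3) : ℕ) : ℝ) ≤ ((2 * (m - n + 1) : ℕ) : ℝ) := by
      exact_mod_cast hk2.le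
    push_cast [Nat.cast_sub h1, Nat.cast_sub hk3, Nat.cast_sub (by omega : 2 ≤ k)] at this
    rw [he]; exact this
  have hk5 : (k : ℝ) ≤ 5 * r := by
    by_contra h
    rw [not_le] at h
    nlinarith
  rw [← hr, ← he]
  have hm : (m : ℝ) = n + e := by rw [he]; ring
  rw [hm]
  have key : ∀ x : ℝ, x ≤ M → (4 * ((n : ℝ) + e) - 2 * n - x) * n ≤ 250 * ((e + 1) * r) →
      4 * ((n : ℝ) + e) - 2 * n - 250 * ((e + 1) * r) / n ≤ M := by
    intro x hx h
    have : 4 * ((n : ℝ) + e) - 2 * n - x ≤ 250 * ((e + 1) * r) / n := by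
      rw [le_div_iff₀ hn0]; exact h
    linarith
  have hr3 : (e + 1) * r = r * r * r := by rw [← hrr]
  have hrr1 : r * r ≤ r * r * r := by nlinarith [mul_self_nonneg r]
  by_cases hkn : 2 * k ≤ n
  · have h2 := (multi_both (by omega) hkn h1 hk1 hM).1
    refine key _ h2 ?_
    rw [← he, hm]
    have hq : 2 ≤ n / k := (Nat.le_div_iff_mul_le (by omega)).2 hkn
    have hq2 : n < k * (n / k + 1) := by
      have := Nat.lt_mul_div_succ n (show 0 < k by omega)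
      simpa using this
    obtain ⟨q, hqd⟩ : ∃ q : ℕ, q = n / k := ⟨_, rfl⟩
    rw [← hqd] at hq hq2 ⊢
    have hqR : (2 : ℝ) ≤ q := by exact_mod_cast hq
    have hq2R : (n : ℝ) ≤ k * (q + 1) := by exact_mod_cast hq2.le
    have h3 : (n : ℝ) / q ≤ 3 / 2 * k := by
      rw [div_le_iff₀ (by linarith)]
      nlinarith
    have h4 : (4 * ((n : ℝ) + e) - 2 * n - (4 * ((n : ℝ) + e) - 2 * n - 4 * k * e / n -
        4 * (e + k) / q)) * n = 4 * k * e + 4 * (e + k) * (n / q) := by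
      field_simp
      ring
    rw [h4, hr3]
    have h5 : 4 * (e + k) * ((n : ℝ) / q) ≤ 4 * (e + k) * (3 / 2 * k) :=
      mul_le_mul_of_nonneg_left h3 (by linarith)
    have h6 : (k : ℝ) * e ≤ 5 * r * (r * r) := by
      apply mul_le_mul hk5 (by linarith) he0 (by linarith)
    have h7 : (k : ℝ) * k ≤ 5 * r * (5 * r) := mul_le_mul hk5 hk5 (by linarith) (by linarith)
    nlinarith
  · obtain ⟨E, hE⟩ := hne
    have hE0 : 0 ≤ E := by
      obtain ⟨G, _, -, -, rfl⟩ := hE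
      exact lapEnergy_nonneg G
    refine key 0 (hE0.trans (hM E hE)) ?_
    have hknR : (n : ℝ) ≤ 10 * r := by
      have : (n : ℝ) ≤ 2 * k := by exact_mod_cast (by omega : n ≤ 2 * k)
      linarith
    rw [hr3, sub_zero]
    have h4 : 4 * ((n : ℝ) + e) - 2 * n ≤ 4 * (r * r) + 20 * r := by linarith
    have h5 : (4 * ((n : ℝ) + e) - 2 * n) * n ≤ (4 * (r * r) + 20 * r) * (10 * r) :=
      mul_le_mul h4 hknR (by linarith) (by nlinarith)
    nlinarith

end Pool.Agent.T2H88.LE
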