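import Pool.Agent.T2H88.LE.Sharp3

/-!
# The asymptotics of the second term
-/

set_option autoImplicit false

namespace Pool.Agent.T2H88.LE

open Finset Matrix Pool.Agent.Helper554.LE

theorem energy_upper {n m : ℕ} (hn : 250 ≤ n) (hnm : n ≤ m) {θ r μ E : ℝ} (hθ0 : 0 < θ)
    (hθ1 : θ < 1) (hr0 : 0 ≤ r) (hr : r * r = (m : ℝ) - n) (hμ1 : μ ≤ 1 / 1000)
    (hμ2 : μ ≤ (1 - θ) * θ / 2) (hE : E ∈ Energies n m)
    (h : (1 - θ) * (4 * Real.sqrt 2 * (r * r * r)) ≤ n * μ) :
    E ≤ 4 * m - 2 * n - (1 - θ) * (8 * Real.sqrt 2 * (r * r * r)) / n := by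
  obtain ⟨G, _, hc, hm, rfl⟩ := hE
  obtain ⟨T, -, -, h3⟩ := top_set (by omega) G
  have hnR : (250 : ℝ) ≤ n := by exact_mod_cast hn
  have hn0 : (0 : ℝ) < n := by linarith
  have hmR : (m : ℝ) = n + r * r := by linarith
  rw [hm] at h3
  obtain ⟨S, hS⟩ : ∃ S, S = ∑ a ∈ T, (G.isHermitian_lapMatrix ℝ).eigenvalues a := ⟨_, rfl⟩
  obtain ⟨t, ht⟩ : ∃ t : ℝ, t = T.card := ⟨_, rfl⟩
  obtain ⟨L, hL⟩ : ∃ L : ℝ, L = 2 * (m : ℝ) - n + 2 * T.card - S := ⟨_, rfl⟩
  obtain ⟨b, hb⟩ : ∃ b : ℝ, b = 2 * (r * r) / n := ⟨_, rfl⟩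
  have hb0 : 0 ≤ b := by rw [hb]; positivity
  have hc' : 2 * (m : ℝ) / n = 2 + b := by rw [hb, hmR]; field_simp
  have ht0 : 0 ≤ t := by rw [ht]; exact Nat.cast_nonneg _
  rw [h3, ← hS, ← ht, hc']
  rw [← ht] at hL
  obtain ⟨Z, hZ⟩ : ∃ Z, Z = (1 - θ) * (4 * Real.sqrt 2 * (r * r * r)) / n := ⟨_, rfl⟩
  have hZ2 : (1 - θ) * (8 * Real.sqrt 2 * (r * r * r)) / n = 2 * Z := by rw [hZ]; ring
  rw [hZ2]
  suffices hh : Z ≤ b * t + L by linarith
  by_cases hcase : L ≤ 1 / 1000 ∧ L < (1 - θ) * θ / 2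
  · have hL' : L = 2 * (m : ℝ) - n + 2 * T.card -
        ∑ a ∈ T, (G.isHermitian_lapMatrix ℝ).eigenvalues a := by rw [hL, ht, hS]
    obtain ⟨h4, h5⟩ := sharp_loss hn G hc hm hnm T hL' hθ0 hθ1 hcase.1 hcase.2
    rw [← ht] at h5
    have ht2 : (2 : ℝ) ≤ t := by rw [ht]; exact_mod_cast h4
    have e1 : (m : ℝ) - n + t = r * r + t := by linarith
    rw [e1] at h5
    have e2 : (1 - θ) * (4 * (r * r) ^ 2) / (t * n) ≤ L := by
      refine le_trans ?_ h5
      have hp1 : 0 < (t - 1) * (n : ℝ) := mul_pos (by linarith) hn0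
      have hp2 : 0 < t * (n : ℝ) := mul_pos (by linarith) hn0
      have q1 : (1 - θ) * (4 * (r * r) ^ 2) / (t * n) ≤
          (1 - θ) * (2 * (r * r + t)) ^ 2 / (t * n) := by
        apply div_le_div_of_nonneg_right _ hp2.le
        apply mul_le_mul_of_nonneg_left _ (by linarith)
        have : 0 ≤ r * r := mul_self_nonneg r
        nlinarith
      refine q1.trans ?_
      apply div_le_div_of_nonneg_left _ hp1
      · nlinarith
      · exact mul_nonneg (by linarith) (sq_nonneg _)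
    have e3 : (1 - θ) * (2 * (r * r) * t / n) ≤ b * t := by
      have : b * t = 2 * (r * r) * t / n := by rw [hb]; ring
      rw [this]
      have h6 : 0 ≤ 2 * (r * r) * t / n := by positivity
      nlinarith
    have e4 : Z ≤ (1 - θ) * (2 * (r * r) * t / n) + (1 - θ) * (4 * (r * r) ^ 2) / (t * n) := by
      have h7 : (1 - θ) * (2 * (r * r) * t / n) + (1 - θ) * (4 * (r * r) ^ 2) / (t * n) - Z =
          (1 - θ) * (2 * (r * r) / (t * n) * (t - Real.sqrt 2 * r) ^ 2) := by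
        have hs2 : Real.sqrt 2 ^ 2 = 2 := Real.sq_sqrt (by norm_num)
        have h8 : (t - Real.sqrt 2 * r) ^ 2 = t ^ 2 - 2 * Real.sqrt 2 * (r * t) + 2 * r ^ 2 := by
          have : (t - Real.sqrt 2 * r) ^ 2 =
            t ^ 2 - 2 * Real.sqrt 2 * (r * t) + Real.sqrt 2 ^ 2 * r ^ 2 := by ring
          rw [this, hs2]
        rw [h8, hZ]
        have ht' : t ≠ 0 := by linarith
        field_simp
        ring
      have h9 : 0 ≤ (1 - θ) * (2 * (r * r) / (t * n) * (t - Real.sqrt 2 * r) ^ 2) :=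
        mul_nonneg (by linarith) (by positivity)
      linarith
    linarith
  · have hμL : μ ≤ L := by
      by_contra hcon
      rw [not_le] at hcon
      exact hcase ⟨by linarith, by linarith⟩
    have h6 : Z ≤ μ := by
      rw [hZ, div_le_iff₀ hn0]; linarith
    have h7 : 0 ≤ b * t := mul_nonneg hb0 ht0
    linarith

theorem asym_main {ε : ℝ} (hε : 0 < ε) : ∃ δ : ℝ, 0 < δ ∧ ∃ N : ℕ, ∀ n m : ℕ, n + N ≤ m →
    ((m : ℝ) - n) ^ 3 ≤ δ * n ^ 2 → ∃ M : ℝ, IsGreatest (Energies n m) M ∧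
      |M - (4 * m - 2 * n - 8 * Real.sqrt 2 * ((m - n) * Real.sqrt (m - n)) / n)| ≤
        ε * ((m - n) * Real.sqrt (m - n)) / n := by
  obtain ⟨θ, hθ⟩ : ∃ θ : ℝ, θ = min (1 / 2) (ε / 12) := ⟨_, rfl⟩
  obtain ⟨η, hη⟩ : ∃ η : ℝ, η = min (1 / 2) (ε / 50) := ⟨_, rfl⟩
  have hθ0 : 0 < θ := by rw [hθ]; exact lt_min (by norm_num) (by positivity)
  have hθ1 : θ ≤ 1 / 2 := by rw [hθ]; exact min_le_left _ _
  have hθ2 : θ ≤ ε / 12 := by rw [hθ]; exact min_le_right _ _
  have hη0 : 0 < η := by rw [hη]; exact lt_min (by norm_num) (by positivity)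
  have hη1 : η ≤ 1 / 2 := by rw [hη]; exact min_le_left _ _
  have hη2 : η ≤ ε / 50 := by rw [hη]; exact min_le_right _ _
  obtain ⟨d, hd⟩ : ∃ d : ℝ, d = min (1 / 6000) (min (θ / 24) (η / 2)) := ⟨_, rfl⟩
  have hd0 : 0 < d := by
    rw [hd]; exact lt_min (by norm_num) (lt_min (by positivity) (by positivity))
  have hd1 : d ≤ 1 / 6000 := by rw [hd]; exact min_le_left _ _
  have hd2 : d ≤ θ / 24 := by rw [hd]; exact (min_le_right _ _).trans (min_le_left _ _)
  have hd3 : d ≤ η / 2 := by rw [hd]; exact (min_le_right _ _).trans (min_le_right _ _)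
  obtain ⟨N, hN⟩ := exists_nat_ge (25 / η ^ 2 + 1)
  refine ⟨d ^ 2, by positivity, N, fun n m hnm hcube => ?_⟩
  have hs2 : Real.sqrt 2 * Real.sqrt 2 = 2 := Real.mul_self_sqrt (by norm_num)
  have hs0 : 0 ≤ Real.sqrt 2 := Real.sqrt_nonneg _
  have hs3 : Real.sqrt 2 ≤ 3 / 2 := by nlinarith
  have hs4 : 1 ≤ Real.sqrt 2 := by nlinarith
  obtain ⟨w, hw⟩ : ∃ w : ℝ, w = Real.sqrt 2 := ⟨_, rfl⟩
  have hnm' : n ≤ m := by omega
  have hmn : (n : ℝ) + N ≤ m := by exact_mod_cast hnm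
  obtain ⟨r, hrd⟩ : ∃ r : ℝ, r = Real.sqrt (m - n) := ⟨_, rfl⟩
  have hNpos : (1 : ℝ) ≤ N := by
    have : 0 < 25 / η ^ 2 := by positivity
    linarith
  have hrr : r * r = (m : ℝ) - n := by
    rw [hrd]; exact Real.mul_self_sqrt (by linarith)
  have hr0 : 0 ≤ r := by rw [hrd]; exact Real.sqrt_nonneg _
  have hr1 : 1 ≤ r := by nlinarith
  have hr5 : 5 / η ≤ r := by
    have h1 : (5 / η) ^ 2 ≤ r ^ 2 := by
      rw [div_pow]
      have : r ^ 2 = (m : ℝ) - n := by rw [← hrr]; ring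
      rw [this]
      norm_num
      linarith
    exact abs_le_of_sq_le_sq' h1 hr0 |>.2
  have hr5' : 5 ≤ η * r := by
    rw [div_le_iff₀ hη0] at hr5
    linarith
  have hr3 : r * r * r ≤ d * n := by
    have h1 : (r * r * r) ^ 2 ≤ (d * n) ^ 2 := by
      have e1 : (r * r * r) ^ 2 = ((m : ℝ) - n) ^ 3 := by rw [← hrr]; ring
      rw [e1, mul_pow]; exact hcube
    exact abs_le_of_sq_le_sq' h1 (by positivity) |>.2
  have hr13 : r ≤ r * r * r := by
    have : 1 ≤ r * r := by nlinarith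
    nlinarith
  have hnbig : (6000 : ℝ) ≤ n := by
    have h1 : 1 ≤ r * r * r := by linarith
    have h2 : d * n ≤ 1 / 6000 * n := mul_le_mul_of_nonneg_right hd1 (by positivity)
    linarith
  have hn250 : 250 ≤ n := by
    have : (250 : ℝ) ≤ n := by linarith
    exact_mod_cast this
  have hn0 : (0 : ℝ) < n := by linarith
  have hN1 : 1 ≤ N := by exact_mod_cast hNpos
  -- the least k
  obtain ⟨k, hk3, hk1, hk2⟩ := exists_min (m - n + 1) (by omega)
  have hkR : (3 : ℝ) ≤ k := by exact_mod_cast hk3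
  have hk2R : ((k : ℝ) - 2) * (k - 3) ≤ 2 * (r * r + 1) := by
    have : (((k - 2) * (k - 3) : ℕ) : ℝ) ≤ ((2 * (m - n + 1) : ℕ) : ℝ) := by
      exact_mod_cast hk2.le
    push_cast [Nat.cast_sub hnm', Nat.cast_sub hk3, Nat.cast_sub (by omega : 2 ≤ k)] at this
    rw [hrr]; exact this
  have hkr : (k : ℝ) ≤ w * r + 5 := by
    by_contra hcon
    rw [not_le] at hcon
    have h1 : (w * r + 2) * (w * r + 2) ≤ (k - 3) * (k - 3) := by
      apply mul_self_le_mul_self
      · rw [hw]; positivity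
      · linarith
    have h2 : (k - 3 : ℝ) * (k - 3) ≤ (k - 2) * (k - 3) :=
      mul_le_mul_of_nonneg_right (by linarith) (by linarith)
    have h3 : (w * r + 2) * (w * r + 2) = w * w * (r * r) + 4 * (w * r) + 4 := by ring
    rw [hw, hs2] at h3
    rw [hw] at h1
    have h4 : 0 ≤ Real.sqrt 2 * r := by positivity
    linarith
  obtain ⟨K, hK⟩ : ∃ K : ℝ, K = w + η := ⟨_, rfl⟩
  have hK2 : K ≤ 2 := by rw [hK, hw]; linarith
  have hK0 : 0 ≤ K := by rw [hK, hw]; linarith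
  have hkK : (k : ℝ) ≤ K * r := by
    rw [hK]
    have : (w + η) * r = w * r + η * r := by ring
    linarith
  have hkη : (k : ℝ) ≤ η * n := by
    have h1 : K * r ≤ 2 * r := mul_le_mul_of_nonneg_right hK2 hr0
    have h2 : d * n ≤ η / 2 * n := mul_le_mul_of_nonneg_right hd3 hn0.le
    linarith
  have hkn : 2 * k ≤ n := by
    have h1 : η * n ≤ 1 / 2 * n := mul_le_mul_of_nonneg_right hη1 hn0.le
    have : 2 * (k : ℝ) ≤ n := by linarith
    exact_mod_cast this
  have hne : (Energies n m).Nonempty := by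
    obtain ⟨E, hE, -⟩ := multi_lower (n := n) (k := k) (m := m) (by omega) hkn (by omega) (by
      have : m - (n - 1) = m - n + 1 := by omega
      rw [this]; exact hk1)
    exact ⟨E, hE⟩
  obtain ⟨M, hM, hmax⟩ := Set.exists_max_image (Energies n m) id (energies_finite n m) hne
  simp only [id] at hmax
  refine ⟨M, ⟨hM, fun e he => hmax e he⟩, ?_⟩
  rw [← hrd]
  have hc3 : ((m : ℝ) - n) * r = r * r * r := by rw [← hrr]
  rw [hc3]
  have hup : M ≤ 4 * m - 2 * n - (1 - θ) * (8 * Real.sqrt 2 * (r * r * r)) / n := by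
    refine energy_upper hn250 hnm' hθ0 (by linarith) hr0 hrr (μ := min (1 / 1000) (θ / 4))
      (min_le_left _ _) ((min_le_right _ _).trans (by nlinarith)) hM ?_
    have h1 : (1 - θ) * (4 * Real.sqrt 2 * (r * r * r)) ≤ 6 * (d * n) := by
      have e1 : 0 ≤ r * r * r := by linarith
      have e2 : 4 * Real.sqrt 2 * (r * r * r) ≤ 6 * (r * r * r) :=
        mul_le_mul_of_nonneg_right (by linarith) e1
      have e3 : (1 - θ) * (4 * Real.sqrt 2 * (r * r * r)) ≤ 1 * (4 * Real.sqrt 2 * (r * r * r)) :=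
        mul_le_mul_of_nonneg_right (by linarith) (by positivity)
      linarith
    refine h1.trans ?_
    have h2 : 6 * d ≤ min (1 / 1000) (θ / 4) := le_min (by linarith) (by linarith)
    have h3 := mul_le_mul_of_nonneg_right h2 hn0.le
    linarith
  have hlow := (multi_both (by omega) hkn hnm' hk1 (fun e he => hmax e he)).1
  have hq : 2 ≤ n / k := (Nat.le_div_iff_mul_le (by omega)).2 hkn
  have hq2 : n < k * (n / k + 1) := by
    have := Nat.lt_mul_div_succ n (show 0 < k by omega)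
    simpa using this
  obtain ⟨q, hqd⟩ : ∃ q : ℕ, q = n / k := ⟨_, rfl⟩
  rw [← hqd] at hq hq2 hlow
  have hqR : (2 : ℝ) ≤ q := by exact_mod_cast hq
  have hq2R : (n : ℝ) ≤ k * (q + 1) := by exact_mod_cast hq2.le
  have hq3 : (n : ℝ) ≤ (1 + 2 * η) * (k * q) := by
    have h1 : n * (1 - η) ≤ k * q := by linarith
    have h2 : (1 + 2 * η) * (n * (1 - η)) ≤ (1 + 2 * η) * (k * q) :=
      mul_le_mul_of_nonneg_left h1 (by linarith)
    have h3 : (n : ℝ) ≤ (1 + 2 * η) * (n * (1 - η)) := by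
      have : (1 + 2 * η) * (n * (1 - η)) - n = n * (η * (1 - 2 * η)) := by ring
      have h4 : 0 ≤ n * (η * (1 - 2 * η)) :=
        mul_nonneg hn0.le (mul_nonneg hη0.le (by linarith))
      linarith
    linarith
  rw [← hrr] at hlow
  have hl2 : 4 * (r * r + k) / (q : ℝ) ≤ 4 * (r * r + k) * (k * (1 + 2 * η)) / n := by
    rw [div_le_div_iff₀ (by linarith) hn0]
    have h1 : 0 ≤ 4 * (r * r + k) := by positivity
    have h2 := mul_le_mul_of_nonneg_left hq3 h1
    linarith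
  have hfin : 4 * k * (r * r) + 4 * (r * r + k) * (k * (1 + 2 * η)) ≤
      (8 * w + ε) * (r * r * r) := by
    have a1 : 4 * (k : ℝ) * (r * r) ≤ 4 * (K * r) * (r * r) :=
      mul_le_mul_of_nonneg_right (by linarith) (mul_self_nonneg r)
    have a2 : 4 * (r * r + k) * (k * (1 + 2 * η)) ≤
        4 * (r * r + K * r) * (K * r * (1 + 2 * η)) := by
      apply mul_le_mul
      · linarith
      · exact mul_le_mul_of_nonneg_right hkK (by linarith)
      · positivity
      · positivity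
    have a3 : 4 * (K * r) * (r * r) + 4 * (r * r + K * r) * (K * r * (1 + 2 * η)) =
        (4 * K + 4 * K * (1 + 2 * η)) * (r * r * r) + 4 * (K * K) * (1 + 2 * η) * (r * r) := by
      ring
    have a4 : 4 * (K * K) * (1 + 2 * η) ≤ 32 := by
      have h1 : K * K ≤ 4 := by nlinarith
      have h2 : (1 + 2 * η) ≤ 2 := by linarith
      have h3 : 4 * (K * K) * (1 + 2 * η) ≤ 4 * (K * K) * 2 :=
        mul_le_mul_of_nonneg_left h2 (by positivity)
      linarith
    have a5 : 5 * (r * r) ≤ η * (r * r * r) := by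
      have : η * (r * r * r) = (η * r) * (r * r) := by ring
      rw [this]
      exact mul_le_mul_of_nonneg_right hr5' (mul_self_nonneg r)
    have a6 : 4 * (K * K) * (1 + 2 * η) * (r * r) ≤ 32 * (r * r) :=
      mul_le_mul_of_nonneg_right a4 (mul_self_nonneg r)
    have a7 : 4 * K + 4 * K * (1 + 2 * η) ≤ 8 * w + 24 * η := by
      have : 4 * K + 4 * K * (1 + 2 * η) = 8 * w + 8 * η + 8 * (K * η) := by rw [hK]; ring
      rw [this]
      have : K * η ≤ 2 * η := mul_le_mul_of_nonneg_right hK2 hη0.le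
      linarith
    have a8 : (4 * K + 4 * K * (1 + 2 * η)) * (r * r * r) ≤ (8 * w + 24 * η) * (r * r * r) :=
      mul_le_mul_of_nonneg_right a7 (by positivity)
    have a9 : η * (r * r * r) ≤ ε / 50 * (r * r * r) :=
      mul_le_mul_of_nonneg_right hη2 (by positivity)
    have a10 : (8 * w + 24 * η) * (r * r * r) = 8 * w * (r * r * r) + 24 * (η * (r * r * r)) := by
      ring
    have a11 : (8 * w + ε) * (r * r * r) = 8 * w * (r * r * r) + ε * (r * r * r) := by ring
    have a12 : 0 ≤ ε * (r * r * r) := by positivity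
    linarith
  have hfin2 : 4 * k * (r * r) / n + 4 * (r * r + k) * (k * (1 + 2 * η)) / n ≤
      (8 * w + ε) * (r * r * r) / n := by
    rw [← add_div]
    exact div_le_div_of_nonneg_right hfin hn0.le
  rw [abs_le]
  constructor
  · have e1 : (8 * w + ε) * (r * r * r) / n =
        8 * Real.sqrt 2 * (r * r * r) / n + ε * (r * r * r) / n := by rw [hw]; ring
    rw [e1] at hfin2
    linarith
  · have e1 : (1 - θ) * (8 * Real.sqrt 2 * (r * r * r)) / n =
        8 * Real.sqrt 2 * (r * r * r) / n - θ * (8 * Real.sqrt 2) * (r * r * r) / n := by ring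
    rw [e1] at hup
    have e2 : θ * (8 * Real.sqrt 2) * (r * r * r) / n ≤ ε * (r * r * r) / n := by
      apply div_le_div_of_nonneg_right _ hn0.le
      apply mul_le_mul_of_nonneg_right _ (by positivity)
      nlinarith
    linarith

end Pool.Agent.T2H88.LE
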