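import Pool.Agent.T2H88.LE.Star
import Pool.Agent.T2H88.LE.Sparse

/-!
# The balanced multi-hub graph, second lower bound
-/

set_option autoImplicit false

namespace Pool.Agent.T2H88.LE

open Finset Matrix Pool.Agent.Helper554.LE

/-- **The balanced multi-hub graph, second form.** -/
theorem multi_lower2 {n k m : ℕ} (hk1 : 1 ≤ k) (hkn : 2 * k ≤ n) (hm : n - 1 ≤ m)
    (hf : 2 * (m - (n - 1)) ≤ (k - 1) * (k - 2)) :
    ∃ E ∈ Energies n m, 2 * (2 * (m : ℝ) - n + k +
      k * (((n / k : ℕ) : ℝ) - 1) / ((k : ℝ) - 1 + (((n / k : ℕ) : ℝ) - 1))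
      - 2 * m / n * k) ≤ E := by
  classical
  obtain ⟨F, hFc, hF⟩ := exists_F n (k - 1) (m - (n - 1)) (by omega) (by
    rw [show k - 1 - 1 = k - 2 from by omega]; exact hf)
  have hn : 0 < n := by omega
  set c : Fin n → Fin n := fun v => ⟨v.val % k, lt_of_lt_of_le (Nat.mod_lt _ hk1) (by omega)⟩
    with hcdef
  have hcv : ∀ v, (c v).val = v.val % k := fun v => rfl
  set p : Fin n → Fin n := fun v => if v.val < k then ⟨0, hn⟩ else c v with hpdef
  have hp0 : ∀ v : Fin n, v.val < k → p v = ⟨0, hn⟩ := fun v hv => by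
    rw [hpdef]; simp only [hv, if_true]
  have hp1 : ∀ v : Fin n, ¬ v.val < k → p v = c v := fun v hv => by
    rw [hpdef]; simp only [hv, if_false]
  have hp : ∀ v : Fin n, 0 < v.val → p v < v := fun v hv => by
    rw [Fin.lt_def]
    by_cases h : v.val < k
    · rw [hp0 v h]; exact hv
    · rw [hp1 v h, hcv]
      exact lt_of_lt_of_le (Nat.mod_lt _ hk1) (by omega)
  have hpk : ∀ v : Fin n, (p v).val < k := fun v => by
    by_cases h : v.val < k
    · rw [hp0 v h]; exact hk1
    · rw [hp1 v h, hcv]; exact Nat.mod_lt _ hk1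
  have hF' : ∀ e ∈ F, e.1 < e.2 := fun e he => (hF e he).2.1
  have hd : Disjoint (baseE p) F := by
    rw [Finset.disjoint_left]
    intro e he he'
    unfold baseE at he
    rw [Finset.mem_image] at he
    obtain ⟨v, hv, rfl⟩ := he
    obtain ⟨a1, a2, a3⟩ := hF _ he'
    simp only at a1 a2 a3
    have : v.val < k := by omega
    rw [hp0 v this] at a1
    simp at a1
  obtain ⟨hcon, he, -⟩ := gr_props hn hp hF' hd
  have hm' : (gr (baseE p ∪ F)).edgeFinset.card = m := by rw [he, hFc]; omega
  refine ⟨lapEnergy (gr (baseE p ∪ F)), ⟨_, inferInstance, hcon, hm', rfl⟩, ?_⟩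
  have hcc : ∀ v, c (c v) = c v := fun v => Fin.ext (by rw [hcv, hcv, Nat.mod_mod])
  have hhub : ∀ v, c v = v ↔ v.val < k := by
    intro v
    constructor
    · intro h
      have := congrArg Fin.val h
      rw [hcv] at this
      rw [← this]; exact Nat.mod_lt _ hk1
    · intro h
      exact Fin.ext (by rw [hcv, Nat.mod_eq_of_lt h])
  have hbase : ∀ u v : Fin n, (u, v) ∈ baseE p ↔ 0 < v.val ∧ u = p v := by
    intro u v
    unfold baseE
    rw [Finset.mem_image]
    constructor
    · rintro ⟨w, hw, h⟩
      rw [Prod.mk.injEq] at h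
      obtain ⟨h1, h2⟩ := h
      subst h2
      exact ⟨(Finset.mem_filter.1 hw).2, h1.symm⟩
    · rintro ⟨h1, h2⟩
      exact ⟨v, by simp [h1], by rw [h2]⟩
  have hpend : ∀ v u, c v ≠ v → ((gr (baseE p ∪ F)).Adj v u ↔ u = c v) := by
    intro v u hv
    have hvk : ¬ v.val < k := fun h => hv ((hhub v).2 h)
    constructor
    · rintro ⟨h1, h2 | h2⟩
      · exfalso
        rw [Finset.mem_union] at h2
        rcases h2 with h2 | h2
        · rw [hbase] at h2
          exact hvk (by rw [h2.2]; exact hpk u)
        · obtain ⟨a1, a2, a3⟩ := hF _ h2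
          simp only [Fin.lt_def] at a1 a2 a3
          omega
      · rw [Finset.mem_union] at h2
        rcases h2 with h2 | h2
        · rw [hbase] at h2
          rw [h2.2, hp1 v hvk]
        · exfalso
          obtain ⟨a1, a2, a3⟩ := hF _ h2
          simp only [Fin.lt_def] at a1 a2 a3
          omega
    · rintro rfl
      refine ⟨fun h => hv h.symm, Or.inr ?_⟩
      rw [Finset.mem_union, hbase]
      exact Or.inl ⟨by omega, (hp1 v hvk).symm⟩
  have hD : ∀ v, c v = v → 0 < (gr (baseE p ∪ F)).degree v := by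
    intro v _
    rw [SimpleGraph.degree_pos_iff_exists_adj]
    exact exists_nbr (by omega) hcon v
  have h1 := hub_lower hn hcc hpend hD
  have hcard : (Finset.univ.filter (fun h => c h = h)).card = k := by
    have e1 : (Finset.univ.filter (fun h => c h = h)) =
        insert ⟨0, hn⟩ (Finset.univ.filter (fun v : Fin n => 0 < v.val ∧ v.val ≤ k - 1)) := by
      ext v
      simp only [Finset.mem_filter, Finset.mem_univ, true_and, Finset.mem_insert, hhub,
        Fin.ext_iff]
      omega
    rw [e1, Finset.card_insert_of_notMem (by simp), card_Ioc n (k - 1) (by omega)]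
    omega
  have htau : ∀ h, c h = h → n / k ≤ tc c h := by
    intro h hh
    have h2 := ta_ge (n := n) (k := k) hk1 (i := h.val) ((hhub h).1 hh)
    have h3 : ta n k h.val = tc c h := by
      unfold ta tc
      congr 1
      ext v
      simp only [Finset.mem_filter, Finset.mem_univ, true_and, Fin.ext_iff, hcv]
    rwa [h3] at h2
  have hdeg : ∀ h, c h = h → (gr (baseE p ∪ F)).degree h + 2 ≤ k + tc c h := by
    intro h hh
    have h2 : insert h ((gr (baseE p ∪ F)).neighborFinset h) ⊆
        (Finset.univ.filter (fun h => c h = h)) ∪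
          (Finset.univ.filter (fun v => c v = h)).erase h := by
      intro v hv
      rw [Finset.mem_insert] at hv
      rw [Finset.mem_union, Finset.mem_filter, Finset.mem_erase, Finset.mem_filter]
      rcases hv with rfl | hv
      · exact Or.inl ⟨Finset.mem_univ _, hh⟩
      · rw [SimpleGraph.mem_neighborFinset] at hv
        by_cases h3 : c v = v
        · exact Or.inl ⟨Finset.mem_univ _, h3⟩
        · right
          have h4 := (hpend v h h3).1 hv.symm
          exact ⟨hv.ne', Finset.mem_univ _, h4.symm⟩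
    have h3 := Finset.card_le_card h2
    have h4 := Finset.card_union_le (Finset.univ.filter (fun h => c h = h))
      ((Finset.univ.filter (fun v => c v = h)).erase h)
    rw [Finset.card_insert_of_notMem (by
      rw [SimpleGraph.mem_neighborFinset]; exact (gr (baseE p ∪ F)).loopless.irrefl h),
      SimpleGraph.card_neighborFinset_eq_degree] at h3
    rw [hcard, Finset.card_erase_of_mem (by simp [hh])] at h4
    have h5 : (Finset.univ.filter (fun v => c v = h)).card = tc c h := rfl
    have h6 := tc_pos hh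
    omega
  have hq : 2 ≤ n / k := (Nat.le_div_iff_mul_le hk1).2 hkn
  set q : ℝ := ((n / k : ℕ) : ℝ) - 1 with hqdef
  have hq1 : 1 ≤ q := by
    have : (2 : ℝ) ≤ ((n / k : ℕ) : ℝ) := by exact_mod_cast hq
    rw [hqdef]; linarith
  have hkR : (1 : ℝ) ≤ k := by exact_mod_cast hk1
  have h2 : k * q / ((k : ℝ) - 1 + q) ≤
      ∑ h ∈ Finset.univ.filter (fun h => c h = h),
        ((tc c h : ℝ) - 1) / (gr (baseE p ∪ F)).degree h := by
    have h3 : ∀ h ∈ Finset.univ.filter (fun h => c h = h), q / ((k : ℝ) - 1 + q) ≤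
        ((tc c h : ℝ) - 1) / (gr (baseE p ∪ F)).degree h := by
      intro h hh
      have hh2 := (Finset.mem_filter.1 hh).2
      have e1 : q ≤ (tc c h : ℝ) - 1 := by
        have : ((n / k : ℕ) : ℝ) ≤ tc c h := by exact_mod_cast htau h hh2
        rw [hqdef]; linarith
      have e2 : ((gr (baseE p ∪ F)).degree h : ℝ) + 2 ≤ k + tc c h := by
        exact_mod_cast hdeg h hh2
      have e3 : (1 : ℝ) ≤ (gr (baseE p ∪ F)).degree h := by exact_mod_cast hD h hh2
      rw [div_le_div_iff₀ (by linarith) (by linarith)]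
      nlinarith
    calc k * q / ((k : ℝ) - 1 + q) = ∑ h ∈ Finset.univ.filter (fun h => c h = h),
          q / ((k : ℝ) - 1 + q) := by
          rw [Finset.sum_const, hcard, nsmul_eq_mul, mul_div_assoc]
      _ ≤ _ := Finset.sum_le_sum h3
  rw [hcard, hm'] at h1
  linarith

end Pool.Agent.T2H88.LE
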