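import Pool.Agent.Helper554.LE.All
import Pool.Agent.Helper237.Brouwer.Compl

/-!
# Graphs given by a list of edges, lower bounds of the Laplacian energy by trial projections
-/

set_option autoImplicit false

namespace Pool.Agent.T2H88.LE

open Finset Matrix Pool.Agent.Helper554.LE

/-- the graph with the edges `e.1 e.2`, `e ∈ E` -/
def gr {n : ℕ} (E : Finset (Fin n × Fin n)) : SimpleGraph (Fin n) where
  Adj i j := i ≠ j ∧ ((i, j) ∈ E ∨ (j, i) ∈ E)
  symm := ⟨fun _ _ h => ⟨h.1.symm, h.2.symm⟩⟩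
  loopless := ⟨fun _ h => h.1 rfl⟩

instance {n : ℕ} (E : Finset (Fin n × Fin n)) : DecidableRel (gr E).Adj := fun i j =>
  inferInstanceAs (Decidable (i ≠ j ∧ ((i, j) ∈ E ∨ (j, i) ∈ E)))

theorem sum_gr {n : ℕ} {E : Finset (Fin n × Fin n)} (hE : ∀ e ∈ E, e.1 < e.2)
    (ψ : Fin n → Fin n → ℝ) (hψ : ∀ i j, ψ i j = ψ j i) :
    ∑ i, ∑ j, (if (gr E).Adj i j then ψ i j else 0) = 2 * ∑ e ∈ E, ψ e.1 e.2 := by
  have h1 : ∀ i j, (if (gr E).Adj i j then ψ i j else 0) =
      (if (i, j) ∈ E then ψ i j else 0) + (if (j, i) ∈ E then ψ i j else 0) := by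
    intro i j
    by_cases c1 : (i, j) ∈ E
    · have hlt : i < j := hE _ c1
      have c2 : (j, i) ∉ E := fun h => lt_asymm hlt (hE _ h)
      have c3 : (gr E).Adj i j := ⟨hlt.ne, Or.inl c1⟩
      rw [if_pos c3, if_pos c1, if_neg c2, add_zero]
    · by_cases c2 : (j, i) ∈ E
      · have hlt : j < i := hE _ c2
        have c3 : (gr E).Adj i j := ⟨hlt.ne', Or.inr c2⟩
        rw [if_pos c3, if_neg c1, if_pos c2, zero_add]
      · have c3 : ¬ (gr E).Adj i j := fun h => h.2.elim c1 c2
        rw [if_neg c3, if_neg c1, if_neg c2, add_zero]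
  have h2 : ∀ χ : Fin n → Fin n → ℝ, ∑ i, ∑ j, (if (i, j) ∈ E then χ i j else 0) =
      ∑ e ∈ E, χ e.1 e.2 := by
    intro χ
    rw [← Finset.sum_product' (s := Finset.univ) (t := Finset.univ)
      (f := fun i j => if (i, j) ∈ E then χ i j else 0)]
    rw [Finset.univ_product_univ, Finset.sum_ite_mem, Finset.univ_inter]
  have h3 : ∑ i, ∑ j, (if (j, i) ∈ E then ψ i j else 0) = ∑ e ∈ E, ψ e.1 e.2 := by
    rw [Finset.sum_comm, ← h2 ψ]
    refine Finset.sum_congr rfl fun i _ => Finset.sum_congr rfl fun j _ => ?_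
    rw [hψ]
  calc _ = ∑ i, ∑ j, ((if (i, j) ∈ E then ψ i j else 0) + (if (j, i) ∈ E then ψ i j else 0)) :=
        Finset.sum_congr rfl fun i _ => Finset.sum_congr rfl fun j _ => h1 i j
    _ = ∑ e ∈ E, ψ e.1 e.2 + ∑ e ∈ E, ψ e.1 e.2 := by
        simp_rw [Finset.sum_add_distrib]
        rw [h2, h3]
    _ = _ := by ring

theorem edges_gr {n : ℕ} {E : Finset (Fin n × Fin n)} (hE : ∀ e ∈ E, e.1 < e.2) :
    (gr E).edgeFinset.card = E.card := by
  have h1 := sum_gr hE (fun _ _ => 1) (fun _ _ => rfl)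
  have h2 := Pool.Helper237.Brouwer.edges_eq (gr E)
  rw [h2] at h1
  simp only [Finset.sum_const, nsmul_eq_mul, mul_one] at h1
  have h3 : ((gr E).edgeFinset.card : ℝ) = E.card := by linarith
  exact_mod_cast h3

theorem trace_mul_lap {n : ℕ} (G : SimpleGraph (Fin n)) [DecidableRel G.Adj]
    (P : Matrix (Fin n) (Fin n) ℝ) (hP : Pᵀ = P) :
    2 * (P * G.lapMatrix ℝ).trace =
      ∑ i, ∑ j, (if G.Adj i j then (P i i + P j j - 2 * P i j) else 0) := by
  have hs : ∀ i j, P i j = P j i := by
    intro i j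
    conv_lhs => rw [← hP]
    rfl
  have h1 : (P * G.lapMatrix ℝ).trace = ∑ i, ∑ j, (if G.Adj i j then (P i i - P i j) else 0) := by
    rw [Matrix.trace]
    refine Finset.sum_congr rfl fun i _ => ?_
    rw [Matrix.diag_apply, Matrix.mul_apply]
    have h2 : ∀ j, P i j * G.lapMatrix ℝ j i =
        (if j = i then P i i * G.degree i else 0) - (if G.Adj i j then P i j else 0) := by
      intro j
      by_cases h : j = i
      · subst h
        simp [SimpleGraph.lapMatrix, SimpleGraph.degMatrix]
      · have e1 : G.lapMatrix ℝ j i = - if G.Adj j i then 1 else 0 := by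
          simp [SimpleGraph.lapMatrix, SimpleGraph.degMatrix, h, SimpleGraph.adjMatrix_apply]
        rw [e1, if_neg h]
        by_cases ha : G.Adj i j
        · rw [if_pos ha, if_pos ha.symm]; ring
        · rw [if_neg ha, if_neg fun h => ha h.symm]; ring
    rw [Finset.sum_congr rfl fun j _ => h2 j, Finset.sum_sub_distrib, Finset.sum_ite_eq',
      if_pos (Finset.mem_univ i), G.degree_eq_sum_if_adj, Finset.mul_sum, ← Finset.sum_sub_distrib]
    refine Finset.sum_congr rfl fun j _ => ?_
    split_ifs <;> ring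
  have h2 : (P * G.lapMatrix ℝ).trace = ∑ i, ∑ j, (if G.Adj i j then (P j j - P i j) else 0) := by
    rw [h1, Finset.sum_comm]
    refine Finset.sum_congr rfl fun i _ => Finset.sum_congr rfl fun j _ => ?_
    by_cases ha : G.Adj i j
    · rw [if_pos ha, if_pos ha.symm, hs j i]
    · rw [if_neg ha, if_neg fun h => ha h.symm]
  have h3 : 2 * (P * G.lapMatrix ℝ).trace =
      ∑ i, ∑ j, (if G.Adj i j then (P i i - P i j) else 0) +
      ∑ i, ∑ j, (if G.Adj i j then (P j j - P i j) else 0) := by
    rw [← h1, ← h2]; ring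
  rw [h3, ← Finset.sum_add_distrib]
  refine Finset.sum_congr rfl fun i _ => ?_
  rw [← Finset.sum_add_distrib]
  refine Finset.sum_congr rfl fun j _ => ?_
  split_ifs <;> ring

theorem energy_lb {n : ℕ} (hn : 0 < n) (G : SimpleGraph (Fin n)) [DecidableRel G.Adj]
    {P : Matrix (Fin n) (Fin n) ℝ} (hP : Pᵀ = P) (hPP : P * P = P) :
    2 * ((P * G.lapMatrix ℝ).trace - 2 * (G.edgeFinset.card : ℝ) / n * P.trace) ≤ lapEnergy G := by
  have hL : (G.lapMatrix ℝ).IsHermitian := SimpleGraph.isHermitian_lapMatrix (R := ℝ) _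
  have hnR : (n : ℝ) ≠ 0 := by positivity
  rw [lapEnergy_eq _ hL]
  have h := energy_lower hL hP hPP (2 * (G.edgeFinset.card : ℝ) / n)
  rw [trace_lap] at h
  have h2 : 2 * (G.edgeFinset.card : ℝ) / n * n = 2 * (G.edgeFinset.card : ℝ) := by
    field_simp
  rw [h2] at h
  linarith

/-- the edges `(p v, v)`, `v > 0` -/
def baseE {n : ℕ} (p : Fin n → Fin n) : Finset (Fin n × Fin n) :=
  (Finset.univ.filter (fun v : Fin n => 0 < v.val)).image (fun v => (p v, v))

section
variable {n : ℕ} {p : Fin n → Fin n}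

theorem inj_base : Function.Injective (fun v : Fin n => (p v, v)) := by
  intro a b h
  exact (Prod.ext_iff.1 h).2

theorem sum_base (ψ : Fin n → Fin n → ℝ) :
    ∑ e ∈ baseE p, ψ e.1 e.2 = ∑ v ∈ Finset.univ.filter (fun v : Fin n => 0 < v.val), ψ (p v) v := by
  unfold baseE
  exact Finset.sum_image (g := fun v : Fin n => (p v, v)) (f := fun e => ψ e.1 e.2)
    (fun a _ b _ h => inj_base h)

theorem card_pos_fin (n : ℕ) :
    (Finset.univ.filter (fun v : Fin n => 0 < v.val)).card = n - 1 := by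
  rcases n with _ | n
  · rfl
  · have h : (Finset.univ.filter (fun v : Fin (n + 1) => 0 < v.val)) = Finset.univ.erase 0 := by
      ext v
      simp only [Finset.mem_filter, Finset.mem_univ, true_and, Finset.mem_erase, and_true]
      rw [Fin.ne_iff_vne]
      simp [Nat.pos_iff_ne_zero]
    rw [h, Finset.card_erase_of_mem (Finset.mem_univ _)]
    simp

theorem card_base : (baseE p).card = n - 1 := by
  unfold baseE
  rw [Finset.card_image_of_injective _ inj_base, card_pos_fin]

/-- the graph with the edges `(p v, v)` and `F` -/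
theorem gr_props (hn : 0 < n) (hp : ∀ v : Fin n, 0 < v.val → (p v) < v) {F : Finset (Fin n × Fin n)}
    (hF : ∀ e ∈ F, e.1 < e.2) (hd : Disjoint (baseE p) F) :
    (gr (baseE p ∪ F)).Connected ∧ (gr (baseE p ∪ F)).edgeFinset.card = n - 1 + F.card ∧
    ∀ ψ : Fin n → Fin n → ℝ, (∀ i j, ψ i j = ψ j i) →
      ∑ i, ∑ j, (if (gr (baseE p ∪ F)).Adj i j then ψ i j else 0) =
        2 * (∑ v ∈ Finset.univ.filter (fun v : Fin n => 0 < v.val), ψ (p v) v +
          ∑ e ∈ F, ψ e.1 e.2) := by
  have hE : ∀ e ∈ baseE p ∪ F, e.1 < e.2 := by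
    intro e he
    rw [Finset.mem_union] at he
    rcases he with he | he
    · unfold baseE at he
      rw [Finset.mem_image] at he
      obtain ⟨v, hv, rfl⟩ := he
      rw [Finset.mem_filter] at hv
      exact hp v hv.2
    · exact hF e he
  refine ⟨?_, ?_, fun ψ hψ => ?_⟩
  · have : Nonempty (Fin n) := ⟨⟨0, hn⟩⟩
    have key : ∀ (N : ℕ) (v : Fin n), v.val = N →
        (gr (baseE p ∪ F)).Reachable ⟨0, hn⟩ v := by
      intro N
      induction N using Nat.strong_induction_on with
      | _ N ih =>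
        intro v hv
        by_cases h0 : 0 < v.val
        · have h1 := hp v h0
          have h2 := ih (p v).val (by rw [← hv]; exact h1) (p v) rfl
          refine h2.trans (SimpleGraph.Adj.reachable ⟨h1.ne, Or.inl ?_⟩)
          refine Finset.mem_union_left _ ?_
          unfold baseE
          exact Finset.mem_image_of_mem _ (by simp [h0])
        · have : (⟨0, hn⟩ : Fin n) = v := Fin.ext (by simp only; omega)
          rw [this]
    exact SimpleGraph.Connected.mk fun u v => (key _ u rfl).symm.trans (key _ v rfl)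
  · rw [edges_gr hE, Finset.card_union_of_disjoint hd, card_base]
  · rw [sum_gr hE ψ hψ, Finset.sum_union hd, sum_base]

end

/-- the pairs of vertices `1 ≤ u < v ≤ K` -/
def prs (n K : ℕ) : Finset (Fin n × Fin n) :=
  Finset.univ.filter fun e => 0 < e.1.val ∧ e.1 < e.2 ∧ e.2.val ≤ K

theorem card_Ioc (n K : ℕ) (hK : K < n) :
    (Finset.univ.filter (fun u : Fin n => 0 < u.val ∧ u.val ≤ K)).card = K := by
  have h : ((Finset.univ.filter (fun u : Fin n => 0 < u.val ∧ u.val ≤ K)).image Fin.val) =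
      Finset.Icc 1 K := by
    ext x
    simp only [Finset.mem_image, Finset.mem_filter, Finset.mem_univ, true_and, Finset.mem_Icc]
    constructor
    · rintro ⟨u, hu, rfl⟩
      omega
    · intro hx
      exact ⟨⟨x, by omega⟩, by simp only; omega, rfl⟩
  have h2 := Finset.card_image_of_injective
    (Finset.univ.filter (fun u : Fin n => 0 < u.val ∧ u.val ≤ K)) Fin.val_injective
  rw [h, Nat.card_Icc] at h2
  omega

theorem card_prs (n K : ℕ) (hK : K < n) : 2 * (prs n K).card = K * (K - 1) := by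
  induction K with
  | zero =>
    have : prs n 0 = ∅ := by
      unfold prs
      rw [Finset.filter_eq_empty_iff]
      rintro e _ ⟨h1, h2, h3⟩
      have : e.1.val < e.2.val := h2
      omega
    rw [this]; simp
  | succ K ih =>
    have h1 : prs n (K + 1) = prs n K ∪
        (Finset.univ.filter (fun u : Fin n => 0 < u.val ∧ u.val ≤ K)).image
          (fun u => (u, (⟨K + 1, hK⟩ : Fin n))) := by
      ext ⟨u, v⟩
      simp only [prs, Finset.mem_union, Finset.mem_filter, Finset.mem_univ, true_and,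
        Finset.mem_image, Prod.mk.injEq, Fin.lt_def]
      constructor
      · rintro ⟨h1, h2, h3⟩
        by_cases h4 : v.val ≤ K
        · left; exact ⟨h1, h2, h4⟩
        · right
          exact ⟨u, by omega, rfl, Fin.ext (by simp only; omega)⟩
      · rintro (⟨h1, h2, h3⟩ | ⟨w, h1, rfl, rfl⟩)
        · exact ⟨h1, h2, by omega⟩
        · simp only
          omega
    have hd : Disjoint (prs n K)
        ((Finset.univ.filter (fun u : Fin n => 0 < u.val ∧ u.val ≤ K)).image
          (fun u => (u, (⟨K + 1, hK⟩ : Fin n)))) := by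
      rw [Finset.disjoint_left]
      intro e he he'
      unfold prs at he
      rw [Finset.mem_filter] at he
      rw [Finset.mem_image] at he'
      obtain ⟨w, -, rfl⟩ := he'
      simp only at he
      omega
    rw [h1, Finset.card_union_of_disjoint hd, Finset.card_image_of_injective _ (fun a b h =>
      (Prod.ext_iff.1 h).1), card_Ioc n K (by omega), mul_add, ih (by omega)]
    rcases K with _ | K
    · rfl
    · simp only [Nat.add_sub_cancel]
      ring

theorem exists_F (n K t : ℕ) (hK : K < n) (ht : 2 * t ≤ K * (K - 1)) :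
    ∃ F : Finset (Fin n × Fin n), F.card = t ∧
      ∀ e ∈ F, 0 < e.1.val ∧ e.1 < e.2 ∧ e.2.val ≤ K := by
  have h := card_prs n K hK
  obtain ⟨F, hF, hc⟩ := Finset.exists_subset_card_eq (s := prs n K) (n := t) (by omega)
  refine ⟨F, hc, fun e he => ?_⟩
  have := hF he
  unfold prs at this
  rw [Finset.mem_filter] at this
  exact this.2

end Pool.Agent.T2H88.LE
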