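import Pool.Agent.T2H88.LE.Asym

/-!
# The loss, without smallness assumption
-/

set_option autoImplicit false

namespace Pool.Agent.T2H88.LE

open Finset Matrix Pool.Agent.Helper554.LE Pool.Helper237.Brouwer

section abs
variable {n : ℕ} {x : Fin n → Fin n → ℝ} {T : Finset (Fin n)} {p : Fin n → Fin n}

/-- the local inequality at a center -/
theorem local_ineq (hO : ∀ i j, ∑ a, x a i * x a j = if i = j then 1 else 0) {w : Fin n}
    (hw : p w = w) (N : Finset (Fin n)) (hN : ∀ v ∈ N, p v ≠ w)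
    (hB : tB x T p w ≤ 1 / 8) (hA : tq p w * tA x T p w ≤ 1 / 64) :
    (N.card : ℝ) ≤ 4 * tq p w * (∑ v ∈ N, tpsi x T w v + tB x T p w) := by
  have h0 := tq_pos hw
  obtain ⟨d, hd⟩ : ∃ d : ℝ, d = N.card := ⟨_, rfl⟩
  have hd0 : 0 ≤ d := by rw [hd]; exact Nat.cast_nonneg _
  obtain ⟨U, hU⟩ : ∃ U, U = ∑ a ∈ Tᶜ, (∑ v ∈ N, (x a w - x a v)) * ty x p a w := ⟨_, rfl⟩
  obtain ⟨V, hV⟩ : ∃ V, V = ∑ a ∈ T, x a w * ty x p a w := ⟨_, rfl⟩
  obtain ⟨Z, hZ⟩ : ∃ Z, Z = ∑ a ∈ T, (∑ v ∈ N, x a v) * ty x p a w := ⟨_, rfl⟩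
  obtain ⟨Gv, hGv⟩ : ∃ Gv, Gv = ∑ a ∈ T, tg x p a w * ty x p a w := ⟨_, rfl⟩
  have hsum : ∀ a, (∑ v ∈ N, (x a w - x a v)) * ty x p a w =
      d * (x a w * ty x p a w) - (∑ v ∈ N, x a v) * ty x p a w := by
    intro a
    rw [Finset.sum_sub_distrib, Finset.sum_const, nsmul_eq_mul, ← hd]; ring
  have hxy : ∑ a, x a w * ty x p a w = 1 := by rw [sum_x_ty hO, if_pos hw]
  have hXy : ∑ a, (∑ v ∈ N, x a v) * ty x p a w = 0 := by
    have h1 := bil hO N (cls p w)
    unfold ty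
    rw [h1]
    have : N ∩ cls p w = ∅ := by
      ext v; simp only [Finset.mem_inter, cls, Finset.mem_filter,
        Finset.mem_univ, true_and, Finset.notMem_empty, iff_false, not_and]
      exact fun h2 => hN v h2
    rw [this]; simp
  have h1 : U + d * V - Z = d := by
    rw [hU, split_T, Finset.sum_congr rfl fun a _ => hsum a, Finset.sum_congr rfl fun a _ => hsum a,
      Finset.sum_sub_distrib, Finset.sum_sub_distrib, ← Finset.mul_sum, ← Finset.mul_sum, hxy, hXy,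
      ← hV, ← hZ]
    ring
  have hτB : ∑ a ∈ T, (ty x p a w) ^ 2 = tq p w * tB x T p w := by
    unfold tB
    field_simp
  have hTy : ∑ a ∈ Tᶜ, (ty x p a w) ^ 2 ≤ tq p w := by
    rw [split_T, sum_ty_sq hO]
    have : 0 ≤ ∑ a ∈ T, (ty x p a w) ^ 2 := Finset.sum_nonneg fun a _ => sq_nonneg _
    linarith
  have hψ0 : 0 ≤ ∑ v ∈ N, tpsi x T w v := Finset.sum_nonneg fun v _ => tpsi_nonneg _ _
  have h2 : U ^ 2 ≤ d * (∑ v ∈ N, tpsi x T w v) * tq p w := by
    rw [hU]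
    refine (Finset.sum_mul_sq_le_sq_mul_sq _ _ _).trans ?_
    have e1 : ∑ a ∈ Tᶜ, (∑ v ∈ N, (x a w - x a v)) ^ 2 ≤ d * ∑ v ∈ N, tpsi x T w v := by
      have e2 : ∀ a ∈ Tᶜ, (∑ v ∈ N, (x a w - x a v)) ^ 2 ≤
          d * ∑ v ∈ N, (x a w - x a v) ^ 2 := by
        intro a _
        have := sq_sum_le_card_mul_sum_sq (s := N) (f := fun v => x a w - x a v)
        rw [← hd] at this
        exact this
      refine (Finset.sum_le_sum e2).trans (le_of_eq ?_)
      rw [← Finset.mul_sum, Finset.sum_comm]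
      rfl
    exact mul_le_mul e1 hTy (Finset.sum_nonneg fun a _ => sq_nonneg _) (mul_nonneg hd0 hψ0)
  have h3 : V = Gv + tB x T p w := by
    have e1 : ∀ a, x a w * ty x p a w = tg x p a w * ty x p a w + (ty x p a w) ^ 2 / tq p w := by
      intro a
      unfold tg
      field_simp
      ring
    rw [hV, Finset.sum_congr rfl fun a _ => e1 a, Finset.sum_add_distrib, ← hGv,
      ← Finset.sum_div]
    rfl
  have h4 : Gv ^ 2 ≤ tA x T p w * tq p w := by
    have e1 : ∑ a, tg x p a w * ty x p a w = 0 := by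
      have e2 : ∀ a, tg x p a w * ty x p a w = x a w * ty x p a w - (ty x p a w) ^ 2 / tq p w := by
        intro a
        unfold tg
        field_simp
      rw [Finset.sum_congr rfl fun a _ => e2 a, Finset.sum_sub_distrib, hxy, ← Finset.sum_div,
        sum_ty_sq hO]
      field_simp
      ring
    have e3 : Gv = - ∑ a ∈ Tᶜ, tg x p a w * ty x p a w := by
      rw [split_T, e1, hGv]; ring
    rw [e3, neg_sq]
    refine (Finset.sum_mul_sq_le_sq_mul_sq _ _ _).trans ?_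
    exact mul_le_mul (le_refl _) hTy (Finset.sum_nonneg fun a _ => sq_nonneg _) (tA_nonneg w)
  have h5 : Z ^ 2 ≤ d * (tq p w * tB x T p w) := by
    rw [hZ]
    refine (Finset.sum_mul_sq_le_sq_mul_sq _ _ _).trans ?_
    rw [hτB]
    refine mul_le_mul_of_nonneg_right ?_ (mul_nonneg h0.le (tB_nonneg w))
    have e1 := bil hO N N
    rw [Finset.inter_self, ← hd] at e1
    rw [← e1]
    refine le_trans (Finset.sum_le_sum_of_subset_of_nonneg (Finset.subset_univ T)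
      fun _ _ _ => sq_nonneg _) (le_of_eq ?_)
    exact Finset.sum_congr rfl fun a _ => by ring
  have hG8 : Gv ≤ 1 / 8 := by
    have : Gv ^ 2 ≤ (1 / 8) ^ 2 := by
      have e1 : tA x T p w * tq p w = tq p w * tA x T p w := mul_comm _ _
      rw [e1] at h4
      norm_num
      linarith
    exact abs_le_of_sq_le_sq' this (by norm_num) |>.2
  have hV4 : V ≤ 1 / 4 := by rw [h3]; linarith
  have h6 : 3 / 4 * d ≤ U - Z := by nlinarith
  have h7 : (3 / 4 * d) ^ 2 ≤ (U - Z) ^ 2 := by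
    have e0 : 0 ≤ 3 / 4 * d := by positivity
    nlinarith
  have h8 : (U - Z) ^ 2 ≤ 2 * U ^ 2 + 2 * Z ^ 2 := by nlinarith [sq_nonneg (U + Z)]
  rw [← hd]
  rcases eq_or_lt_of_le hd0 with h9 | h9
  · rw [← h9]
    exact mul_nonneg (by linarith) (add_nonneg hψ0 (tB_nonneg w))
  · have h10 : d * (9 / 16 * d) ≤
        d * (2 * tq p w * (∑ v ∈ N, tpsi x T w v + tB x T p w)) := by nlinarith
    have h11 := le_of_mul_le_mul_left h10 h9
    have h12 : 0 ≤ tq p w * (∑ v ∈ N, tpsi x T w v + tB x T p w) :=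
      mul_nonneg h0.le (add_nonneg hψ0 (tB_nonneg w))
    nlinarith

theorem tA_le (hO : ∀ i j, ∑ a, x a i * x a j = if i = j then 1 else 0) {w : Fin n}
    (hw : p w = w) : tA x T p w ≤ 1 - 1 / tq p w := by
  rw [← sum_tg_sq hO hw]
  exact Finset.sum_le_sum_of_subset_of_nonneg (Finset.subset_univ _) fun _ _ _ => sq_nonneg _

/-- the diagonal entry at a center -/
theorem ctr_diag (hO : ∀ i j, ∑ a, x a i * x a j = if i = j then 1 else 0) {w : Fin n}
    (hw : p w = w) : 1 - 2 * tA x T p w - 2 * (1 / tq p w) ≤ ∑ a ∈ T, (x a w) ^ 2 := by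
  have h0 := tq_pos hw
  have h1 : ∑ a, (x a w) ^ 2 = 1 := by
    have := hO w w
    rw [if_pos rfl] at this
    rw [← this]
    exact Finset.sum_congr rfl fun a _ => by ring
  have h2 := split_T (T := T) (fun a => (x a w) ^ 2)
  rw [h1] at h2
  have h3 : ∑ a ∈ Tᶜ, (x a w) ^ 2 ≤ ∑ a ∈ Tᶜ, (2 * (tg x p a w) ^ 2 +
      (2 / tq p w ^ 2) * (ty x p a w) ^ 2) := by
    refine Finset.sum_le_sum fun a _ => ?_
    have e1 : x a w = tg x p a w + ty x p a w / tq p w := by unfold tg; ring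
    have e2 : (2 / tq p w ^ 2) * (ty x p a w) ^ 2 = 2 * (ty x p a w / tq p w) ^ 2 := by
      rw [div_pow]; ring
    have e3 : (x a w) ^ 2 = (tg x p a w + ty x p a w / tq p w) ^ 2 := by rw [← e1]
    rw [e2, e3]
    nlinarith [sq_nonneg (tg x p a w - ty x p a w / tq p w)]
  rw [Finset.sum_add_distrib, ← Finset.mul_sum, ← Finset.mul_sum] at h3
  have h4 : ∑ a ∈ Tᶜ, (ty x p a w) ^ 2 ≤ tq p w := by
    rw [split_T, sum_ty_sq hO]
    have : 0 ≤ ∑ a ∈ T, (ty x p a w) ^ 2 := Finset.sum_nonneg fun a _ => sq_nonneg _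
    linarith
  have h5 : (2 / tq p w ^ 2) * ∑ a ∈ Tᶜ, (ty x p a w) ^ 2 ≤ (2 / tq p w ^ 2) * tq p w :=
    mul_le_mul_of_nonneg_left h4 (by positivity)
  have h6 : (2 / tq p w ^ 2) * tq p w = 2 * (1 / tq p w) := by field_simp
  have h7 : tA x T p w = ∑ a ∈ Tᶜ, (tg x p a w) ^ 2 := rfl
  rw [← h7] at h3
  linarith

end abs

end Pool.Agent.T2H88.LE
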