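import Pool.Agent.T2H88.LE.Ext1

/-!
# The loss, without smallness assumption
-/

set_option autoImplicit false

namespace Pool.Agent.T2H88.LE

open Finset Matrix Pool.Agent.Helper554.LE Pool.Helper237.Brouwer

theorem ext_loss {n m : ℕ} (hn : 2 ≤ n) (G : SimpleGraph (Fin n)) [DecidableRel G.Adj]
    (hc : G.Connected) (hm : G.edgeFinset.card = m) (T : Finset (Fin n)) {L : ℝ}
    (hL : L = 2 * (m : ℝ) - n + 2 * T.card -
      ∑ a ∈ T, (G.isHermitian_lapMatrix ℝ).eigenvalues a)
    {θ : ℝ} (hθ0 : 0 < θ) (hθ1 : θ ≤ 1) :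
    0 ≤ L ∧ ∃ s β : ℝ, 1 ≤ s ∧ s ≤ T.card + 17 * L + 2 ∧ 0 ≤ β ∧ β ≤ 6000 / θ * (L + 1) ∧
      (0 ≤ 2 * ((m : ℝ) - n + s) - 4 * L - 2 * β * (β + s) →
        (1 - θ) * (2 * ((m : ℝ) - n + s) - 4 * L - 2 * β * (β + s)) ^ 2 / (s * n) ≤ L) := by
  classical
  obtain ⟨p, hp, ha, hl0⟩ := star_partition G (fun v => exists_nbr hn hc v)
  have hl : ∀ w, p w = w → ∃ l, p l = w ∧ l ≠ w := fun w hw => by
    obtain ⟨v, h1, h2⟩ := hl0 w hw
    exact ⟨v, h2, h1⟩
  have O := xx_orth G
  have hloss := loss_eq G hp ha T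
  rw [hm, ← hL] at hloss
  obtain ⟨x, hx⟩ : ∃ x, x = xx G := ⟨_, rfl⟩
  have N : ∀ a, ∑ i, (x a i) ^ 2 = 1 := by rw [hx]; exact xx_norm G
  rw [← hx] at O hloss
  have hnR : (2 : ℝ) ≤ n := by exact_mod_cast hn
  have hcard2 : ∀ w, p w = w → 2 ≤ (cls p w).card := by
    intro w hw
    obtain ⟨l, hl1, hl2⟩ := hl w hw
    have h1 : 1 ≤ ((cls p w).erase w).card := Finset.card_pos.2 ⟨l, by
      rw [Finset.mem_erase]; exact ⟨hl2, by unfold cls; simp [hl1]⟩⟩
    rw [Finset.card_erase_of_mem (mem_cls_self hw)] at h1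
    omega
  have htwo : ∀ w, p w = w → (2 : ℝ) ≤ tq p w := by
    intro w hw
    unfold tq; exact_mod_cast hcard2 w hw
  have htwo3 : ∀ w, p w = w → tq p w = 2 ∨ (3 : ℝ) ≤ tq p w := by
    intro w hw
    have h1 := hcard2 w hw
    unfold tq
    rcases Nat.lt_or_ge (cls p w).card 3 with h | h
    · left
      have : (cls p w).card = 2 := by omega
      rw [this]; norm_num
    · right; exact_mod_cast h
  have hctr : ∀ w ∈ ctr p, p w = w := fun w hw => (Finset.mem_filter.1 hw).2
  have hctr' : ∀ w, p w = w → w ∈ ctr p := fun w hw => by unfold ctr; simp [hw]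
  -- abbreviations
  obtain ⟨al, hal⟩ : ∃ al : Fin n → ℝ, al = fun w => (tq p w / (tq p w - 1)) * tA x T p w :=
    ⟨_, rfl⟩
  have halw : ∀ w, (tq p w / (tq p w - 1)) * tA x T p w = al w := fun w => by rw [hal]
  obtain ⟨Row, hRow⟩ : ∃ Row : Fin n → ℝ, Row = fun i =>
    ∑ j, (if (hh G p).Adj i j then tpsi x T i j else 0) := ⟨_, rfl⟩
  obtain ⟨SA1, hSA1⟩ : ∃ S, S = ∑ w ∈ ctr p, al w := ⟨_, rfl⟩
  obtain ⟨SA2, hSA2⟩ : ∃ S, S = ∑ w ∈ ctr p, (tq p w - 2) * al w := ⟨_, rfl⟩
  obtain ⟨SB, hSB⟩ : ∃ S, S = ∑ w ∈ ctr p, tB x T p w := ⟨_, rfl⟩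
  obtain ⟨SP, hSP⟩ : ∃ S, S = ∑ i, ∑ j, (if (hh G p).Adj i j then tpsi x T i j else 0) :=
    ⟨_, rfl⟩
  obtain ⟨SI, hSI⟩ : ∃ S, S = ∑ w ∈ ctr p, 1 / tq p w := ⟨_, rfl⟩
  have hal0 : ∀ w, p w = w → 0 ≤ al w := fun w hw => by
    have h2 := htwo w hw
    rw [← halw]
    exact mul_nonneg (div_nonneg (by linarith) (by linarith)) (tA_nonneg w)
  have hAal : ∀ w, p w = w → tA x T p w ≤ al w := fun w hw => by
    have h2 := htwo w hw
    rw [← halw]
    have h3 : 1 ≤ tq p w / (tq p w - 1) := by rw [le_div_iff₀ (by linarith)]; linarith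
    have h4 := tA_nonneg (x := x) (T := T) (p := p) w
    nlinarith
  have hal1 : ∀ w, p w = w → al w ≤ 1 := fun w hw => by
    have h2 := htwo w hw
    rw [← halw]
    have h3 := tA_le (T := T) O hw
    have h4 : (tq p w / (tq p w - 1)) * tA x T p w ≤
        (tq p w / (tq p w - 1)) * (1 - 1 / tq p w) :=
      mul_le_mul_of_nonneg_left h3 (div_nonneg (by linarith) (by linarith))
    refine h4.trans (le_of_eq ?_)
    have h5 : tq p w - 1 ≠ 0 := by linarith
    have h6 : tq p w ≠ 0 := by linarith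
    field_simp
  have hSA1n : 0 ≤ SA1 := by rw [hSA1]; exact Finset.sum_nonneg fun w hw => hal0 w (hctr w hw)
  have hSA2n : 0 ≤ SA2 := by
    rw [hSA2]
    exact Finset.sum_nonneg fun w hw =>
      mul_nonneg (by linarith [htwo w (hctr w hw)]) (hal0 w (hctr w hw))
  have hSBn : 0 ≤ SB := by rw [hSB]; exact Finset.sum_nonneg fun w _ => tB_nonneg w
  have hSIn : 0 ≤ SI := by
    rw [hSI]
    exact Finset.sum_nonneg fun w hw => div_nonneg (by norm_num) (by linarith [htwo w (hctr w hw)])
  have hpn : ∀ i j, 0 ≤ (if (hh G p).Adj i j then tpsi x T i j else 0) := fun i j => by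
    split_ifs
    · exact tpsi_nonneg i j
    · exact le_refl _
  have hRown : ∀ i, 0 ≤ Row i := fun i => by
    rw [hRow]; exact Finset.sum_nonneg fun j _ => hpn i j
  have hSPR : SP = ∑ i, Row i := by rw [hSP, hRow]
  have hSPn : 0 ≤ SP := by rw [hSPR]; exact Finset.sum_nonneg fun i _ => hRown i
  have hRowe : ∀ i j, (hh G p).Adj i j → tpsi x T i j ≤ Row i := by
    intro i j hij
    rw [hRow]
    have := Finset.single_le_sum (f := fun j => (if (hh G p).Adj i j then tpsi x T i j else 0))
      (fun j _ => hpn i j) (Finset.mem_univ j)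
    simp only [if_pos hij] at this
    exact this
  have hsplit : ∑ w ∈ ctr p, (tq p w * tA x T p w + tB x T p w) = SA1 + SA2 + SB := by
    rw [hSA1, hSA2, hSB, ← Finset.sum_add_distrib, ← Finset.sum_add_distrib]
    refine Finset.sum_congr rfl fun w hw => ?_
    have h2 := htwo w (hctr w hw)
    have h3 : tq p w - 1 ≠ 0 := by linarith
    rw [← halw]
    field_simp
    ring
  rw [hsplit, ← hSP] at hloss
  have hb := fun (w0 l0 : Fin n) (h1 : p w0 = w0) (h2 : p l0 = w0) (h3 : l0 ≠ w0) =>
    bess (T := T) O N hp hl h1 h2 h3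
  simp only [halw] at hb
  rw [← hSA1, ← hSB] at hb
  obtain ⟨t, ht⟩ : ∃ t : ℝ, t = T.card := ⟨_, rfl⟩
  obtain ⟨s, hs⟩ : ∃ s : ℝ, s = (ctr p).card := ⟨_, rfl⟩
  rw [← ht, ← hs] at hloss hb
  have hn0 : 0 < n := by omega
  have hne : (ctr p).Nonempty := ⟨p ⟨0, hn0⟩, by unfold ctr; simp [hp]⟩
  have hb0 : s - SA1 + SB ≤ t := by
    obtain ⟨w, hw⟩ := hne
    obtain ⟨l, hl1, hl2⟩ := hl w (hctr w hw)
    have h1 := hb w l (hctr w hw) hl1 hl2
    have h2 : 0 ≤ ∑ a ∈ T, (x a l - (ty x p a w - x a w) / (tq p w - 1)) ^ 2 :=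
      Finset.sum_nonneg fun a _ => sq_nonneg _
    linarith
  have hstar : SP / 2 + SA2 + 2 * SB ≤ L := by linarith
  have hL0 : 0 ≤ L := by linarith
  -- the sum of the inverse sizes
  have hSI8 : SI ≤ 8 * L + 1 := by
    by_cases hall : ∃ w, p w = w ∧ ∀ v, p v = w
    · obtain ⟨w, hw, hall⟩ := hall
      have h1 : ctr p = {w} := by
        ext v
        rw [Finset.mem_singleton]
        constructor
        · intro hv
          have := hctr v hv
          rw [hall v] at this
          exact this.symm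
        · rintro rfl; exact hctr' v hw
      rw [hSI, h1, Finset.sum_singleton]
      have h2 := htwo w hw
      have h3 : 1 / tq p w ≤ 1 := by rw [div_le_one (by linarith)]; linarith
      linarith
    · push Not at hall
      have h1 : ∀ w ∈ ctr p, 1 / tq p w ≤ 4 * (∑ i ∈ cls p w, Row i + tB x T p w) := by
        intro w hw
        have hw' := hctr w hw
        obtain ⟨v, hv⟩ := hall w hw'
        obtain ⟨walk⟩ := hc.preconnected w v
        obtain ⟨d, -, hd1, hd2⟩ := walk.exists_boundary_dart {v | p v = w} hw' hv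
        have hd1' : p d.fst = w := hd1
        have hd2' : p d.snd ≠ w := hd2
        have hH : (hh G p).Adj d.fst d.snd := by
          refine ⟨d.adj, fun h => ?_, fun h => ?_⟩
          · rw [hd1'] at h
            exact hd2' (by rw [← h]; exact hw')
          · have h2 := hp d.snd
            rw [h] at h2
            exact hd2' (by rw [h, ← h2]; exact hd1')
        have h2 := outgoing (T := T) O hw' hd1' hd2'
        have h3 := hRowe _ _ hH
        have h4 : Row d.fst ≤ ∑ i ∈ cls p w, Row i :=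
          Finset.single_le_sum (f := Row) (fun i _ => hRown i) (by
            unfold cls; simp [hd1'])
        have h5 := tq_pos hw'
        rw [div_le_iff₀ h5]
        have h6 : 4 * tq p w * (tpsi x T d.fst d.snd + tB x T p w) ≤
            4 * tq p w * (∑ i ∈ cls p w, Row i + tB x T p w) :=
          mul_le_mul_of_nonneg_left (by linarith) (by linarith)
        linarith
      have h2 := Finset.sum_le_sum h1
      rw [← hSI, ← Finset.mul_sum, Finset.sum_add_distrib, ← sum_stars hp, ← hSPR, ← hSB] at h2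
      linarith
  -- SA1
  have hSA12 : SA1 ≤ SA2 + 2 * SI := by
    rw [hSA1, hSA2, hSI, Finset.mul_sum, ← Finset.sum_add_distrib]
    refine Finset.sum_le_sum fun w hw => ?_
    have h1 := hal0 w (hctr w hw)
    have h2 := hal1 w (hctr w hw)
    rcases htwo3 w (hctr w hw) with h | h
    · rw [h]; norm_num; linarith
    · have h3 : 0 ≤ 2 * (1 / tq p w) := by positivity
      nlinarith
  have hSA117 : SA1 ≤ 17 * L + 2 := by linarith
  -- diagonal
  obtain ⟨Pd, hPd⟩ : ∃ Pd : Fin n → ℝ, Pd = fun v => ∑ a ∈ T, (x a v) ^ 2 := ⟨_, rfl⟩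
  have hPd0 : ∀ v, 0 ≤ Pd v := fun v => by
    rw [hPd]; exact Finset.sum_nonneg fun a _ => sq_nonneg _
  have hPdt : ∑ v, Pd v = t := by
    rw [hPd, Finset.sum_comm, Finset.sum_congr rfl fun a _ => N a, ht]
    simp
  have hPdc : s - 2 * SA1 - 2 * SI ≤ ∑ w ∈ ctr p, Pd w := by
    have h1 : ∀ w ∈ ctr p, 1 - 2 * al w - 2 * (1 / tq p w) ≤ Pd w := by
      intro w hw
      have h2 := ctr_diag (T := T) O (hctr w hw)
      have h3 := hAal w (hctr w hw)
      rw [hPd]
      simp only
      linarith
    have h2 := Finset.sum_le_sum h1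
    rw [Finset.sum_sub_distrib, Finset.sum_sub_distrib, ← Finset.mul_sum, ← Finset.mul_sum,
      ← hSA1, ← hSI, Finset.sum_const, nsmul_eq_mul, mul_one, ← hs] at h2
    exact h2
  have hPdl : ∑ v ∈ (ctr p)ᶜ, Pd v ≤ 51 * L + 6 := by
    have h1 := Finset.sum_add_sum_compl (ctr p) Pd
    rw [hPdt] at h1
    linarith
  obtain ⟨BL, hBL⟩ : ∃ BL : Finset (Fin n), BL = (ctr p)ᶜ.filter (fun v => 1 / 100 < Pd v) :=
    ⟨_, rfl⟩
  have hBLc : (BL.card : ℝ) ≤ 5100 * L + 600 := by
    have h1 : (BL.card : ℝ) * (1 / 100) ≤ ∑ v ∈ (ctr p)ᶜ, Pd v := by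
      have h2 : ∑ v ∈ BL, (1 / 100 : ℝ) ≤ ∑ v ∈ BL, Pd v :=
        Finset.sum_le_sum fun v hv => by
          rw [hBL, Finset.mem_filter] at hv
          exact hv.2.le
      rw [Finset.sum_const, nsmul_eq_mul] at h2
      refine h2.trans (Finset.sum_le_sum_of_subset_of_nonneg ?_ fun v _ _ => hPd0 v)
      rw [hBL]; exact Finset.filter_subset _ _
    linarith
  -- bad centers
  obtain ⟨dg, hdg⟩ : ∃ dg : Fin n → ℝ, dg = fun w => ((hh G p).degree w : ℝ) := ⟨_, rfl⟩
  have hdg0 : ∀ w, 0 ≤ dg w := fun w => by rw [hdg]; exact Nat.cast_nonneg _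
  obtain ⟨Wg, hWg⟩ : ∃ Wg : Finset (Fin n), Wg =
    (ctr p).filter (fun w => dg w ≤ θ / 2 * (tq p w - 2)) := ⟨_, rfl⟩
  obtain ⟨BC, hBC⟩ : ∃ BC : Finset (Fin n), BC =
    (ctr p).filter (fun w => ¬ dg w ≤ θ / 2 * (tq p w - 2)) := ⟨_, rfl⟩
  have hRowc : ∑ w ∈ ctr p, Row w ≤ SP := by
    rw [hSPR]
    exact Finset.sum_le_sum_of_subset_of_nonneg (Finset.subset_univ _) fun i _ _ => hRown i
  have hBCc : (BC.card : ℝ) ≤ 128 / θ * L + 16 * L + 2 := by
    have h1 : ∀ w ∈ BC, θ / 64 ≤ Row w + 2 * ((tq p w - 2) * al w) + tB x T p w +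
        θ / 32 * (1 / tq p w) := by
      intro w hw
      rw [hBC, Finset.mem_filter] at hw
      have hw' := hctr w hw.1
      have hbad := hw.2
      rw [not_le] at hbad
      have g1 := hRown w
      have g2 := hal0 w hw'
      have g3 := tB_nonneg (x := x) (T := T) (p := p) w
      rcases htwo3 w hw' with h | h
      · rw [h]
        have : θ / 32 * (1 / 2) = θ / 64 := by ring
        rw [this]
        linarith
      · have g4 : 0 ≤ θ / 32 * (1 / tq p w) := by positivity
        have g5 : tq p w * tA x T p w ≤ 2 * ((tq p w - 2) * al w) := by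
          have e1 : tq p w * tA x T p w = al w + (tq p w - 2) * al w := by
            rw [← halw]
            have h3 : tq p w - 1 ≠ 0 := by linarith
            field_simp
            ring
          rw [e1]
          nlinarith
        by_cases c1 : tB x T p w ≤ 1 / 8
        · by_cases c2 : tq p w * tA x T p w ≤ 1 / 64
          · have h2 := local_ineq (T := T) O hw' ((hh G p).neighborFinset w) (fun v hv hv2 => by
              rw [SimpleGraph.mem_neighborFinset] at hv
              exact hv.2.2 hv2) c1 c2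
            rw [SimpleGraph.card_neighborFinset_eq_degree] at h2
            have h3 : ∑ v ∈ (hh G p).neighborFinset w, tpsi x T w v = Row w := by
              rw [hRow]
              simp only
              rw [← Finset.sum_filter]
              refine Finset.sum_congr ?_ fun _ _ => rfl
              ext v; simp
            rw [h3] at h2
            have h4 : dg w ≤ 4 * tq p w * (Row w + tB x T p w) := by rw [hdg]; exact h2
            have h5 : θ / 2 * (tq p w - 2) < 4 * tq p w * (Row w + tB x T p w) := by linarith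
            have h6 : θ / 2 * (tq p w / 3) ≤ θ / 2 * (tq p w - 2) :=
              mul_le_mul_of_nonneg_left (by linarith) (by linarith)
            have h7 : tq p w * (θ / 24) < tq p w * (Row w + tB x T p w) := by linarith
            have h8 := lt_of_mul_lt_mul_left h7 (by linarith)
            have h9 : 0 ≤ (tq p w - 2) * al w := mul_nonneg (by linarith) g2
            linarith
          · rw [not_le] at c2
            linarith
        · rw [not_le] at c1
          have h9 : 0 ≤ (tq p w - 2) * al w := mul_nonneg (by linarith) g2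
          linarith
    have h2 := Finset.sum_le_sum h1
    rw [Finset.sum_const, nsmul_eq_mul] at h2
    have h3 : ∑ w ∈ BC, (Row w + 2 * ((tq p w - 2) * al w) + tB x T p w +
        θ / 32 * (1 / tq p w)) ≤ ∑ w ∈ ctr p, (Row w + 2 * ((tq p w - 2) * al w) + tB x T p w +
        θ / 32 * (1 / tq p w)) := by
      refine Finset.sum_le_sum_of_subset_of_nonneg ?_ fun w hw _ => ?_
      · rw [hBC]; exact Finset.filter_subset _ _
      · have g0 := htwo w (hctr w hw)
        have g1 := hRown w
        have g2 := hal0 w (hctr w hw)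
        have g3 := tB_nonneg (x := x) (T := T) (p := p) w
        have g4 : 0 ≤ θ / 32 * (1 / tq p w) := by positivity
        have h9 : 0 ≤ (tq p w - 2) * al w := mul_nonneg (by linarith) g2
        linarith
    have hRR : ∑ w ∈ ctr p, (Row w + 2 * ((tq p w - 2) * al w) + tB x T p w +
        θ / 32 * (1 / tq p w)) = ∑ w ∈ ctr p, Row w + 2 * SA2 + SB + θ / 32 * SI := by
      rw [Finset.sum_add_distrib, Finset.sum_add_distrib, Finset.sum_add_distrib,
        ← Finset.mul_sum, ← Finset.mul_sum, ← hSA2, ← hSB, ← hSI]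
    rw [hRR] at h3
    have h4 : (BC.card : ℝ) * (θ / 64) ≤ 2 * L + θ / 32 * (8 * L + 1) := by
      have : θ / 32 * SI ≤ θ / 32 * (8 * L + 1) := mul_le_mul_of_nonneg_left hSI8 (by positivity)
      linarith
    have h5 : (128 / θ * L + 16 * L + 2) * (θ / 64) = 2 * L + θ / 32 * (8 * L + 1) := by
      field_simp
      ring
    rw [← h5] at h4
    exact le_of_mul_le_mul_right h4 (by positivity)
  obtain ⟨β, hβ⟩ : ∃ β : ℝ, β = BL.card + BC.card := ⟨_, rfl⟩
  have hβ0 : 0 ≤ β := by rw [hβ]; exact add_nonneg (Nat.cast_nonneg _) (Nat.cast_nonneg _)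
  have hβ1 : β ≤ 6000 / θ * (L + 1) := by
    have h1 : 1 ≤ 1 / θ := by rw [le_div_iff₀ hθ0]; linarith
    have e1 : 128 / θ * L = 128 * L * (1 / θ) := by ring
    have e2 : 6000 / θ * (L + 1) = (6000 * (L + 1)) * (1 / θ) := by ring
    rw [hβ, e2]
    rw [e1] at hBCc
    have h2 : (5116 * L + 602) * 1 ≤ (5116 * L + 602) * (1 / θ) :=
      mul_le_mul_of_nonneg_left h1 (by linarith)
    have h3 : (5116 * L + 602) * (1 / θ) + 128 * L * (1 / θ) ≤ (6000 * (L + 1)) * (1 / θ) := by
      rw [← add_mul]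
      exact mul_le_mul_of_nonneg_right (by linarith) (by positivity)
    linarith
  have hs1 : 1 ≤ s := by rw [hs]; exact_mod_cast Finset.card_pos.2 hne
  refine ⟨hL0, s, β, hs1, by rw [← ht]; linarith, hβ0, hβ1, fun hD0 => ?_⟩
  -- the good edges
  obtain ⟨g, hg⟩ : ∃ g : Fin n → Fin n → ℝ, g = fun i j =>
    (if (hh G p).Adj i j ∧ i ∈ Wg ∧ j ∈ Wg then 1 else 0) := ⟨_, rfl⟩
  have hg0 : ∀ i j, 0 ≤ g i j := fun i j => by rw [hg]; simp only; split_ifs <;> norm_num
  have hgs : ∀ i j, g i j = g j i := fun i j => by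
    rw [hg]
    simp only
    by_cases h : (hh G p).Adj i j ∧ i ∈ Wg ∧ j ∈ Wg
    · rw [if_pos h, if_pos ⟨h.1.symm, h.2.2, h.2.1⟩]
    · rw [if_neg h, if_neg fun h' => h ⟨h'.1.symm, h'.2.2, h'.2.1⟩]
  obtain ⟨D, hD⟩ : ∃ D : Fin n → ℝ, D = fun i => ∑ j, g i j := ⟨_, rfl⟩
  have hDn : ∀ i, 0 ≤ D i := fun i => by rw [hD]; exact Finset.sum_nonneg fun j _ => hg0 i j
  have hD1 : ∀ i, i ∉ Wg → D i = 0 := fun i hi => by
    rw [hD]
    refine Finset.sum_eq_zero fun j _ => ?_
    rw [hg]; simp only; rw [if_neg fun h => hi h.2.1]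
  have hD2 : ∀ i, D i ≤ dg i := fun i => by
    rw [hD, hdg]
    simp only
    rw [(hh G p).degree_eq_sum_if_adj]
    refine Finset.sum_le_sum fun j _ => ?_
    rw [hg]
    simp only
    by_cases h : (hh G p).Adj i j
    · rw [if_pos h]; split_ifs <;> norm_num
    · rw [if_neg h, if_neg fun h' => h h'.1]
  have hWs : (Wg.card : ℝ) ≤ s := by
    rw [hs, hWg]
    exact_mod_cast Finset.card_le_card (Finset.filter_subset _ _)
  have hD3 : ∀ i, D i ≤ s := fun i => by
    refine le_trans ?_ hWs
    rw [hD]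
    simp only
    have : ∑ j, g i j ≤ ∑ j, (if j ∈ Wg then (1 : ℝ) else 0) := by
      refine Finset.sum_le_sum fun j _ => ?_
      rw [hg]
      simp only
      by_cases h : j ∈ Wg
      · rw [if_pos h]; split_ifs <;> norm_num
      · rw [if_neg h, if_neg fun h' => h h'.2.2]
    refine this.trans (le_of_eq ?_)
    simp
  have hWgc : ∀ w ∈ Wg, w ∈ ctr p ∧ dg w ≤ θ / 2 * (tq p w - 2) := fun w hw => by
    rw [hWg, Finset.mem_filter] at hw; exact hw
  -- main inequality
  have hmain : (1 - θ) * ∑ w ∈ ctr p, D w / tq p w ≤ L := by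
    obtain ⟨f, hf⟩ : ∃ f : Fin n → ℝ, f = fun w =>
      (1 - θ) * ((1 - 2 * tB x T p w) / tq p w) - 2 / θ * tA x T p w := ⟨_, rfl⟩
    have e1 : ∑ i, ∑ j, g i j * (f i + f j) ≤ SP := by
      rw [hSP]
      refine Finset.sum_le_sum fun i _ => Finset.sum_le_sum fun j _ => ?_
      rw [hg]
      simp only
      by_cases h : (hh G p).Adj i j ∧ i ∈ Wg ∧ j ∈ Wg
      · rw [if_pos h, if_pos h.1, one_mul]
        have := core_edge (T := T) O (hctr i (hWgc i h.2.1).1) (hctr j (hWgc j h.2.2).1)
          h.1.ne hθ0 hθ1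
        rw [hf]
        simp only
        linarith
      · rw [if_neg h, zero_mul]
        exact hpn i j
    have e2 : ∑ i, ∑ j, g i j * (f i + f j) = 2 * ∑ w ∈ ctr p, D w * f w := by
      have q1 : ∑ i, ∑ j, g i j * f i = ∑ w ∈ ctr p, D w * f w := by
        have q2 : ∀ i, ∑ j, g i j * f i = D i * f i := fun i => by
          rw [hD, Finset.sum_mul]
        rw [Finset.sum_congr rfl fun i _ => q2 i]
        symm
        refine Finset.sum_subset (Finset.subset_univ _) fun i _ hi => ?_
        rw [hD1 i fun h => hi (hWgc i h).1, zero_mul]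
      have q3 : ∑ i, ∑ j, g i j * f j = ∑ i, ∑ j, g i j * f i := by
        rw [Finset.sum_comm]
        refine Finset.sum_congr rfl fun i _ => Finset.sum_congr rfl fun j _ => ?_
        rw [hgs]
      have q4 : ∀ i j, g i j * (f i + f j) = g i j * f i + g i j * f j := fun i j => by ring
      simp_rw [q4, Finset.sum_add_distrib]
      rw [q3, q1]; ring
    rw [e2] at e1
    have e3 : (1 - θ) * ∑ w ∈ ctr p, D w / tq p w ≤
        ∑ w ∈ ctr p, D w * f w + (SA2 + 2 * SB) := by
      rw [hSA2, hSB, Finset.mul_sum, Finset.mul_sum, ← Finset.sum_add_distrib,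
        ← Finset.sum_add_distrib]
      refine Finset.sum_le_sum fun w hw => ?_
      have hτ := htwo w (hctr w hw)
      have hA := tA_nonneg (x := x) (T := T) (p := p) w
      have hB := tB_nonneg (x := x) (T := T) (p := p) w
      have hAa := hAal w (hctr w hw)
      have hdw : D w ≤ θ / 2 * (tq p w - 2) := by
        by_cases h : w ∈ Wg
        · exact (hD2 w).trans (hWgc w h).2
        · rw [hD1 w h]
          exact mul_nonneg (by linarith) (by linarith)
      have hDw := hDn w
      obtain ⟨τ, hτd⟩ : ∃ τ, τ = tq p w := ⟨_, rfl⟩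
      obtain ⟨A, hAd⟩ : ∃ A, A = tA x T p w := ⟨_, rfl⟩
      obtain ⟨B, hBd⟩ : ∃ B, B = tB x T p w := ⟨_, rfl⟩
      obtain ⟨E, hEd⟩ : ∃ E : ℝ, E = D w := ⟨_, rfl⟩
      obtain ⟨a', ha'd⟩ : ∃ a', a' = al w := ⟨_, rfl⟩
      rw [hf]
      simp only
      rw [← hτd, ← hAd, ← hBd, ← hEd, ← ha'd]
      rw [← hτd] at hτ hdw
      rw [← hAd] at hA hAa
      rw [← hBd] at hB
      rw [← hEd] at hdw hDw
      rw [← ha'd] at hAa
      have hτ0 : 0 < τ := by linarith
      have q1 : 2 / θ * E ≤ τ - 2 := by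
        rw [div_mul_eq_mul_div, div_le_iff₀ hθ0]; linarith
      have q3 : 2 / θ * E * A ≤ (τ - 2) * a' :=
        mul_le_mul q1 hAa hA (by linarith)
      have q2 : E / τ ≤ 1 := by
        rw [div_le_one hτ0]
        have : θ / 2 * (τ - 2) ≤ 1 * (τ - 2) := mul_le_mul_of_nonneg_right (by linarith) (by linarith)
        linarith
      have q4 : (1 - θ) * (2 * (E / τ)) ≤ 2 := by
        have h5 : 0 ≤ E / τ := by positivity
        nlinarith
      have q5 : (1 - θ) * (2 * (E / τ)) * B ≤ 2 * B := mul_le_mul_of_nonneg_right q4 hB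
      have q6 : E * ((1 - θ) * ((1 - 2 * B) / τ) - 2 / θ * A) =
          (1 - θ) * (E / τ) - (1 - θ) * (2 * (E / τ)) * B - 2 / θ * E * A := by
        field_simp
      rw [q6]
      linarith
    linarith
  -- counting
  have hcount : 2 * ((m : ℝ) - n + s) - 4 * L - 2 * β * (β + s) ≤ ∑ w ∈ ctr p, D w := by
    have e1 := adj_split G hp ha (fun _ _ => 1) (fun _ _ => rfl)
    rw [edges_eq G, hm] at e1
    have e3 : (∑ v, if p v ≠ v then (1 : ℝ) else 0) = n - s := by
      have e4 : ∀ v, (if p v ≠ v then (1 : ℝ) else 0) = 1 - (if p v = v then 1 else 0) := by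
        intro v
        by_cases h : p v = v
        · simp [h]
        · simp [h]
      rw [Finset.sum_congr rfl fun v _ => e4 v, Finset.sum_sub_distrib, hs]
      unfold ctr
      simp
    rw [e3] at e1
    obtain ⟨Bd, hBd⟩ : ∃ Bd : Finset (Fin n), Bd = BL ∪ BC := ⟨_, rfl⟩
    obtain ⟨Al, hAl⟩ : ∃ Al : Finset (Fin n), Al = BL ∪ ctr p := ⟨_, rfl⟩
    have hpt : ∀ i j, (if (hh G p).Adj i j then (1 : ℝ) else 0) ≤ g i j +
        2 * (if (hh G p).Adj i j then tpsi x T i j else 0) +
        ((if i ∈ Bd then (1 : ℝ) else 0) * (if j ∈ Al then 1 else 0) +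
         (if i ∈ Al then (1 : ℝ) else 0) * (if j ∈ Bd then 1 else 0)) := by
      intro i j
      have z1 : ∀ (P Q : Prop) [Decidable P] [Decidable Q],
          (0 : ℝ) ≤ (if P then (1 : ℝ) else 0) * (if Q then 1 else 0) := by
        intro P Q _ _
        split_ifs <;> norm_num
      have z2 := z1 (i ∈ Bd) (j ∈ Al)
      have z3 := z1 (i ∈ Al) (j ∈ Bd)
      have z4 := hpn i j
      have z5 := hg0 i j
      by_cases h : (hh G p).Adj i j
      · rw [if_pos h]
        by_cases hi : i ∈ Al
        · by_cases hj : j ∈ Al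
          · by_cases hib : i ∈ Bd
            · have : (if i ∈ Bd then (1 : ℝ) else 0) * (if j ∈ Al then 1 else 0) = 1 := by
                rw [if_pos hib, if_pos hj]; norm_num
              linarith
            · by_cases hjb : j ∈ Bd
              · have : (if i ∈ Al then (1 : ℝ) else 0) * (if j ∈ Bd then 1 else 0) = 1 := by
                  rw [if_pos hi, if_pos hjb]; norm_num
                linarith
              · have hmem : ∀ v, v ∈ Al → v ∉ Bd → v ∈ Wg := by
                  intro v hv hvb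
                  rw [hAl, Finset.mem_union] at hv
                  rw [hBd, Finset.mem_union, not_or] at hvb
                  have hvc : v ∈ ctr p := hv.resolve_left hvb.1
                  rw [hWg, Finset.mem_filter]
                  refine ⟨hvc, ?_⟩
                  by_contra hcon
                  exact hvb.2 (by rw [hBC, Finset.mem_filter]; exact ⟨hvc, hcon⟩)
                have : g i j = 1 := by
                  rw [hg]; simp only
                  rw [if_pos ⟨h, hmem i hi hib, hmem j hj hjb⟩]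
                linarith
          · -- j is a good leaf
            have hjl : 1 / 2 ≤ tpsi x T j i := by
              refine leaf_edge (T := T) O h.ne.symm ?_
              by_contra hcon
              rw [not_le] at hcon
              apply hj
              rw [hAl, Finset.mem_union]
              by_cases hjc : j ∈ ctr p
              · exact Or.inr hjc
              · left
                rw [hBL, Finset.mem_filter, Finset.mem_compl]
                refine ⟨hjc, ?_⟩
                rw [hPd]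
                exact hcon
            rw [tpsi_symm] at hjl
            rw [if_pos h]
            linarith
        · have hil : 1 / 2 ≤ tpsi x T i j := by
            refine leaf_edge (T := T) O h.ne ?_
            by_contra hcon
            rw [not_le] at hcon
            apply hi
            rw [hAl, Finset.mem_union]
            by_cases hic : i ∈ ctr p
            · exact Or.inr hic
            · left
              rw [hBL, Finset.mem_filter, Finset.mem_compl]
              refine ⟨hic, ?_⟩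
              rw [hPd]
              exact hcon
          rw [if_pos h]
          linarith
      · rw [if_neg h]
        linarith
    have hsum := Finset.sum_le_sum fun i (_ : i ∈ Finset.univ) =>
      Finset.sum_le_sum fun j (_ : j ∈ Finset.univ) => hpt i j
    simp only [Finset.sum_add_distrib, ← Finset.mul_sum] at hsum
    rw [← hSP] at hsum
    have c1 : ∀ S : Finset (Fin n), ∑ j, (if j ∈ S then (1 : ℝ) else 0) = S.card := by
      intro S; simp
    have c2 : ∀ S S' : Finset (Fin n), ∑ i, (if i ∈ S then (1 : ℝ) else 0) *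
        ∑ j, (if j ∈ S' then (1 : ℝ) else 0) = (S.card : ℝ) * S'.card := by
      intro S S'
      rw [← Finset.sum_mul, c1, c1]
    rw [c2, c2] at hsum
    have c3 : ∑ i, ∑ j, g i j = ∑ w ∈ ctr p, D w := by
      have : ∀ i, ∑ j, g i j = D i := fun i => by rw [hD]
      rw [Finset.sum_congr rfl fun i _ => this i]
      symm
      refine Finset.sum_subset (Finset.subset_univ _) fun i _ hi => ?_
      exact hD1 i fun h => hi (hWgc i h).1
    rw [c3] at hsum
    have c4 : (Bd.card : ℝ) ≤ β := by
      rw [hβ, hBd]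
      exact_mod_cast Finset.card_union_le _ _
    have c5 : (Al.card : ℝ) ≤ β + s := by
      have h1 : (Al.card : ℝ) ≤ BL.card + (ctr p).card := by
        rw [hAl]; exact_mod_cast Finset.card_union_le _ _
      have h2 : (0 : ℝ) ≤ BC.card := Nat.cast_nonneg _
      rw [hβ, hs]
      linarith
    have c6 : (Bd.card : ℝ) * Al.card ≤ β * (β + s) :=
      mul_le_mul c4 c5 (Nat.cast_nonneg _) hβ0
    have c7 : (Al.card : ℝ) * Bd.card = Bd.card * Al.card := mul_comm _ _
    rw [c7] at hsum
    have c8 : SP ≤ 2 * L := by linarith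
    linarith
  -- Cauchy
  have hτsum : ∑ w ∈ ctr p, tq p w = n := by
    have e1 := sum_stars hp (fun _ => (1 : ℝ))
    simp only [Finset.sum_const, nsmul_eq_mul, mul_one, Finset.card_univ, Fintype.card_fin] at e1
    rw [e1]
    rfl
  have hcs : (∑ w ∈ ctr p, D w) ^ 2 ≤
      (∑ w ∈ ctr p, D w / tq p w) * ∑ w ∈ ctr p, D w * tq p w := by
    apply Finset.sum_sq_le_sum_mul_sum_of_sq_le_mul
    · exact fun w hw => div_nonneg (hDn w) (by linarith [htwo w (hctr w hw)])
    · exact fun w hw => mul_nonneg (hDn w) (by linarith [htwo w (hctr w hw)])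
    · intro w hw
      have := htwo w (hctr w hw)
      have h0 : tq p w ≠ 0 := by linarith
      refine le_of_eq ?_
      field_simp
  have hgg : ∑ w ∈ ctr p, D w * tq p w ≤ s * n := by
    rw [← hτsum, Finset.mul_sum]
    refine Finset.sum_le_sum fun w hw => ?_
    exact mul_le_mul_of_nonneg_right (hD3 w) (by linarith [htwo w (hctr w hw)])
  have hq0 : 0 ≤ ∑ w ∈ ctr p, D w / tq p w :=
    Finset.sum_nonneg fun w hw => div_nonneg (hDn w) (by linarith [htwo w (hctr w hw)])
  refine le_trans ?_ hmain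
  rw [mul_div_assoc]
  refine mul_le_mul_of_nonneg_left ?_ (by linarith)
  have h1 : 0 < s * (n : ℝ) := mul_pos (by linarith) (by linarith)
  rw [div_le_iff₀ h1]
  have h2 := mul_self_le_mul_self hD0 hcount
  have h3 := hcs.trans (mul_le_mul_of_nonneg_left hgg hq0)
  nlinarith

end Pool.Agent.T2H88.LE
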