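import Pool.Agent.T2H88.LE.Ext2
import Pool.Agent.T2H88.LE.Asym

/-!
# The asymptotics of the second term in the whole range `m - n = o(n)`
-/

set_option autoImplicit false

namespace Pool.Agent.T2H88.LE

open Finset Matrix Pool.Agent.Helper554.LE

theorem ext_real {n m t L s β r d ζ w : ℝ} (hn0 : 0 < n) (hζ0 : 0 < ζ) (hζ1 : ζ ≤ 1 / 2)
    (hr0 : 0 ≤ r) (hr : r * r = m - n) (hd0 : 0 < d) (hd : d ≤ ζ ^ 2 / 16800000)
    (h1 : 1 ≤ d * r) (h2 : r * r ≤ d * n) (hw0 : 0 ≤ w) (hw : w * w = 2)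
    (ht0 : 0 ≤ t) (hL0 : 0 ≤ L) (hs1 : 1 ≤ s) (hs2 : s ≤ t + 17 * L + 2) (hβ0 : 0 ≤ β)
    (hβ1 : β ≤ 6000 / (ζ / 4) * (L + 1))
    (hmain : 0 ≤ 2 * (m - n + s) - 4 * L - 2 * β * (β + s) →
      (1 - ζ / 4) * (2 * (m - n + s) - 4 * L - 2 * β * (β + s)) ^ 2 / (s * n) ≤ L) :
    (1 - ζ) * (4 * w * (r * r * r)) / n ≤ 2 * (r * r) / n * t + L := by
  by_contra hcon
  rw [not_le] at hcon
  have hw1 : w ≤ 3 / 2 := by nlinarith
  have hw2 : 1 ≤ w := by nlinarith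
  have hζζ : ζ ^ 2 ≤ ζ / 2 := by nlinarith
  have hd1 : d ≤ ζ / 33600000 := by linarith
  have hd2 : d ≤ 1 / 67200000 := by linarith
  have hr1 : 1 ≤ r := by
    by_contra hx
    rw [not_le] at hx
    have : d * r ≤ d * 1 := mul_le_mul_of_nonneg_left hx.le hd0.le
    linarith
  have hrr1 : r ≤ r * r := by nlinarith
  have hrrr0 : 0 < r * r * r := by positivity
  have hrr0 : 0 < r * r := by positivity
  -- the inequality multiplied by n
  have hcn : 2 * (r * r) * t + n * L < (1 - ζ) * (4 * w * (r * r * r)) := by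
    rw [lt_div_iff₀ hn0] at hcon
    have : (2 * (r * r) / n * t + L) * n = 2 * (r * r) * t + n * L := by
      field_simp
    linarith
  have hup : (1 - ζ) * (4 * w * (r * r * r)) ≤ 6 * (r * r * r) := by
    have a1 : (1 - ζ) * (4 * w * (r * r * r)) ≤ 1 * (4 * w * (r * r * r)) :=
      mul_le_mul_of_nonneg_right (by linarith) (by positivity)
    have a2 : 4 * w * (r * r * r) ≤ 6 * (r * r * r) :=
      mul_le_mul_of_nonneg_right (by linarith) hrrr0.le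
    linarith
  have hrt : 0 ≤ 2 * (r * r) * t := by positivity
  have hnL : 0 ≤ n * L := by positivity
  have hLr : L ≤ 6 * d * r := by
    have a1 : n * L ≤ 6 * (r * r * r) := by linarith
    have a2 : (r * r) * r ≤ (d * n) * r := mul_le_mul_of_nonneg_right h2 hr0
    have a3 : n * L ≤ n * (6 * d * r) := by linarith
    exact le_of_mul_le_mul_left a3 hn0
  have htr : t ≤ 3 * r := by
    have a1 : 2 * (r * r) * t ≤ 2 * (r * r) * (3 * r) := by linarith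
    exact le_of_mul_le_mul_left a1 (by positivity)
  have hdr : d * r ≤ 1 / 67200000 * r := mul_le_mul_of_nonneg_right hd2 hr0
  have hs4 : s ≤ 4 * r := by linarith
  have hβr : β ≤ ζ / 100 * r := by
    refine hβ1.trans ?_
    have e1 : 6000 / (ζ / 4) * (L + 1) = 24000 * (L + 1) / ζ := by
      field_simp; norm_num
    rw [e1, div_le_iff₀ hζ0]
    have e2 : d * r ≤ ζ ^ 2 / 16800000 * r := mul_le_mul_of_nonneg_right hd hr0
    have e3 : ζ / 100 * r * ζ = 168000 * (ζ ^ 2 / 16800000 * r) := by ring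
    rw [e3]
    linarith
  obtain ⟨D, hD⟩ : ∃ D, D = 2 * (m - n + s) - 4 * L - 2 * β * (β + s) := ⟨_, rfl⟩
  rw [← hD] at hmain
  have hββ : β * (β + s) ≤ ζ / 20 * (r * r) := by
    have a1 : β + s ≤ 5 * r := by
      have : ζ / 100 * r ≤ 1 * r := mul_le_mul_of_nonneg_right (by linarith) hr0
      linarith
    have a2 : β * (β + s) ≤ (ζ / 100 * r) * (5 * r) :=
      mul_le_mul hβr a1 (by linarith) (by positivity)
    linarith
  have hDge : 2 * (r * r) * (1 - ζ / 16) ≤ D := by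
    rw [hD, ← hr]
    have a1 : 4 * L ≤ ζ / 40 * (r * r) := by
      have b1 : d * r ≤ ζ / 33600000 * r := mul_le_mul_of_nonneg_right hd1 hr0
      have b2 : ζ * r ≤ ζ * (r * r) := mul_le_mul_of_nonneg_left hrr1 hζ0.le
      have b3 : 0 ≤ ζ * r := by positivity
      linarith
    have a2 : 2 * β * (β + s) = 2 * (β * (β + s)) := by ring
    rw [a2]
    linarith
  have hD0 : 0 ≤ 2 * (r * r) * (1 - ζ / 16) := mul_nonneg (by positivity) (by linarith)
  have hm1 := hmain (hD0.trans hDge)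
  rw [div_le_iff₀ (by positivity)] at hm1
  have hsq : (2 * (r * r) * (1 - ζ / 16)) ^ 2 ≤ D ^ 2 := by
    apply pow_le_pow_left₀ hD0 hDge
  have hs0 : 0 < s := by linarith
  obtain ⟨Q, hQ⟩ : ∃ Q, Q = 4 * (r * r) ^ 2 / s := ⟨_, rfl⟩
  have hQs : Q * s = 4 * (r * r) ^ 2 := by rw [hQ]; field_simp
  have hQ0 : 0 ≤ Q := by rw [hQ]; positivity
  have hP : (1 - 3 / 8 * ζ) * Q ≤ n * L := by
    have a1 : (1 - ζ / 4) * (2 * (r * r) * (1 - ζ / 16)) ^ 2 ≤ (1 - ζ / 4) * D ^ 2 :=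
      mul_le_mul_of_nonneg_left hsq (by linarith)
    have a2 : (1 - 3 / 8 * ζ) * (4 * (r * r) ^ 2) ≤
        (1 - ζ / 4) * (2 * (r * r) * (1 - ζ / 16)) ^ 2 := by
      have b1 : (1 - ζ / 4) * (2 * (r * r) * (1 - ζ / 16)) ^ 2 =
          ((1 - ζ / 4) * (1 - ζ / 16) ^ 2) * (4 * (r * r) ^ 2) := by ring
      rw [b1]
      apply mul_le_mul_of_nonneg_right _ (by positivity)
      have b2 : (1 - ζ / 4) * (1 - ζ / 16) ^ 2 - (1 - 3 / 8 * ζ) =
          ζ ^ 2 * (9 / 256 - ζ / 1024) := by ring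
      have b3 : 0 ≤ ζ ^ 2 * (9 / 256 - ζ / 1024) := mul_nonneg (sq_nonneg _) (by linarith)
      linarith
    have a3 : ((1 - 3 / 8 * ζ) * Q) * s ≤ (n * L) * s := by
      have : ((1 - 3 / 8 * ζ) * Q) * s = (1 - 3 / 8 * ζ) * (Q * s) := by ring
      rw [this, hQs]
      linarith
    exact le_of_mul_le_mul_right a3 hs0
  have hAG : 4 * w * (r * r * r) ≤ 2 * (r * r) * s + Q := by
    have a1 : (2 * (r * r) * s + Q - 4 * w * (r * r * r)) * s =
        2 * (r * r) * (s - w * r) ^ 2 := by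
      have b1 : (2 * (r * r) * s + Q - 4 * w * (r * r * r)) * s =
          2 * (r * r) * s * s + Q * s - 4 * w * (r * r * r) * s := by ring
      have b2 : 2 * (r * r) * (s - w * r) ^ 2 =
          2 * (r * r) * s * s - 4 * w * (r * r * r) * s + 2 * (w * w) * (r * r) ^ 2 := by ring
      rw [b1, b2, hQs, hw]; ring
    have a2 : 0 * s ≤ (2 * (r * r) * s + Q - 4 * w * (r * r * r)) * s := by
      rw [a1, zero_mul]; positivity
    have a3 := le_of_mul_le_mul_right a2 hs0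
    linarith
  have hts : s - 104 * (d * r) ≤ t := by linarith
  have hfin : 2 * (r * r) * s - 208 * d * (r * r * r) ≤ 2 * (r * r) * t := by
    have a1 : 2 * (r * r) * (s - 104 * (d * r)) ≤ 2 * (r * r) * t :=
      mul_le_mul_of_nonneg_left hts (by positivity)
    linarith
  have hPs : (1 - 3 / 8 * ζ) * (4 * w * (r * r * r)) ≤
      2 * (r * r) * s + (1 - 3 / 8 * ζ) * Q := by
    have a1 : (1 - 3 / 8 * ζ) * (4 * w * (r * r * r)) ≤
        (1 - 3 / 8 * ζ) * (2 * (r * r) * s + Q) :=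
      mul_le_mul_of_nonneg_left hAG (by linarith)
    have a2 : (1 - 3 / 8 * ζ) * (2 * (r * r) * s) ≤ 1 * (2 * (r * r) * s) :=
      mul_le_mul_of_nonneg_right (by linarith) (by positivity)
    linarith
  have hlast : 208 * d * (r * r * r) ≤ 5 / 8 * ζ * (4 * w * (r * r * r)) := by
    have a1 : 5 / 8 * ζ * (4 * w * (r * r * r)) = (5 / 2 * (ζ * w)) * (r * r * r) := by ring
    rw [a1]
    apply mul_le_mul_of_nonneg_right _ hrrr0.le
    have : ζ * 1 ≤ ζ * w := mul_le_mul_of_nonneg_left hw2 hζ0.le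
    linarith
  linarith

theorem ext_upper {n m : ℕ} (hn : 2 ≤ n) {ζ r d E : ℝ} (hζ0 : 0 < ζ)
    (hζ1 : ζ ≤ 1 / 2) (hr0 : 0 ≤ r) (hr : r * r = (m : ℝ) - n)
    (hd0 : 0 < d) (hd : d ≤ ζ ^ 2 / 16800000)
    (h1 : 1 ≤ d * r) (h2 : r * r ≤ d * n) (hE : E ∈ Energies n m) :
    E ≤ 4 * m - 2 * n - (1 - ζ) * (8 * Real.sqrt 2 * (r * r * r)) / n := by
  obtain ⟨G, _, hc, hm, rfl⟩ := hE
  obtain ⟨T, -, -, h3⟩ := top_set (by omega) G
  have hnR : (2 : ℝ) ≤ n := by exact_mod_cast hn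
  have hn0 : (0 : ℝ) < n := by linarith
  have hmR : (m : ℝ) = n + r * r := by linarith
  rw [hm] at h3
  obtain ⟨S, hS⟩ : ∃ S, S = ∑ a ∈ T, (G.isHermitian_lapMatrix ℝ).eigenvalues a := ⟨_, rfl⟩
  obtain ⟨t, ht⟩ : ∃ t : ℝ, t = T.card := ⟨_, rfl⟩
  obtain ⟨L, hL⟩ : ∃ L : ℝ, L = 2 * (m : ℝ) - n + 2 * T.card - S := ⟨_, rfl⟩
  obtain ⟨b, hb⟩ : ∃ b : ℝ, b = 2 * (r * r) / n := ⟨_, rfl⟩
  have hc' : 2 * (m : ℝ) / n = 2 + b := by rw [hb, hmR]; field_simp
  have ht0 : 0 ≤ t := by rw [ht]; exact Nat.cast_nonneg _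
  rw [h3, ← hS, ← ht, hc']
  have hL' : L = 2 * (m : ℝ) - n + 2 * T.card -
        ∑ a ∈ T, (G.isHermitian_lapMatrix ℝ).eigenvalues a := by rw [hL, hS]
  rw [← ht] at hL
  obtain ⟨Z, hZ⟩ : ∃ Z, Z = (1 - ζ) * (4 * Real.sqrt 2 * (r * r * r)) / n := ⟨_, rfl⟩
  have hZ2 : (1 - ζ) * (8 * Real.sqrt 2 * (r * r * r)) / n = 2 * Z := by rw [hZ]; ring
  rw [hZ2]
  suffices hh : Z ≤ b * t + L by linarith
  obtain ⟨hL0, s, β, hs1, hs2, hβ0, hβ1, hmain⟩ :=
    ext_loss hn G hc hm T hL' (θ := ζ / 4) (by positivity) (by linarith)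
  rw [← ht] at hs2
  rw [hZ, hb]
  exact ext_real hn0 hζ0 hζ1 hr0 hr hd0 hd h1 h2 (Real.sqrt_nonneg 2)
    (Real.mul_self_sqrt (by norm_num)) ht0 hL0 hs1 hs2 hβ0 hβ1 hmain

end Pool.Agent.T2H88.LE
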