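import Pool.Agent.T2H88.LE.Base

/-!
# The trial projections for the dense core with pendant vertices and for the balanced hubs
-/

set_option autoImplicit false

namespace Pool.Agent.T2H88.LE

open Finset Matrix Pool.Agent.Helper554.LE

section core
variable {n : ℕ}

/-- `1` on `1 .. k` -/
noncomputable def xv (n k : ℕ) (v : Fin n) : ℝ := if 0 < v.val ∧ v.val ≤ k then 1 else 0
/-- `n - 1` at `0`, `-1` elsewhere -/
noncomputable def yv (n : ℕ) (v : Fin n) : ℝ := if v.val = 0 then (n : ℝ) - 1 else -1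

theorem sum_xv {k : ℕ} (hk : k < n) : ∑ v, xv n k v = k := by
  unfold xv
  rw [← Finset.sum_filter, Finset.sum_const, card_Ioc n k hk]; simp

theorem xv_sq (k : ℕ) (v : Fin n) : xv n k v * xv n k v = xv n k v := by
  unfold xv; split_ifs <;> simp

theorem xy (k : ℕ) (v : Fin n) : xv n k v * yv n v = - xv n k v := by
  unfold xv yv
  by_cases h : 0 < v.val ∧ v.val ≤ k
  · rw [if_pos h, if_neg (by omega)]; ring
  · rw [if_neg h]; ring

theorem yv_sq (v : Fin n) : yv n v * yv n v = 1 + (if v.val = 0 then ((n : ℝ) - 1) ^ 2 - 1 else 0) := by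
  unfold yv; split_ifs <;> ring

theorem sum_zero_fin (hn : 0 < n) (a : ℝ) : ∑ v : Fin n, (if v.val = 0 then a else 0) = a := by
  have h : ∀ v : Fin n, (if v.val = 0 then a else 0) = if v = ⟨0, hn⟩ then a else 0 := by
    intro v
    by_cases h : v.val = 0
    · rw [if_pos h, if_pos (Fin.ext h)]
    · rw [if_neg h, if_neg fun hh => h (by rw [hh])]
  rw [Finset.sum_congr rfl fun v _ => h v, Finset.sum_ite_eq', if_pos (Finset.mem_univ _)]

theorem sum_yv_sq (hn : 0 < n) : ∑ v, yv n v * yv n v = (n : ℝ) * (n - 1) := by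
  rw [Finset.sum_congr rfl fun v _ => yv_sq v, Finset.sum_add_distrib, sum_zero_fin hn]
  simp
  ring

/-- the trial projection -/
noncomputable def Pc (n k : ℕ) : Matrix (Fin n) (Fin n) ℝ := fun i j =>
  yv n i * yv n j / ((n : ℝ) * (n - 1)) + (if i = j then xv n k i else 0) - xv n k i * xv n k j / k

theorem Pc_symm (k : ℕ) : (Pc n k)ᵀ = Pc n k := by
  ext i j
  rw [Matrix.transpose_apply]
  unfold Pc
  by_cases h : i = j
  · subst h; rfl
  · rw [if_neg h, if_neg (fun h' => h h'.symm)]; ring

theorem Pc_idem {k : ℕ} (hk1 : 1 ≤ k) (hk : k < n) : Pc n k * Pc n k = Pc n k := by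
  have hn : 0 < n := by omega
  have hn1 : (n : ℝ) * (n - 1) ≠ 0 := by
    have h1 : (2 : ℝ) ≤ n := by exact_mod_cast (show 2 ≤ n by omega)
    exact mul_ne_zero (by linarith) (by linarith)
  have hkR : (k : ℝ) ≠ 0 := by
    have : (1 : ℝ) ≤ k := by exact_mod_cast hk1
    linarith
  ext i j
  rw [Matrix.mul_apply]
  set N : ℝ := (n : ℝ) * (n - 1) with hN
  have h1 : ∀ w, Pc n k i w * Pc n k w j =
      (yv n i * yv n j / N ^ 2) * (yv n w * yv n w)
      + (yv n i / N) * (if w = j then yv n w * xv n k w else 0)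
      - (yv n i * xv n k j / (N * k)) * (xv n k w * yv n w)
      + (yv n j / N) * (if i = w then xv n k w * yv n w else 0)
      + (if i = w then (if w = j then xv n k w * xv n k w else 0) else 0)
      - (xv n k j / k) * (if i = w then xv n k w * xv n k w else 0)
      - (xv n k i * yv n j / (N * k)) * (xv n k w * yv n w)
      - (xv n k i / k) * (if w = j then xv n k w * xv n k w else 0)
      + (xv n k i * xv n k j / k ^ 2) * (xv n k w * xv n k w) := by
    intro w
    unfold Pc
    rw [← hN]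
    by_cases c1 : i = w
    · by_cases c2 : w = j
      · subst c1; subst c2
        simp only [if_true]
        field_simp
        ring
      · subst c1
        simp only [c2, if_true, if_false]
        field_simp
        ring
    · by_cases c2 : w = j
      · subst c2
        simp only [c1, if_true, if_false]
        field_simp
        ring
      · simp only [c1, c2, if_false]
        field_simp
        ring
  rw [Finset.sum_congr rfl fun w _ => h1 w]
  simp only [Finset.sum_add_distrib, Finset.sum_sub_distrib, ← Finset.mul_sum]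
  simp only [Finset.sum_ite_eq, Finset.sum_ite_eq', Finset.mem_univ, if_true]
  rw [sum_yv_sq hn, Finset.sum_congr rfl fun w _ => xy k w, Finset.sum_neg_distrib,
    Finset.sum_congr rfl fun w _ => xv_sq k w, sum_xv hk]
  rw [mul_comm (yv n j) (xv n k j), xy, xy, xv_sq, xv_sq, ← hN]
  unfold Pc
  rw [← hN]
  by_cases c : i = j
  · subst c
    simp only [if_true]
    field_simp
    ring
  · rw [if_neg c]
    field_simp
    ring

theorem Pc_trace {k : ℕ} (hk1 : 1 ≤ k) (hk : k < n) : (Pc n k).trace = k := by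
  have hn : 0 < n := by omega
  have hn1 : (n : ℝ) * (n - 1) ≠ 0 := by
    have h1 : (2 : ℝ) ≤ n := by exact_mod_cast (show 2 ≤ n by omega)
    exact mul_ne_zero (by linarith) (by linarith)
  have hkR : (k : ℝ) ≠ 0 := by
    have : (1 : ℝ) ≤ k := by exact_mod_cast hk1
    linarith
  rw [Matrix.trace]
  have h1 : ∀ v, (Pc n k).diag v = (1 / ((n : ℝ) * (n - 1))) * (yv n v * yv n v)
      + (1 - 1 / k) * xv n k v := by
    intro v
    rw [Matrix.diag_apply]
    unfold Pc
    rw [if_pos rfl, xv_sq]
    ring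
  rw [Finset.sum_congr rfl fun v _ => h1 v, Finset.sum_add_distrib, ← Finset.mul_sum,
    ← Finset.mul_sum, sum_yv_sq hn, sum_xv hk, one_div_mul_cancel hn1, sub_mul,
    one_div_mul_cancel hkR]
  ring

theorem Pc_star {k : ℕ} (hk : k < n) (hk1 : 1 ≤ k) {u v : Fin n} (hu : u.val = 0)
    (hv : 0 < v.val) :
    Pc n k u u + Pc n k v v - 2 * Pc n k u v = n / (n - 1) + (1 - 1 / k) * xv n k v := by
  have h1 : (2 : ℝ) ≤ n := by exact_mod_cast (show 2 ≤ n by omega)
  have hn0 : (n : ℝ) ≠ 0 := by linarith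
  have hn1 : (n : ℝ) - 1 ≠ 0 := by linarith
  have huv : u ≠ v := fun h => by rw [h] at hu; omega
  have e1 : xv n k u = 0 := by unfold xv; rw [if_neg (by omega)]
  have e2 : yv n u = n - 1 := by unfold yv; rw [if_pos hu]
  have e3 : yv n v = -1 := by unfold yv; rw [if_neg (by omega)]
  unfold Pc
  rw [if_pos rfl, if_pos rfl, if_neg huv, xv_sq k u, xv_sq k v, e1, e2, e3]
  have hkR : (k : ℝ) ≠ 0 := by
    have : (1 : ℝ) ≤ k := by exact_mod_cast hk1
    linarith
  field_simp
  ring

theorem Pc_core {k : ℕ} {u v : Fin n} (huv : u ≠ v)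
    (hu : 0 < u.val) (hu' : u.val ≤ k) (hv : 0 < v.val) (hv' : v.val ≤ k) :
    Pc n k u u + Pc n k v v - 2 * Pc n k u v = 2 := by
  have e1 : xv n k u = 1 := by unfold xv; rw [if_pos ⟨hu, hu'⟩]
  have e0 : xv n k v = 1 := by unfold xv; rw [if_pos ⟨hv, hv'⟩]
  have e2 : yv n u = -1 := by unfold yv; rw [if_neg (by omega)]
  have e3 : yv n v = -1 := by unfold yv; rw [if_neg (by omega)]
  unfold Pc
  rw [if_pos rfl, if_pos rfl, if_neg huv, e1, e0, e2, e3]
  ring

/-- **The dense core with pendant vertices.** -/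
theorem core_lower {n m k : ℕ} (hk1 : 1 ≤ k) (hk : k < n) (hm : n - 1 ≤ m)
    (hf : 2 * (m - (n - 1)) ≤ k * (k - 1)) :
    ∃ E ∈ Energies n m, 2 * (2 * (m : ℝ) - n + k + 1 - 2 * m / n * k) ≤ E := by
  classical
  obtain ⟨F, hFc, hF⟩ := exists_F n k (m - (n - 1)) hk hf
  have hn : 0 < n := by omega
  set p : Fin n → Fin n := fun _ => ⟨0, hn⟩ with hpdef
  have hp : ∀ v : Fin n, 0 < v.val → p v < v := fun v hv => by
    rw [Fin.lt_def]; exact hv
  have hF' : ∀ e ∈ F, e.1 < e.2 := fun e he => (hF e he).2.1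
  have hd : Disjoint (baseE p) F := by
    rw [Finset.disjoint_left]
    intro e he he'
    unfold baseE at he
    rw [Finset.mem_image] at he
    obtain ⟨v, hv, rfl⟩ := he
    exact absurd (hF _ he').1 (by simp [hpdef])
  obtain ⟨hc, he, hs⟩ := gr_props hn hp hF' hd
  have hm' : (gr (baseE p ∪ F)).edgeFinset.card = m := by rw [he, hFc]; omega
  refine ⟨lapEnergy (gr (baseE p ∪ F)), ⟨_, inferInstance, hc, hm', rfl⟩, ?_⟩
  · have h1 := energy_lb hn (gr (baseE p ∪ F)) (Pc_symm k) (Pc_idem hk1 hk)
    have h2 := trace_mul_lap (gr (baseE p ∪ F)) (Pc n k) (Pc_symm k)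
    have hsy : ∀ i j, Pc n k i i + Pc n k j j - 2 * Pc n k i j =
        Pc n k j j + Pc n k i i - 2 * Pc n k j i := by
      intro i j
      have : Pc n k i j = Pc n k j i := by
        conv_lhs => rw [← Pc_symm k]
        rfl
      rw [this]; ring
    rw [hs (fun i j => Pc n k i i + Pc n k j j - 2 * Pc n k i j) hsy] at h2
    have h3 : ∑ v ∈ Finset.univ.filter (fun v : Fin n => 0 < v.val),
        (Pc n k (p v) (p v) + Pc n k v v - 2 * Pc n k (p v) v) = n + k - 1 := by
      have e1 : ∀ v ∈ Finset.univ.filter (fun v : Fin n => 0 < v.val),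
          (Pc n k (p v) (p v) + Pc n k v v - 2 * Pc n k (p v) v) =
            n / (n - 1) + (1 - 1 / k) * xv n k v := by
        intro v hv
        rw [Finset.mem_filter] at hv
        exact Pc_star hk hk1 rfl hv.2
      rw [Finset.sum_congr rfl e1, Finset.sum_add_distrib, ← Finset.mul_sum, Finset.sum_const,
        card_pos_fin, nsmul_eq_mul]
      have e2 : ∑ v ∈ Finset.univ.filter (fun v : Fin n => 0 < v.val), xv n k v = k := by
        rw [← sum_xv hk]
        refine Finset.sum_subset (Finset.filter_subset _ _) fun v _ hv => ?_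
        unfold xv
        rw [if_neg]
        intro h
        exact hv (by simp [h.1])
      rw [e2, Nat.cast_sub (by omega)]
      have h1 : (2 : ℝ) ≤ n := by exact_mod_cast (show 2 ≤ n by omega)
      have hn0 : (n : ℝ) - 1 ≠ 0 := by linarith
      have hkR : (k : ℝ) ≠ 0 := by
        have : (1 : ℝ) ≤ k := by exact_mod_cast hk1
        linarith
      push_cast
      field_simp
      ring
    have h4 : ∑ e ∈ F, (Pc n k e.1 e.1 + Pc n k e.2 e.2 - 2 * Pc n k e.1 e.2) = 2 * F.card := by
      have e1 : ∀ e ∈ F, (Pc n k e.1 e.1 + Pc n k e.2 e.2 - 2 * Pc n k e.1 e.2) = 2 := by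
        intro e he
        obtain ⟨a1, a2, a3⟩ := hF e he
        rw [Fin.lt_def] at a2
        exact Pc_core (by intro h; rw [h] at a2; omega) a1 (by omega) (by omega) a3
      rw [Finset.sum_congr rfl e1]; simp [mul_comm]
    rw [h3, h4, hFc, Nat.cast_sub hm, Nat.cast_sub (by omega)] at h2
    rw [Pc_trace hk1 hk, hm'] at h1
    push_cast at h2
    linarith

end core

end Pool.Agent.T2H88.LE
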