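import Pool.Agent.T2H88.LE.Ext1

/-!
# The loss for linearly many extra edges: local lemmas
-/

set_option autoImplicit false

namespace Pool.Agent.T2H88.LE

open Finset Matrix Pool.Agent.Helper554.LE

section abs
variable {n : ℕ} {x : Fin n → Fin n → ℝ} {T : Finset (Fin n)}

/-- the mass outside `T` -/
noncomputable def av (x : Fin n → Fin n → ℝ) (T : Finset (Fin n)) (v : Fin n) : ℝ :=
  ∑ a ∈ Tᶜ, (x a v) ^ 2

theorem av_nonneg (v : Fin n) : 0 ≤ av x T v := Finset.sum_nonneg fun _ _ => sq_nonneg _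

theorem diag_one (hO : ∀ i j, ∑ a, x a i * x a j = if i = j then 1 else 0) (v : Fin n) :
    ∑ a, (x a v) ^ 2 = 1 := by
  have := hO v v
  rw [if_pos rfl] at this
  rw [← this]
  exact Finset.sum_congr rfl fun a _ => by ring

theorem av_le_one (hO : ∀ i j, ∑ a, x a i * x a j = if i = j then 1 else 0) (v : Fin n) :
    av x T v ≤ 1 := by
  rw [← diag_one hO v]
  exact Finset.sum_le_sum_of_subset_of_nonneg (Finset.subset_univ _) fun _ _ _ => sq_nonneg _

/-- a star costs a nonnegative amount -/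
theorem star_cost (hO : ∀ i j, ∑ a, x a i * x a j = if i = j then 1 else 0) {w : Fin n}
    (F : Finset (Fin n)) (hwF : w ∉ F) (hF : F.Nonempty) :
    0 ≤ ∑ v ∈ F, (tpsi x T v w + 1 - 2 * av x T v) + (1 - 2 * av x T w) := by
  obtain ⟨q, hq⟩ : ∃ q : ℝ, q = F.card := ⟨_, rfl⟩
  have hq1 : 1 ≤ q := by rw [hq]; exact_mod_cast Finset.card_pos.2 hF
  obtain ⟨Y, hY⟩ : ∃ Y : Fin n → ℝ, Y = fun a => ∑ v ∈ F, x a v := ⟨_, rfl⟩
  have hYY : ∑ a, (Y a) ^ 2 = q := by
    have := bil hO F F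
    rw [Finset.inter_self, ← hq] at this
    rw [← this, hY]
    exact Finset.sum_congr rfl fun a _ => by ring
  have hYx : ∑ a, Y a * x a w = 0 := by
    have := bil hO F {w}
    rw [Finset.inter_singleton_of_notMem hwF] at this
    simp only [Finset.sum_singleton, Finset.card_empty, Nat.cast_zero] at this
    rw [← this, hY]
  have hxx := diag_one hO w
  -- the identity
  have e1 : ∑ v ∈ F, (tpsi x T v w + 1 - 2 * av x T v) + (1 - 2 * av x T w) =
      q + 1 + ∑ a ∈ Tᶜ, (2 * (q - 1) * (x a w) ^ 2 - ∑ v ∈ F, (x a v + x a w) ^ 2) := by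
    have e2 : ∑ v ∈ F, (tpsi x T v w + 1 - 2 * av x T v) =
        q + ∑ a ∈ Tᶜ, ∑ v ∈ F, ((x a v - x a w) ^ 2 - 2 * (x a v) ^ 2) := by
      rw [Finset.sum_comm]
      have : ∀ v ∈ F, tpsi x T v w + 1 - 2 * av x T v =
          1 + ∑ a ∈ Tᶜ, ((x a v - x a w) ^ 2 - 2 * (x a v) ^ 2) := by
        intro v _
        rw [Finset.sum_sub_distrib, ← Finset.mul_sum]
        unfold tpsi av; ring
      rw [Finset.sum_congr rfl this, Finset.sum_add_distrib, Finset.sum_const, nsmul_eq_mul,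
        mul_one, ← hq]
    rw [e2]
    have e3 : ∀ a, 2 * (q - 1) * (x a w) ^ 2 - ∑ v ∈ F, (x a v + x a w) ^ 2 =
        ∑ v ∈ F, ((x a v - x a w) ^ 2 - 2 * (x a v) ^ 2) - 2 * (x a w) ^ 2 := by
      intro a
      have e4 : ∀ v ∈ F, (x a v - x a w) ^ 2 - 2 * (x a v) ^ 2 =
          2 * (x a w) ^ 2 - (x a v + x a w) ^ 2 := fun v _ => by ring
      rw [Finset.sum_congr rfl e4, Finset.sum_sub_distrib, Finset.sum_const, nsmul_eq_mul, ← hq]
      ring
    rw [Finset.sum_congr rfl fun a _ => e3 a, Finset.sum_sub_distrib, ← Finset.mul_sum]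
    unfold av; ring
  rw [e1]
  have s1 := split_T (T := T) (fun a => 2 * (q - 1) * (x a w) ^ 2 -
    ∑ v ∈ F, (x a v + x a w) ^ 2)
  try simp only at s1
  have t1 : ∑ a, (2 * (q - 1) * (x a w) ^ 2 - ∑ v ∈ F, (x a v + x a w) ^ 2) = -2 := by
    have e5 : ∀ v ∈ F, ∑ a, (x a v + x a w) ^ 2 = 2 := by
      intro v hv
      have h0 : v ≠ w := fun h => hwF (h ▸ hv)
      have e6 : ∀ a, (x a v + x a w) ^ 2 = x a v * x a v + x a w * x a w + 2 * (x a v * x a w) :=
        fun a => by ring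
      rw [Finset.sum_congr rfl fun a _ => e6 a, Finset.sum_add_distrib, Finset.sum_add_distrib,
        ← Finset.mul_sum, hO, hO, hO, if_pos rfl, if_pos rfl, if_neg h0]
      norm_num
    rw [Finset.sum_sub_distrib, ← Finset.mul_sum, hxx, Finset.sum_comm,
      Finset.sum_congr rfl e5, Finset.sum_const, nsmul_eq_mul, ← hq]
    ring
  rw [s1, t1]
  have c1 : ∀ a, q * ∑ v ∈ F, (x a v + x a w) ^ 2 ≥ (Y a + q * x a w) ^ 2 := by
    intro a
    have := sq_sum_le_card_mul_sum_sq (s := F) (f := fun v => x a v + x a w)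
    rw [← hq, Finset.sum_add_distrib, Finset.sum_const, nsmul_eq_mul, ← hq] at this
    rw [hY]; exact this
  -- g
  have c2 : ∑ a ∈ T, (Y a + q * x a w) ^ 2 = q ^ 2 + q - ∑ a ∈ Tᶜ, (Y a + q * x a w) ^ 2 := by
    have := split_T (T := T) (fun a => (Y a + q * x a w) ^ 2)
    have e7 : ∑ a, (Y a + q * x a w) ^ 2 = q ^ 2 + q := by
      have : ∀ a, (Y a + q * x a w) ^ 2 = (Y a) ^ 2 + 2 * q * (Y a * x a w) +
          q ^ 2 * (x a w) ^ 2 := fun a => by ring
      rw [Finset.sum_congr rfl fun a _ => this a, Finset.sum_add_distrib, Finset.sum_add_distrib,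
        ← Finset.mul_sum, ← Finset.mul_sum, hYY, hYx, hxx]
      ring
    try simp only at this
    rw [e7] at this
    linarith
  have c3 : ∑ a ∈ T, (x a w) ^ 2 = 1 - av x T w := by
    have := split_T (T := T) (fun a => (x a w) ^ 2)
    try simp only at this
    rw [hxx] at this
    unfold av
    linarith
  have c4 : ∑ a ∈ Tᶜ, (Y a + q * x a w) ^ 2 ≤
      2 * q / (q + 1) * ∑ a ∈ Tᶜ, (Y a + x a w) ^ 2 + 2 * q * (q - 1) * av x T w := by
    unfold av
    rw [Finset.mul_sum, Finset.mul_sum, ← Finset.sum_add_distrib]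
    refine Finset.sum_le_sum fun a _ => ?_
    obtain ⟨U, hU⟩ : ∃ U, U = Y a + x a w := ⟨_, rfl⟩
    have e8 : Y a = U - x a w := by rw [hU]; ring
    rw [e8, sub_add_cancel]
    obtain ⟨z, hz⟩ : ∃ z, z = x a w := ⟨_, rfl⟩
    rw [← hz]
    have e9 : 2 * q / (q + 1) * U ^ 2 + 2 * q * (q - 1) * z ^ 2 - (U - z + q * z) ^ 2 =
        (q - 1) / (q + 1) * (U - (q + 1) * z) ^ 2 := by
      have : q + 1 ≠ 0 := by linarith
      field_simp
      ring
    have e10 : 0 ≤ (q - 1) / (q + 1) * (U - (q + 1) * z) ^ 2 :=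
      mul_nonneg (div_nonneg (by linarith) (by linarith)) (sq_nonneg _)
    linarith
  have c5 : ∑ a ∈ Tᶜ, (Y a + x a w) ^ 2 ≤ q + 1 := by
    have e11 : ∑ a, (Y a + x a w) ^ 2 = q + 1 := by
      have : ∀ a, (Y a + x a w) ^ 2 = (Y a) ^ 2 + 2 * (Y a * x a w) + (x a w) ^ 2 :=
        fun a => by ring
      rw [Finset.sum_congr rfl fun a _ => this a, Finset.sum_add_distrib, Finset.sum_add_distrib,
        ← Finset.mul_sum, hYY, hYx, hxx]
      ring
    rw [← e11]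
    exact Finset.sum_le_sum_of_subset_of_nonneg (Finset.subset_univ _) fun _ _ _ => sq_nonneg _
  have c6 : 2 * q / (q + 1) * ∑ a ∈ Tᶜ, (Y a + x a w) ^ 2 ≤ 2 * q := by
    have : 2 * q / (q + 1) * (q + 1) = 2 * q := by
      have : q + 1 ≠ 0 := by linarith
      field_simp
    exact (mul_le_mul_of_nonneg_left c5 (div_nonneg (by linarith) (by linarith))).trans this.le
  have c7 : ∑ a ∈ T, (Y a + q * x a w) ^ 2 ≤ q * ∑ a ∈ T, ∑ v ∈ F, (x a v + x a w) ^ 2 := by
    rw [Finset.mul_sum]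
    exact Finset.sum_le_sum fun a _ => c1 a
  rw [Finset.sum_sub_distrib, ← Finset.mul_sum, c3]
  obtain ⟨W, hW⟩ : ∃ W, W = ∑ a ∈ T, ∑ v ∈ F, (x a v + x a w) ^ 2 := ⟨_, rfl⟩
  rw [← hW] at c7 ⊢
  have c8 : q * 0 ≤ q * (q + 1 + (-2 - (2 * (q - 1) * (1 - av x T w) - W))) := by
    rw [c2] at c7
    linarith
  exact le_of_mul_le_mul_left c8 (by linarith)

/-- the cost at a core vertex -/
theorem core_cost (hO : ∀ i j, ∑ a, x a i * x a j = if i = j then 1 else 0) {w : Fin n}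
    (F : Finset (Fin n)) :
    1 + ((F.card : ℝ) - 2) * av x T w - 2 * ∑ a ∈ Tᶜ, x a w * ∑ v ∈ F, x a v ≤
      ∑ v ∈ F, (tpsi x T v w + 1 - 2 * av x T v) + (1 - 2 * av x T w) := by
  have h1 : ∀ v ∈ F, av x T w - 2 * ∑ a ∈ Tᶜ, x a w * x a v ≤
      tpsi x T v w + 1 - 2 * av x T v := by
    intro v _
    have h2 := av_le_one (T := T) hO v
    have h3 : tpsi x T v w = av x T v + av x T w - 2 * ∑ a ∈ Tᶜ, x a w * x a v := by
      unfold tpsi av
      rw [Finset.mul_sum, ← Finset.sum_add_distrib, ← Finset.sum_sub_distrib]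
      exact Finset.sum_congr rfl fun a _ => by ring
    linarith
  have h4 := Finset.sum_le_sum h1
  rw [Finset.sum_sub_distrib, Finset.sum_const, nsmul_eq_mul, ← Finset.mul_sum,
    Finset.sum_comm] at h4
  have h5 : ∀ a ∈ Tᶜ, ∑ v ∈ F, x a w * x a v = x a w * ∑ v ∈ F, x a v := fun a _ => by
    rw [Finset.mul_sum]
  rw [Finset.sum_congr rfl h5] at h4
  linarith

/-- few edges at an intermediate vertex -/
theorem mid_edges (hO : ∀ i j, ∑ a, x a i * x a j = if i = j then 1 else 0) {i : Fin n}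
    (N : Finset (Fin n)) {η : ℝ} (hη : 0 < η) (hi : η ≤ av x T i) :
    (N.card : ℝ) ≤ 2 / η * (∑ j ∈ N, tpsi x T i j + 2) := by
  obtain ⟨d, hd⟩ : ∃ d : ℝ, d = N.card := ⟨_, rfl⟩
  have hd0 : 0 ≤ d := by rw [hd]; exact Nat.cast_nonneg _
  have hψ0 : 0 ≤ ∑ j ∈ N, tpsi x T i j := Finset.sum_nonneg fun v _ => tpsi_nonneg _ _
  rw [← hd]
  rcases eq_or_lt_of_le hd0 with h0 | h0
  · rw [← h0]; positivity
  have h1 : ∑ j ∈ N, tpsi x T i j ≥ d * av x T i - 2 * ∑ a ∈ Tᶜ, x a i * ∑ j ∈ N, x a j := by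
    have h2 : ∀ j ∈ N, av x T i - 2 * ∑ a ∈ Tᶜ, x a i * x a j ≤ tpsi x T i j := by
      intro j _
      have h3 : tpsi x T i j = av x T i + av x T j - 2 * ∑ a ∈ Tᶜ, x a i * x a j := by
        unfold tpsi av
        rw [Finset.mul_sum, ← Finset.sum_add_distrib, ← Finset.sum_sub_distrib]
        exact Finset.sum_congr rfl fun a _ => by ring
      have := av_nonneg (x := x) (T := T) j
      linarith
    have h4 := Finset.sum_le_sum h2
    rw [Finset.sum_sub_distrib, Finset.sum_const, nsmul_eq_mul, ← hd, ← Finset.mul_sum,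
      Finset.sum_comm] at h4
    have h5 : ∀ a ∈ Tᶜ, ∑ v ∈ N, x a i * x a v = x a i * ∑ v ∈ N, x a v := fun a _ => by
      rw [Finset.mul_sum]
    rw [Finset.sum_congr rfl h5] at h4
    exact h4
  have h6 : 2 * ∑ a ∈ Tᶜ, x a i * ∑ j ∈ N, x a j ≤ d / 2 * av x T i + 2 := by
    have h7 : ∀ a ∈ Tᶜ, 2 * (x a i * ∑ j ∈ N, x a j) ≤
        d / 2 * (x a i) ^ 2 + 2 / d * (∑ j ∈ N, x a j) ^ 2 := by
      intro a _
      obtain ⟨S, hS⟩ : ∃ S, S = ∑ j ∈ N, x a j := ⟨_, rfl⟩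
      rw [← hS]
      have : d / 2 * (x a i) ^ 2 + 2 / d * S ^ 2 - 2 * (x a i * S) =
          (d * x a i - 2 * S) ^ 2 / (2 * d) := by
        field_simp
        ring
      have h8 : 0 ≤ (d * x a i - 2 * S) ^ 2 / (2 * d) := by positivity
      linarith
    have h9 := Finset.sum_le_sum h7
    rw [Finset.sum_add_distrib, ← Finset.mul_sum, ← Finset.mul_sum, ← Finset.mul_sum] at h9
    have h10 : ∑ a ∈ Tᶜ, (∑ j ∈ N, x a j) ^ 2 ≤ d := by
      have := bil hO N N
      rw [Finset.inter_self, ← hd] at this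
      rw [← this]
      refine le_trans (Finset.sum_le_sum_of_subset_of_nonneg (Finset.subset_univ _)
        fun _ _ _ => sq_nonneg _) (le_of_eq ?_)
      exact Finset.sum_congr rfl fun a _ => by ring
    have h11 : 2 / d * ∑ a ∈ Tᶜ, (∑ j ∈ N, x a j) ^ 2 ≤ 2 := by
      have : 2 / d * d = 2 := by field_simp
      calc 2 / d * ∑ a ∈ Tᶜ, (∑ j ∈ N, x a j) ^ 2 ≤ 2 / d * d :=
            mul_le_mul_of_nonneg_left h10 (by positivity)
        _ = 2 := this
    unfold av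
    linarith
  have h12 : d / 2 * η ≤ d / 2 * av x T i := mul_le_mul_of_nonneg_left hi (by linarith)
  have h13 : d * (η / 2) ≤ ∑ j ∈ N, tpsi x T i j + 2 := by linarith
  rw [div_mul_eq_mul_div, le_div_iff₀ hη]
  linarith

end abs

end Pool.Agent.T2H88.LE
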