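import Pool.Agent.T2H88.LE.Lin1

/-!
# The loss for linearly many extra edges: forests and the decomposition of the loss
-/

set_option autoImplicit false

namespace Pool.Agent.T2H88.LE

open Finset Matrix Pool.Agent.Helper554.LE Pool.Helper237.Brouwer

theorem forest {n : ℕ} (hn : 2 ≤ n) (G : SimpleGraph (Fin n)) (hc : G.Connected)
    (C : Finset (Fin n)) : ∃ p : Fin n → Fin n, (∀ v, p (p v) = p v) ∧
      (∀ v, p v ≠ v → G.Adj v (p v)) ∧ (∀ w ∈ C, p w = w) ∧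
      (∀ w, w ∉ C → p w = w → ∃ v, v ≠ w ∧ p v = w) := by
  classical
  obtain ⟨Y, hY⟩ : ∃ Y : Set (Fin n), Y = {v | v ∉ C ∧ ∀ u ∈ C, ¬ G.Adj v u} := ⟨_, rfl⟩
  obtain ⟨Z, hZ⟩ : ∃ Z : Set (Fin n), Z = {v | v ∉ C ∧ (v ∈ Y ∨ ∃ y ∈ Y, G.Adj v y)} := ⟨_, rfl⟩
  have hYZ : ∀ v ∈ Y, v ∈ Z := fun v hv => by
    rw [hZ]; exact ⟨by rw [hY] at hv; exact hv.1, Or.inl hv⟩
  have hnb : ∀ v : Z, ∃ u, (G.induce Z).Adj v u := by
    rintro ⟨v, hv⟩
    have hv' := hv
    rw [hZ] at hv'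
    rcases hv'.2 with h | ⟨y, hy, hvy⟩
    · obtain ⟨u, hu⟩ := exists_nbr hn hc v
      have h' := h
      rw [hY] at h'
      have huC : u ∉ C := fun h2 => h'.2 u h2 hu
      refine ⟨⟨u, ?_⟩, hu⟩
      rw [hZ]
      exact ⟨huC, Or.inr ⟨v, h, hu.symm⟩⟩
    · exact ⟨⟨y, hYZ y hy⟩, hvy⟩
  obtain ⟨p₀, h1, h2, h3⟩ := star_partition (G.induce Z) hnb
  have hex : ∀ v, v ∉ Z → v ∉ C → ∃ u ∈ C, G.Adj v u := by
    intro v hvZ hvC
    by_contra hcon
    push Not at hcon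
    exact hvZ (hYZ v (by rw [hY]; exact ⟨hvC, hcon⟩))
  choose! f hf using hex
  obtain ⟨p, hp⟩ : ∃ p : Fin n → Fin n, p = fun v =>
    if h : v ∈ Z then (p₀ ⟨v, h⟩).1 else if v ∈ C then v else f v := ⟨_, rfl⟩
  have hpZ : ∀ v (h : v ∈ Z), p v = (p₀ ⟨v, h⟩).1 := fun v h => by rw [hp]; simp [h]
  have hCZ : ∀ v ∈ C, v ∉ Z := fun v hv h => by rw [hZ] at h; exact h.1 hv
  have hpC : ∀ v ∈ C, p v = v := fun v hv => by rw [hp]; simp [hCZ v hv, hv]
  have hpN : ∀ v, v ∉ Z → v ∉ C → p v = f v := fun v h h' => by rw [hp]; simp [h, h']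
  refine ⟨p, ?_, ?_, hpC, ?_⟩
  · intro v
    by_cases h : v ∈ Z
    · rw [hpZ v h, hpZ _ (p₀ ⟨v, h⟩).2]
      have : (⟨(p₀ ⟨v, h⟩).1, (p₀ ⟨v, h⟩).2⟩ : Z) = p₀ ⟨v, h⟩ := rfl
      rw [this, h1]
    · by_cases h' : v ∈ C
      · rw [hpC v h', hpC v h']
      · rw [hpN v h h']; exact hpC _ (hf v h h').1
  · intro v hv
    by_cases h : v ∈ Z
    · rw [hpZ v h] at hv ⊢
      exact h2 ⟨v, h⟩ (fun h4 => hv (by rw [h4]))
    · by_cases h' : v ∈ C
      · exact absurd (hpC v h') hv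
      · rw [hpN v h h']; exact (hf v h h').2
  · intro w hwC hw
    have hwZ : w ∈ Z := by
      by_contra h
      rw [hpN w h hwC] at hw
      exact hwC (hw ▸ (hf w h hwC).1)
    rw [hpZ w hwZ] at hw
    obtain ⟨v, hv1, hv2⟩ := h3 ⟨w, hwZ⟩ (Subtype.ext hw)
    refine ⟨v.1, fun h => hv1 (Subtype.ext h), ?_⟩
    rw [hpZ v.1 v.2, hv2]

theorem cost_eq {n : ℕ} (G : SimpleGraph (Fin n)) [DecidableRel G.Adj] {p : Fin n → Fin n}
    (hp : ∀ v, p (p v) = p v) (ha : ∀ v, p v ≠ v → G.Adj v (p v)) (T : Finset (Fin n)) :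
    2 * (2 * (G.edgeFinset.card : ℝ) - n + 2 * T.card -
      ∑ a ∈ T, (G.isHermitian_lapMatrix ℝ).eigenvalues a) =
      ∑ i, ∑ j, (if (hh G p).Adj i j then tpsi (xx G) T i j else 0) +
      2 * ∑ w ∈ ctr p, (∑ v ∈ (cls p w).erase w, (tpsi (xx G) T v w + 1 - 2 * av (xx G) T v) +
        (1 - 2 * av (xx G) T w)) := by
  have h1 : ∑ a ∈ T, (G.isHermitian_lapMatrix ℝ).eigenvalues a +
      ∑ a ∈ Tᶜ, (G.isHermitian_lapMatrix ℝ).eigenvalues a = 2 * (G.edgeFinset.card : ℝ) := by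
    rw [Finset.sum_add_sum_compl]
    have h3 : (G.lapMatrix ℝ).trace = ∑ i, (G.isHermitian_lapMatrix ℝ).eigenvalues i := by
      have := (G.isHermitian_lapMatrix ℝ).trace_eq_sum_eigenvalues
      simpa using this
    rw [← h3, trace_lap]
  have h2 : 2 * ∑ a ∈ Tᶜ, (G.isHermitian_lapMatrix ℝ).eigenvalues a =
      ∑ i, ∑ j, (if (hh G p).Adj i j then tpsi (xx G) T i j else 0) +
        2 * ∑ a ∈ Tᶜ, ∑ v, (xx G a v - xx G a (p v)) ^ 2 := by
    rw [Finset.mul_sum, Finset.sum_congr rfl fun a _ => eigen_eq G a]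
    have e1 : ∀ a, ∑ i, ∑ j, (if G.Adj i j then
        ((G.isHermitian_lapMatrix ℝ).eigenvectorBasis a i -
        (G.isHermitian_lapMatrix ℝ).eigenvectorBasis a j) ^ 2 else 0) =
        ∑ i, ∑ j, (if (hh G p).Adj i j then (xx G a i - xx G a j) ^ 2 else 0) +
        2 * ∑ v, (xx G a v - xx G a (p v)) ^ 2 := by
      intro a
      have := adj_split G hp ha (fun i j => (xx G a i - xx G a j) ^ 2) (fun i j => by ring)
      have e2 : (∑ v, if p v ≠ v then (xx G a v - xx G a (p v)) ^ 2 else 0) =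
          ∑ v, (xx G a v - xx G a (p v)) ^ 2 := by
        refine Finset.sum_congr rfl fun v _ => ?_
        by_cases h : p v = v
        · rw [if_neg (by simpa using h), h]; ring
        · rw [if_pos h]
      rw [e2] at this
      exact this
    rw [Finset.sum_congr rfl fun a _ => e1 a, Finset.sum_add_distrib, ← Finset.mul_sum]
    congr 1
    rw [Finset.sum_comm]
    refine Finset.sum_congr rfl fun i _ => ?_
    rw [Finset.sum_comm]
    refine Finset.sum_congr rfl fun j _ => ?_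
    by_cases h : (hh G p).Adj i j
    · simp only [if_pos h]; rfl
    · simp only [if_neg h, Finset.sum_const_zero]
  have h3 : ∑ v, av (xx G) T v = n - T.card := by
    unfold av
    rw [Finset.sum_comm, Finset.sum_congr rfl fun a _ => xx_norm G a, Finset.sum_const,
      nsmul_eq_mul, mul_one, Finset.card_compl, Fintype.card_fin,
      Nat.cast_sub (by simpa using Finset.card_le_univ T)]
  have h4 : ∑ a ∈ Tᶜ, ∑ v, (xx G a v - xx G a (p v)) ^ 2 = ∑ v, tpsi (xx G) T v (p v) := by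
    rw [Finset.sum_comm]; rfl
  have h5 : ∑ w ∈ ctr p, (∑ v ∈ (cls p w).erase w,
      (tpsi (xx G) T v w + 1 - 2 * av (xx G) T v) + (1 - 2 * av (xx G) T w)) =
      ∑ v, (tpsi (xx G) T v (p v) + 1 - 2 * av (xx G) T v) := by
    rw [sum_stars hp]
    refine Finset.sum_congr rfl fun w hw => ?_
    have hw' : p w = w := (Finset.mem_filter.1 hw).2
    rw [← Finset.sum_erase_add _ _ (mem_cls_self hw')]
    congr 1
    · refine Finset.sum_congr rfl fun v hv => ?_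
      have : p v = w := by
        have := Finset.mem_of_mem_erase hv
        unfold cls at this
        simpa using this
      rw [this]
    · rw [hw']
      have : tpsi (xx G) T w w = 0 := by unfold tpsi; simp
      rw [this]; ring
  rw [h5]
  rw [h4] at h2
  rw [Finset.sum_sub_distrib, Finset.sum_add_distrib, ← Finset.mul_sum, h3]
  simp only [Finset.sum_const, Finset.card_univ, Fintype.card_fin, nsmul_eq_mul, mul_one]
  linarith

end Pool.Agent.T2H88.LE
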