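import Pool.Agent.T2H88.LE.Lin2

/-!
# The loss for linearly many extra edges: the main inequality
-/

set_option autoImplicit false

namespace Pool.Agent.T2H88.LE

open Finset Matrix Pool.Agent.Helper554.LE Pool.Helper237.Brouwer

theorem vert_real {q a u σ B C₀ c₀ η X : ℝ} (hσ : 0 < σ) (hB : 0 ≤ B)
    (hC : C₀ = 2 + (2 + B) / σ) (hc : c₀ = 2 * (C₀ + B) / σ) (hη : (2 + c₀) * η ≤ σ / 2)
    (hq : 0 ≤ q) (ha0 : 0 ≤ a) (ha : a ≤ η) (hu0 : 0 ≤ u) (hu1 : u ≤ 1)
    (hX : ∀ c : ℝ, 0 < c → X ≤ c * a + ((1 - u) ^ 2 * q + B) / c) :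
    2 * u - u ^ 2 - σ ≤ 1 + (q - 2) * a - X := by
  have h1 : (1 - u) ^ 2 ≤ 1 := by nlinarith
  have hD : 0 < (2 + B) / σ := by positivity
  by_cases h : C₀ ≤ q
  · have h2 : (2 + B) / σ ≤ q - 2 := by linarith
    have h3 : 0 < q - 2 := by linarith
    have h4 := hX (q - 2) h3
    have h5 : ((1 - u) ^ 2 * q + B) / (q - 2) ≤ (1 - u) ^ 2 + σ := by
      rw [div_le_iff₀ h3]
      have h6 : 2 + B ≤ σ * (q - 2) := by
        rw [div_le_iff₀ hσ] at h2; linarith
      nlinarith
    nlinarith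
  · rw [not_le] at h
    have hC0 : 0 < C₀ := by linarith
    have hc0 : 0 < c₀ := by rw [hc]; positivity
    have h4 := hX c₀ hc0
    have h5 : ((1 - u) ^ 2 * q + B) / c₀ ≤ σ / 2 := by
      rw [div_le_iff₀ hc0, hc]
      have : σ / 2 * (2 * (C₀ + B) / σ) = C₀ + B := by field_simp
      rw [this]
      have : (1 - u) ^ 2 * q ≤ 1 * q := mul_le_mul_of_nonneg_right h1 hq
      linarith
    have h6 : c₀ * a ≤ c₀ * η := mul_le_mul_of_nonneg_left ha hc0.le
    have h7 : 0 ≤ q * a := mul_nonneg hq ha0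
    nlinarith [sq_nonneg (1 - u)]

theorem lin_loss {n m : ℕ} (hn : 2 ≤ n) (G : SimpleGraph (Fin n)) [DecidableRel G.Adj]
    (hc : G.Connected) (hm : G.edgeFinset.card = m) (T : Finset (Fin n)) {L : ℝ}
    (hL : L = 2 * (m : ℝ) - n + 2 * T.card -
      ∑ a ∈ T, (G.isHermitian_lapMatrix ℝ).eigenvalues a)
    {η σ B C₀ c₀ : ℝ} (hη0 : 0 < η) (hη1 : η ≤ 1 / 2) (hσ : 0 < σ) (hB : 0 ≤ B)
    (hC₀ : C₀ = 2 + (2 + B) / σ) (hc₀ : c₀ = 2 * (C₀ + B) / σ) (hη : (2 + c₀) * η ≤ σ / 2) :
    ∃ k h : ℝ, 0 ≤ k ∧ (1 - η) * k ≤ T.card ∧ 0 ≤ h ∧ h ≤ k * k ∧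
      2 * ((m : ℝ) - n) - 8 / η * L - 800 / η * T.card ≤ h ∧
      ∀ ξ : ℝ, 0 ≤ ξ → ξ * k ≤ 1 → ξ ^ 2 * n ≤ B →
        2 * ξ * h - ξ ^ 2 * (k * h + k * n) - σ * k ≤ L := by
  classical
  obtain ⟨x, hx⟩ : ∃ x, x = xx G := ⟨_, rfl⟩
  have O := xx_orth G
  have N : ∀ a, ∑ i, (x a i) ^ 2 = 1 := by rw [hx]; exact xx_norm G
  rw [← hx] at O
  obtain ⟨C, hC⟩ : ∃ C : Finset (Fin n), C = Finset.univ.filter (fun v => av x T v ≤ η) :=
    ⟨_, rfl⟩
  have hCm : ∀ v, v ∈ C ↔ av x T v ≤ η := fun v => by rw [hC]; simp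
  obtain ⟨p, hp, ha, hpC, hpN⟩ := forest hn G hc C
  have hcost := cost_eq G hp ha T
  rw [hm, ← hL, ← hx] at hcost
  obtain ⟨F, hF⟩ : ∃ F : Fin n → Finset (Fin n), F = fun w => (cls p w).erase w := ⟨_, rfl⟩
  obtain ⟨K, hK⟩ : ∃ K : Fin n → ℝ, K = fun w =>
    ∑ v ∈ F w, (tpsi x T v w + 1 - 2 * av x T v) + (1 - 2 * av x T w) := ⟨_, rfl⟩
  have hcost' : 2 * L = ∑ i, ∑ j, (if (hh G p).Adj i j then tpsi x T i j else 0) +
      2 * ∑ w ∈ ctr p, K w := by rw [hK, hF]; exact hcost
  clear hcost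
  obtain ⟨SP, hSP⟩ : ∃ S, S = ∑ i, ∑ j, (if (hh G p).Adj i j then tpsi x T i j else 0) :=
    ⟨_, rfl⟩
  rw [← hSP] at hcost'
  have hFw : ∀ w, w ∉ F w := fun w => by rw [hF]; simp
  have hav0 : ∀ v, 0 ≤ av x T v := fun v => av_nonneg v
  have hK0 : ∀ w, p w = w → 0 ≤ K w := by
    intro w hw
    by_cases hne : (F w).Nonempty
    · rw [hK]; exact star_cost O (F w) (hFw w) hne
    · rw [Finset.not_nonempty_iff_eq_empty] at hne
      by_cases hwC : w ∈ C
      · rw [hK]
        simp only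
        rw [hne, Finset.sum_empty]
        have := (hCm w).1 hwC
        linarith
      · obtain ⟨v, hv1, hv2⟩ := hpN w hwC hw
        have : v ∈ F w := by
          rw [hF]; simp only
          rw [Finset.mem_erase]
          exact ⟨hv1, by unfold cls; simp [hv2]⟩
        rw [hne] at this
        exact absurd this (Finset.notMem_empty v)
  have hctr : ∀ w ∈ ctr p, p w = w := fun w hw => (Finset.mem_filter.1 hw).2
  have hCctr : C ⊆ ctr p := fun w hw => by unfold ctr; simp [hpC w hw]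
  have hKs : 0 ≤ ∑ w ∈ ctr p, K w := Finset.sum_nonneg fun w hw => hK0 w (hctr w hw)
  have hKC : ∑ w ∈ C, K w ≤ ∑ w ∈ ctr p, K w :=
    Finset.sum_le_sum_of_subset_of_nonneg hCctr fun w hw _ => hK0 w (hctr w hw)
  have hpn : ∀ i j, 0 ≤ (if (hh G p).Adj i j then tpsi x T i j else 0) := fun i j => by
    split_ifs
    · exact tpsi_nonneg i j
    · exact le_refl _
  have hSPn : 0 ≤ SP := by
    rw [hSP]; exact Finset.sum_nonneg fun i _ => Finset.sum_nonneg fun j _ => hpn i j
  have hSPL : SP ≤ 2 * L := by linarith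
  obtain ⟨k, hk⟩ : ∃ k : ℝ, k = C.card := ⟨_, rfl⟩
  obtain ⟨g, hg⟩ : ∃ g : Fin n → Fin n → ℝ, g = fun i j =>
    (if G.Adj i j ∧ i ∈ C ∧ j ∈ C then 1 else 0) := ⟨_, rfl⟩
  have hg0 : ∀ i j, 0 ≤ g i j := fun i j => by rw [hg]; simp only; split_ifs <;> norm_num
  have hgs : ∀ i j, g i j = g j i := fun i j => by
    rw [hg]
    simp only
    by_cases h : G.Adj i j ∧ i ∈ C ∧ j ∈ C
    · rw [if_pos h, if_pos ⟨h.1.symm, h.2.2, h.2.1⟩]
    · rw [if_neg h, if_neg fun h' => h ⟨h'.1.symm, h'.2.2, h'.2.1⟩]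
  have hgg : ∀ i j, g i j ^ 2 = g i j := fun i j => by
    rw [hg]; simp only; split_ifs <;> norm_num
  have hgii : ∀ i, g i i = 0 := fun i => by
    rw [hg]; simp only; rw [if_neg fun h => G.loopless.irrefl _ h.1]
  obtain ⟨D, hD⟩ : ∃ D : Fin n → ℝ, D = fun i => ∑ j, g i j := ⟨_, rfl⟩
  obtain ⟨h, hh1⟩ : ∃ h : ℝ, h = ∑ i, D i := ⟨_, rfl⟩
  have hDn : ∀ i, 0 ≤ D i := fun i => by rw [hD]; exact Finset.sum_nonneg fun j _ => hg0 i j
  have hD1 : ∀ i, i ∉ C → D i = 0 := fun i hi => by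
    rw [hD]
    refine Finset.sum_eq_zero fun j _ => ?_
    rw [hg]; simp only; rw [if_neg fun h => hi h.2.1]
  have hDk : ∀ i, D i ≤ k := fun i => by
    rw [hD, hk]
    simp only
    have : ∑ j, g i j ≤ ∑ j, (if j ∈ C then (1 : ℝ) else 0) := by
      refine Finset.sum_le_sum fun j _ => ?_
      rw [hg]
      simp only
      by_cases h : j ∈ C
      · rw [if_pos h]; split_ifs <;> norm_num
      · rw [if_neg h, if_neg fun h' => h h'.2.2]
    refine this.trans (le_of_eq ?_)
    simp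
  have hhC : h = ∑ i ∈ C, D i := by
    rw [hh1]; symm
    exact Finset.sum_subset (Finset.subset_univ _) fun i _ hi => hD1 i hi
  have hk0 : 0 ≤ k := by rw [hk]; exact Nat.cast_nonneg _
  have hh0 : 0 ≤ h := by rw [hh1]; exact Finset.sum_nonneg fun i _ => hDn i
  have hhk : h ≤ k * k := by
    rw [hhC]
    calc ∑ i ∈ C, D i ≤ ∑ i ∈ C, k := Finset.sum_le_sum fun i _ => hDk i
      _ = k * k := by rw [Finset.sum_const, nsmul_eq_mul, ← hk]
  -- masses
  obtain ⟨Pd, hPd⟩ : ∃ Pd : Fin n → ℝ, Pd = fun v => ∑ a ∈ T, (x a v) ^ 2 := ⟨_, rfl⟩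
  have hPd0 : ∀ v, 0 ≤ Pd v := fun v => by
    rw [hPd]; exact Finset.sum_nonneg fun a _ => sq_nonneg _
  have hPdt : ∑ v, Pd v = T.card := by
    rw [hPd, Finset.sum_comm, Finset.sum_congr rfl fun a _ => N a]
    simp
  have hPda : ∀ v, Pd v = 1 - av x T v := fun v => by
    have h1 := split_T (T := T) (fun a => (x a v) ^ 2)
    have h2 := diag_one O v
    rw [hPd]
    unfold av
    simp only
    linarith
  have hkT : (1 - η) * k ≤ T.card := by
    rw [← hPdt]
    calc (1 - η) * k = ∑ v ∈ C, (1 - η) := by rw [Finset.sum_const, nsmul_eq_mul, ← hk]; ring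
      _ ≤ ∑ v ∈ C, Pd v := Finset.sum_le_sum fun v hv => by
          rw [hPda]; have := (hCm v).1 hv; linarith
      _ ≤ ∑ v, Pd v := Finset.sum_le_sum_of_subset_of_nonneg (Finset.subset_univ _)
          fun v _ _ => hPd0 v
  -- the count
  have hcount : 2 * ((m : ℝ) - n) - 8 / η * L - 800 / η * T.card ≤ h := by
    have e1 := adj_split G hp ha (fun _ _ => 1) (fun _ _ => rfl)
    rw [edges_eq G, hm] at e1
    have e3 : (∑ v, if p v ≠ v then (1 : ℝ) else 0) = n - (ctr p).card := by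
      have e4 : ∀ v, (if p v ≠ v then (1 : ℝ) else 0) = 1 - (if p v = v then 1 else 0) := by
        intro v
        by_cases h : p v = v
        · simp [h]
        · simp [h]
      rw [Finset.sum_congr rfl fun v _ => e4 v, Finset.sum_sub_distrib]
      unfold ctr
      simp
    rw [e3] at e1
    have hs0 : (0 : ℝ) ≤ (ctr p).card := Nat.cast_nonneg _
    obtain ⟨b, hb⟩ : ∃ b : Fin n → Fin n → ℝ, b = fun i j =>
      (if (hh G p).Adj i j ∧ i ∉ C then 1 else 0) := ⟨_, rfl⟩
    have hb0 : ∀ i j, 0 ≤ b i j := fun i j => by rw [hb]; simp only; split_ifs <;> norm_num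
    have hpt : ∀ i j, (if (hh G p).Adj i j then (1 : ℝ) else 0) ≤ g i j + (b i j + b j i) := by
      intro i j
      have z1 := hg0 i j
      have z2 := hb0 i j
      have z3 := hb0 j i
      by_cases h : (hh G p).Adj i j
      · rw [if_pos h]
        by_cases hi : i ∈ C
        · by_cases hj : j ∈ C
          · have : g i j = 1 := by rw [hg]; simp only; rw [if_pos ⟨h.1, hi, hj⟩]
            linarith
          · have : b j i = 1 := by rw [hb]; simp only; rw [if_pos ⟨h.symm, hj⟩]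
            linarith
        · have : b i j = 1 := by rw [hb]; simp only; rw [if_pos ⟨h, hi⟩]
          linarith
      · rw [if_neg h]; linarith
    have hsum := Finset.sum_le_sum fun i (_ : i ∈ Finset.univ) =>
      Finset.sum_le_sum fun j (_ : j ∈ Finset.univ) => hpt i j
    simp only [Finset.sum_add_distrib] at hsum
    have hcomm : ∑ i, ∑ j, b j i = ∑ i, ∑ j, b i j := Finset.sum_comm
    rw [hcomm] at hsum
    have hgh : ∑ i, ∑ j, g i j = h := by rw [hh1, hD]
    rw [hgh] at hsum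
    have hrow : ∀ i, ∑ j, b i j ≤ 2 / η * (∑ j, (if (hh G p).Adj i j then tpsi x T i j else 0)) +
        400 / η * Pd i := by
      intro i
      have hRn : 0 ≤ ∑ j, (if (hh G p).Adj i j then tpsi x T i j else 0) :=
        Finset.sum_nonneg fun j _ => hpn i j
      have hz := hPd0 i
      have hη2 : 0 < 2 / η := by positivity
      by_cases hi : i ∈ C
      · have : ∑ j, b i j = 0 := by
          refine Finset.sum_eq_zero fun j _ => ?_
          rw [hb]; simp only; rw [if_neg fun h => h.2 hi]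
        rw [this]
        positivity
      · by_cases hPi : Pd i ≤ 1 / 100
        · have h1 : ∀ j, b i j ≤ 2 * (if (hh G p).Adj i j then tpsi x T i j else 0) := by
            intro j
            rw [hb]; simp only
            by_cases h : (hh G p).Adj i j
            · rw [if_pos ⟨h, hi⟩, if_pos h]
              have := leaf_edge (T := T) O h.ne (by rw [hPd] at hPi; exact hPi)
              linarith
            · rw [if_neg fun h' => h h'.1, if_neg h]; norm_num
          have h2 := Finset.sum_le_sum fun j (_ : j ∈ Finset.univ) => h1 j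
          rw [← Finset.mul_sum] at h2
          have h3 : 2 ≤ 2 / η := by rw [le_div_iff₀ hη0]; linarith
          have h4 := mul_le_mul_of_nonneg_right h3 hRn
          have h5 : 0 ≤ 400 / η * Pd i := by positivity
          linarith
        · rw [not_le] at hPi
          rw [hCm, not_le] at hi
          have h1 := mid_edges (T := T) O ((hh G p).neighborFinset i) hη0 hi.le
          have h3 : ∑ v ∈ (hh G p).neighborFinset i, tpsi x T i v =
              ∑ j, (if (hh G p).Adj i j then tpsi x T i j else 0) := by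
            rw [← Finset.sum_filter]
            refine Finset.sum_congr ?_ fun _ _ => rfl
            ext v; simp
          rw [h3] at h1
          have h4 : ∑ j, b i j ≤ (((hh G p).neighborFinset i).card : ℝ) := by
            have h5 : ∀ j, b i j ≤ (if j ∈ (hh G p).neighborFinset i then (1 : ℝ) else 0) := by
              intro j
              rw [hb]; simp only
              by_cases h : (hh G p).Adj i j
              · rw [if_pos ((SimpleGraph.mem_neighborFinset _ _ _).2 h)]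
                split_ifs <;> norm_num
              · rw [if_neg fun h' => h h'.1]
                split_ifs <;> norm_num
            refine (Finset.sum_le_sum fun j _ => h5 j).trans (le_of_eq ?_)
            rw [Finset.sum_ite_mem, Finset.univ_inter, Finset.sum_const, nsmul_eq_mul, mul_one]
          have h6 : 2 / η * 2 ≤ 400 / η * Pd i := by
            have e5 : 400 / η * Pd i = 2 / η * (200 * Pd i) := by ring
            rw [e5]
            exact mul_le_mul_of_nonneg_left (by linarith) hη2.le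
          linarith
    have hbs : ∑ i, ∑ j, b i j ≤ 2 / η * SP + 400 / η * T.card := by
      refine (Finset.sum_le_sum fun i _ => hrow i).trans (le_of_eq ?_)
      rw [Finset.sum_add_distrib, ← Finset.mul_sum, ← Finset.mul_sum, hPdt, ← hSP]
    have h7 : 2 / η * SP ≤ 4 / η * L := by
      have e6 : 4 / η * L = 2 / η * (2 * L) := by ring
      rw [e6]
      exact mul_le_mul_of_nonneg_left hSPL (by positivity)
    have e7 : 8 / η * L = 2 * (4 / η * L) := by ring
    have e8 : 800 / η * (T.card : ℝ) = 2 * (400 / η * T.card) := by ring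
    rw [e7, e8]
    linarith
  refine ⟨k, h, hk0, hkT, hh0, hhk, hcount, fun ξ hξ0 hξk hξn => ?_⟩
  -- the sums over the leaves
  obtain ⟨Y, hY⟩ : ∃ Y : Fin n → Fin n → ℝ, Y = fun a i => ∑ v ∈ F i, x a v := ⟨_, rfl⟩
  obtain ⟨q, hq⟩ : ∃ q : Fin n → ℝ, q = fun i => ((F i).card : ℝ) := ⟨_, rfl⟩
  have hq0 : ∀ i, 0 ≤ q i := fun i => by rw [hq]; exact Nat.cast_nonneg _
  have hYY : ∀ i j, ∑ a, Y a i * Y a j = if i = j then q i else 0 := by
    intro i j
    have h1 := bil O (F i) (F j)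
    rw [hY]
    simp only
    rw [h1]
    by_cases hij : i = j
    · subst hij
      rw [if_pos rfl, Finset.inter_self, hq]
    · rw [if_neg hij]
      have : F i ∩ F j = ∅ := by
        ext v
        rw [hF]
        simp only [cls, Finset.mem_inter, Finset.mem_erase, Finset.mem_filter, Finset.mem_univ,
          true_and, Finset.notMem_empty, iff_false, not_and]
        rintro ⟨-, h2⟩ - h3
        exact hij (h2.symm.trans h3)
      rw [this]; simp
  have hqn : ∑ i, q i ≤ n := by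
    have h1 : ∀ i, q i ≤ ∑ v, (if p v = i then (1 : ℝ) else 0) := by
      intro i
      rw [hq, hF]
      simp only
      have h2 : (((cls p i).erase i).card : ℝ) ≤ (cls p i).card := by
        exact_mod_cast Finset.card_le_card (Finset.erase_subset _ _)
      refine h2.trans (le_of_eq ?_)
      unfold cls
      simp
    refine (Finset.sum_le_sum fun i _ => h1 i).trans (le_of_eq ?_)
    rw [Finset.sum_comm]
    simp
  have hlin : ∀ κ : Fin n → ℝ, ∑ a, (∑ j, κ j * Y a j) ^ 2 = ∑ j, κ j ^ 2 * q j := by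
    intro κ
    have h1 : ∀ a, (∑ j, κ j * Y a j) ^ 2 = ∑ i, ∑ j, κ i * κ j * (Y a i * Y a j) := by
      intro a
      rw [sq, Finset.sum_mul_sum]
      exact Finset.sum_congr rfl fun i _ => Finset.sum_congr rfl fun j _ => by ring
    rw [Finset.sum_congr rfl fun a _ => h1 a, Finset.sum_comm]
    refine Finset.sum_congr rfl fun i _ => ?_
    rw [Finset.sum_comm]
    have h2 : ∀ j, ∑ a, κ i * κ j * (Y a i * Y a j) = if i = j then κ i ^ 2 * q i else 0 := by
      intro j
      rw [← Finset.mul_sum, hYY]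
      by_cases hij : i = j
      · subst hij; simp only [if_true]; ring
      · rw [if_neg hij, if_neg hij, mul_zero]
    rw [Finset.sum_congr rfl fun j _ => h2 j]
    simp
  -- test for the edges
  have hedge : ∀ i j, g i j * (2 * ξ * ∑ a ∈ Tᶜ, (x a i - x a j) * (Y a i - Y a j) -
      ξ ^ 2 * (q i + q j)) ≤ (if (hh G p).Adj i j then tpsi x T i j else 0) := by
    intro i j
    by_cases hgi : G.Adj i j ∧ i ∈ C ∧ j ∈ C
    · have h1 : g i j = 1 := by rw [hg]; simp only; rw [if_pos hgi]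
      have h2 : (hh G p).Adj i j := by
        refine ⟨hgi.1, ?_, ?_⟩
        · rw [hpC i hgi.2.1]; exact hgi.1.ne
        · rw [hpC j hgi.2.2]; exact hgi.1.ne.symm
      rw [h1, if_pos h2, one_mul]
      have h3 : ∑ a ∈ Tᶜ, (Y a i - Y a j) ^ 2 ≤ q i + q j := by
        have h4 : ∑ a, (Y a i - Y a j) ^ 2 = q i + q j := by
          have h5 : ∀ a, (Y a i - Y a j) ^ 2 = Y a i * Y a i + Y a j * Y a j -
            2 * (Y a i * Y a j) := fun a => by ring
          rw [Finset.sum_congr rfl fun a _ => h5 a, Finset.sum_sub_distrib,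
            Finset.sum_add_distrib, ← Finset.mul_sum, hYY, hYY, hYY, if_pos rfl, if_pos rfl,
            if_neg hgi.1.ne]
          ring
        rw [← h4]
        exact Finset.sum_le_sum_of_subset_of_nonneg (Finset.subset_univ _)
          fun _ _ _ => sq_nonneg _
      have h6 : 2 * ξ * ∑ a ∈ Tᶜ, (x a i - x a j) * (Y a i - Y a j) -
          ξ ^ 2 * ∑ a ∈ Tᶜ, (Y a i - Y a j) ^ 2 ≤ tpsi x T i j := by
        unfold tpsi
        rw [Finset.mul_sum, Finset.mul_sum, ← Finset.sum_sub_distrib]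
        refine Finset.sum_le_sum fun a _ => ?_
        nlinarith [sq_nonneg (x a i - x a j - ξ * (Y a i - Y a j))]
      have h7 := mul_le_mul_of_nonneg_left h3 (sq_nonneg ξ)
      linarith
    · have h1 : g i j = 0 := by rw [hg]; simp only; rw [if_neg hgi]
      rw [h1, zero_mul]
      exact hpn i j
  have hedges := Finset.sum_le_sum fun i (_ : i ∈ Finset.univ) =>
      Finset.sum_le_sum fun j (_ : j ∈ Finset.univ) => hedge i j
  rw [← hSP] at hedges
  obtain ⟨W, hW⟩ : ∃ W : Fin n → Fin n → ℝ, W = fun a i => ∑ j, g i j * Y a j := ⟨_, rfl⟩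
  have hid : ∑ i, ∑ j, g i j * (2 * ξ * ∑ a ∈ Tᶜ, (x a i - x a j) * (Y a i - Y a j) -
      ξ ^ 2 * (q i + q j)) =
      4 * ξ * ∑ i, ∑ a ∈ Tᶜ, x a i * (D i * Y a i - W a i) - 2 * ξ ^ 2 * ∑ i, D i * q i := by
    have r1 : ∀ i j, g i j * (2 * ξ * ∑ a ∈ Tᶜ, (x a i - x a j) * (Y a i - Y a j) -
        ξ ^ 2 * (q i + q j)) =
        (2 * ξ * ∑ a ∈ Tᶜ, g i j * (x a i * (Y a i - Y a j)) - ξ ^ 2 * (g i j * q i)) +
        (2 * ξ * ∑ a ∈ Tᶜ, g i j * (x a j * (Y a j - Y a i)) - ξ ^ 2 * (g i j * q j)) := by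
      intro i j
      rw [← Finset.mul_sum, ← Finset.mul_sum]
      have : ∑ a ∈ Tᶜ, (x a i - x a j) * (Y a i - Y a j) =
          ∑ a ∈ Tᶜ, x a i * (Y a i - Y a j) + ∑ a ∈ Tᶜ, x a j * (Y a j - Y a i) := by
        rw [← Finset.sum_add_distrib]
        exact Finset.sum_congr rfl fun a _ => by ring
      rw [this]; ring
    have r2 : ∑ i, ∑ j, (2 * ξ * ∑ a ∈ Tᶜ, g i j * (x a j * (Y a j - Y a i)) -
        ξ ^ 2 * (g i j * q j)) = ∑ i, ∑ j, (2 * ξ * ∑ a ∈ Tᶜ, g i j * (x a i * (Y a i - Y a j)) -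
        ξ ^ 2 * (g i j * q i)) := by
      rw [Finset.sum_comm]
      refine Finset.sum_congr rfl fun i _ => Finset.sum_congr rfl fun j _ => ?_
      rw [hgs j i]
    have r3 : ∀ i, ∑ j, (2 * ξ * ∑ a ∈ Tᶜ, g i j * (x a i * (Y a i - Y a j)) -
        ξ ^ 2 * (g i j * q i)) =
        2 * ξ * ∑ a ∈ Tᶜ, x a i * (D i * Y a i - W a i) - ξ ^ 2 * (D i * q i) := by
      intro i
      rw [Finset.sum_sub_distrib, ← Finset.mul_sum, ← Finset.mul_sum, Finset.sum_comm]
      congr 1
      · congr 1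
        refine Finset.sum_congr rfl fun a _ => ?_
        rw [hD, hW]
        simp only
        rw [Finset.sum_mul, ← Finset.sum_sub_distrib, Finset.mul_sum]
        exact Finset.sum_congr rfl fun j _ => by ring
      · rw [hD]; simp only; rw [Finset.sum_mul]
    simp_rw [r1, Finset.sum_add_distrib]
    rw [r2, Finset.sum_congr rfl fun i _ => r3 i, Finset.sum_sub_distrib, ← Finset.mul_sum,
      ← Finset.mul_sum]
    ring
  rw [hid] at hedges
  -- restrict to C
  have hDq : ∑ i, D i * q i ≤ k * n := by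
    calc ∑ i, D i * q i ≤ ∑ i, k * q i :=
          Finset.sum_le_sum fun i _ => mul_le_mul_of_nonneg_right (hDk i) (hq0 i)
      _ = k * ∑ i, q i := by rw [Finset.mul_sum]
      _ ≤ k * n := mul_le_mul_of_nonneg_left hqn hk0
  have hres : ∑ i, ∑ a ∈ Tᶜ, x a i * (D i * Y a i - W a i) =
      ∑ i ∈ C, ∑ a ∈ Tᶜ, x a i * (D i * Y a i - W a i) := by
    symm
    refine Finset.sum_subset (Finset.subset_univ _) fun i _ hi => ?_
    refine Finset.sum_eq_zero fun a _ => ?_
    have : W a i = 0 := by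
      rw [hW]
      refine Finset.sum_eq_zero fun j _ => ?_
      rw [hg]; simp only; rw [if_neg fun h => hi h.2.1, zero_mul]
    rw [this, hD1 i hi]; ring
  rw [hres] at hedges
  have hvert : ∀ i ∈ C, 2 * (ξ * D i) - (ξ * D i) ^ 2 - σ ≤
      K i + 2 * ξ * ∑ a ∈ Tᶜ, x a i * (D i * Y a i - W a i) := by
    intro i hi
    have hξD0 : 0 ≤ ξ * D i := mul_nonneg hξ0 (hDn i)
    have hξD1 : ξ * D i ≤ 1 := (mul_le_mul_of_nonneg_left (hDk i) hξ0).trans hξk
    obtain ⟨V, hV⟩ : ∃ V : Fin n → ℝ, V = fun a => (1 - ξ * D i) * Y a i + ξ * W a i := ⟨_, rfl⟩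
    have hVs : ∑ a ∈ Tᶜ, (V a) ^ 2 ≤ (1 - ξ * D i) ^ 2 * q i + B := by
      have h1 : ∑ a, (V a) ^ 2 = (1 - ξ * D i) ^ 2 * q i + ξ ^ 2 * ∑ j, g i j * q j := by
        obtain ⟨κ, hκ⟩ : ∃ κ : Fin n → ℝ, κ = fun j =>
          (if j = i then (1 - ξ * D i) else 0) + ξ * g i j := ⟨_, rfl⟩
        have h2 := hlin κ
        have h3 : ∀ a, V a = ∑ j, κ j * Y a j := by
          intro a
          rw [hV, hκ, hW]
          simp only [add_mul, Finset.sum_add_distrib, ite_mul, zero_mul, Finset.sum_ite_eq',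
            Finset.mem_univ, if_true, Finset.mul_sum]
          congr 1
          exact Finset.sum_congr rfl fun j _ => by ring
        rw [Finset.sum_congr rfl fun a _ => by rw [h3 a], h2]
        have h4 : ∀ j, κ j ^ 2 * q j = (if j = i then (1 - ξ * D i) ^ 2 * q j else 0) +
            ξ ^ 2 * (g i j * q j) := by
          intro j
          rw [hκ]
          simp only
          by_cases hji : j = i
          · subst hji
            rw [if_pos rfl, if_pos rfl, hgii]; ring
          · rw [if_neg hji, if_neg hji]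
            have : (0 + ξ * g i j) ^ 2 * q j = ξ ^ 2 * (g i j ^ 2 * q j) := by ring
            rw [this, hgg]; ring
        rw [Finset.sum_congr rfl fun j _ => h4 j, Finset.sum_add_distrib, ← Finset.mul_sum]
        simp
      have h5 : ∑ j, g i j * q j ≤ n := by
        refine le_trans (Finset.sum_le_sum fun j _ => ?_) hqn
        have h6 : g i j ≤ 1 := by rw [hg]; simp only; split_ifs <;> norm_num
        calc g i j * q j ≤ 1 * q j := mul_le_mul_of_nonneg_right h6 (hq0 j)
          _ = q j := one_mul _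
      have h7 : ∑ a ∈ Tᶜ, (V a) ^ 2 ≤ ∑ a, (V a) ^ 2 :=
        Finset.sum_le_sum_of_subset_of_nonneg (Finset.subset_univ _) fun _ _ _ => sq_nonneg _
      have h8 := mul_le_mul_of_nonneg_left h5 (sq_nonneg ξ)
      linarith
    have hX : ∀ c : ℝ, 0 < c → 2 * ∑ a ∈ Tᶜ, x a i * V a ≤ c * av x T i +
        ((1 - ξ * D i) ^ 2 * q i + B) / c := by
      intro c hc
      have h1 : ∀ a ∈ Tᶜ, 2 * (x a i * V a) ≤ c * (x a i) ^ 2 + 1 / c * (V a) ^ 2 := by
        intro a _
        have h2 : c * (x a i) ^ 2 + 1 / c * (V a) ^ 2 - 2 * (x a i * V a) =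
            (c * x a i - V a) ^ 2 / c := by
          field_simp
          ring
        have h3 : 0 ≤ (c * x a i - V a) ^ 2 / c := by positivity
        linarith
      have h4 := Finset.sum_le_sum h1
      rw [Finset.sum_add_distrib, ← Finset.mul_sum, ← Finset.mul_sum, ← Finset.mul_sum] at h4
      have h5 : 1 / c * ∑ a ∈ Tᶜ, (V a) ^ 2 ≤ ((1 - ξ * D i) ^ 2 * q i + B) / c := by
        rw [one_div, inv_mul_eq_div]
        exact div_le_div_of_nonneg_right hVs hc.le
      unfold av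
      linarith
    have h1 := vert_real hσ hB hC₀ hc₀ hη (hq0 i) (hav0 i) ((hCm i).1 hi) hξD0 hξD1 hX
    have h2 : 1 + (q i - 2) * av x T i - 2 * ∑ a ∈ Tᶜ, x a i * Y a i ≤ K i := by
      have := core_cost (T := T) O (w := i) (F i)
      rw [hK, hq, hY]
      exact this
    have h3 : 2 * ξ * ∑ a ∈ Tᶜ, x a i * (D i * Y a i - W a i) =
        2 * ∑ a ∈ Tᶜ, x a i * Y a i - 2 * ∑ a ∈ Tᶜ, x a i * V a := by
      rw [← mul_sub, ← Finset.sum_sub_distrib, mul_assoc, Finset.mul_sum]
      congr 1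
      refine Finset.sum_congr rfl fun a _ => ?_
      rw [hV]; ring
    rw [h3]
    linarith
  have hV1 := Finset.sum_le_sum hvert
  rw [Finset.sum_add_distrib, ← Finset.mul_sum, Finset.sum_sub_distrib, Finset.sum_sub_distrib,
    Finset.sum_const, nsmul_eq_mul, ← hk] at hV1
  have hV2 : ∑ i ∈ C, 2 * (ξ * D i) = 2 * ξ * h := by
    rw [hhC, Finset.mul_sum]
    exact Finset.sum_congr rfl fun i _ => by ring
  have hV3 : ∑ i ∈ C, (ξ * D i) ^ 2 ≤ ξ ^ 2 * (k * h) := by
    rw [hhC, Finset.mul_sum, Finset.mul_sum]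
    refine Finset.sum_le_sum fun i _ => ?_
    have : (ξ * D i) ^ 2 = ξ ^ 2 * (D i * D i) := by ring
    rw [this]
    exact mul_le_mul_of_nonneg_left (mul_le_mul_of_nonneg_right (hDk i) (hDn i)) (sq_nonneg ξ)
  have hV4 : ξ ^ 2 * ∑ i, D i * q i ≤ ξ ^ 2 * (k * n) :=
    mul_le_mul_of_nonneg_left hDq (sq_nonneg ξ)
  linarith

end Pool.Agent.T2H88.LE
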