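import Pool.Agent.T2H88.LE.Lin3
import Pool.Agent.T2H88.LE.Asym

/-!
# The asymptotics for linearly many extra edges: the upper bound
-/

set_option autoImplicit false

namespace Pool.Agent.T2H88.LE

open Finset Matrix Pool.Agent.Helper554.LE

/-- the real inequality -/
theorem lin_real {n r t L k h η σ τ g w : ℝ} (hn0 : 0 < n) (hg0 : 0 < g) (hg1 : g ≤ 1)
    (hτ0 : 0 < τ) (hτ1 : τ ≤ 1 / 2) (hr0 : 0 < r) (hr1 : g * n ≤ r * r) (hr2 : g * (r * r) ≤ n)
    (hw0 : 0 ≤ w) (hw : w * w = 2) (hη0 : 0 < η) (hη1 : η ≤ τ / 2)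
    (hσ0 : 0 < σ) (hσ : σ = g ^ 2 * τ / 3) (hL0 : 0 ≤ L) (ht0 : 0 ≤ t)
    (hk0 : 0 ≤ k) (hkt : (1 - η) * k ≤ t) (hh0 : 0 ≤ h) (hhk : h ≤ k * k)
    (hh : 2 * (r * r) - 8 / η * L - 800 / η * t ≤ h)
    (hbig : 1 / η * (48 / g + 2400) ≤ 2 * τ * r)
    (hmain : ∀ ξ : ℝ, 0 ≤ ξ → ξ * k ≤ 1 → ξ ^ 2 * n ≤ 1 →
        2 * ξ * h - ξ ^ 2 * (k * h + k * n) - σ * k ≤ L) :
    (1 - 2 * τ) * (w * r * (2 * (r * r) / n + 2 * (r * r) / (2 * (r * r) + n))) ≤
      2 * (r * r) / n * t + L := by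
  by_contra hcon
  rw [not_le] at hcon
  obtain ⟨e, he⟩ : ∃ e, e = r * r := ⟨_, rfl⟩
  rw [← he] at hr1 hr2 hh hcon
  have he0 : 0 < e := by rw [he]; positivity
  have hw1 : w ≤ 3 / 2 := by
    by_contra hx
    rw [not_le] at hx
    have := mul_self_lt_mul_self (by norm_num) hx
    linarith
  obtain ⟨u, hu⟩ : ∃ u, u = 2 * e / n := ⟨_, rfl⟩
  obtain ⟨v, hv⟩ : ∃ v, v = 2 * e / (2 * e + n) := ⟨_, rfl⟩
  rw [← hu, ← hv] at hcon
  have hu0 : 0 < u := by rw [hu]; positivity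
  have hv0 : 0 < v := by rw [hv]; positivity
  have hvu : v ≤ u := by
    rw [hv, hu]
    exact div_le_div_of_nonneg_left (by positivity) hn0 (by linarith)
  have hun : u * n = 2 * e := by rw [hu]; field_simp
  have hug : 2 * g ≤ u := by
    rw [hu, le_div_iff₀ hn0]; linarith
  have hug2 : g * u ≤ 2 := by
    rw [hu, ← mul_div_assoc, div_le_iff₀ hn0]; linarith
  have hv1 : v * (1 + u) = u := by
    rw [hv, hu]
    have : 2 * e + n ≠ 0 := by positivity
    field_simp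
    ring
  have hZ : w * r * (u + v) ≤ 3 * r * u := by
    have h1 : w * r * (u + v) ≤ w * r * (2 * u) :=
      mul_le_mul_of_nonneg_left (by linarith) (by positivity)
    have h2 : w * (r * u) ≤ 3 / 2 * (r * u) := mul_le_mul_of_nonneg_right hw1 (by positivity)
    linarith
  have hZ0 : 0 ≤ w * r * (u + v) := by positivity
  have hZ2 : (1 - 2 * τ) * (w * r * (u + v)) ≤ 3 * r * u := by
    have : (1 - 2 * τ) * (w * r * (u + v)) ≤ 1 * (w * r * (u + v)) :=
      mul_le_mul_of_nonneg_right (by linarith) hZ0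
    linarith
  have hut0 : 0 ≤ u * t := by positivity
  have hLr : L ≤ 6 / g * r := by
    have h1 : L ≤ 3 * r * u := by linarith
    have h2 : 3 * r * u ≤ 6 / g * r := by
      have e1 : 6 / g * r = 3 * r * (2 / g) := by ring
      rw [e1]
      refine mul_le_mul_of_nonneg_left ?_ (by positivity)
      rw [le_div_iff₀ hg0]; linarith
    linarith
  have htr : t ≤ 3 * r := by
    have h1 : u * t ≤ u * (3 * r) := by linarith
    exact le_of_mul_le_mul_left h1 hu0
  -- h is large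
  have hh1 : 2 * e * (1 - τ) ≤ h := by
    have h1 : 8 / η * L ≤ 8 / η * (6 / g * r) := mul_le_mul_of_nonneg_left hLr (by positivity)
    have h2 : 800 / η * t ≤ 800 / η * (3 * r) := mul_le_mul_of_nonneg_left htr (by positivity)
    have h3 : 8 / η * (6 / g * r) + 800 / η * (3 * r) = 1 / η * (48 / g + 2400) * r := by
      field_simp
      ring
    have h4 : 1 / η * (48 / g + 2400) * r ≤ 2 * τ * r * r := mul_le_mul_of_nonneg_right hbig hr0.le
    have h5 : 2 * τ * r * r = 2 * τ * e := by rw [he]; ring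
    linarith
  have hhpos : 0 < h := by
    have : 0 < 2 * e * (1 - τ) := mul_pos (by linarith) (by linarith)
    linarith
  have hkpos : 0 < k := by
    rcases eq_or_lt_of_le hk0 with h0 | h0
    · rw [← h0] at hhk; linarith
    · exact h0
  have hhn : 0 < h + n := by linarith
  -- the choice of xi
  obtain ⟨ξ, hξ⟩ : ∃ ξ, ξ = h / (k * (h + n)) := ⟨_, rfl⟩
  have hξ0 : 0 ≤ ξ := by rw [hξ]; positivity
  have hξk : ξ * k = h / (h + n) := by rw [hξ]; field_simp
  have hξ1 : ξ * k ≤ 1 := by rw [hξk, div_le_one hhn]; linarith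
  have hξn : ξ ^ 2 * n ≤ 1 := by
    have h1 : ξ ^ 2 * n * (k * k) = (ξ * k) ^ 2 * n := by ring
    have h2 : (ξ * k) ^ 2 * n ≤ h := by
      rw [hξk, div_pow, div_mul_eq_mul_div, div_le_iff₀ (by positivity)]
      have : 0 ≤ h * (h ^ 2 + h * n + n ^ 2) := by positivity
      linarith
    have h3 : ξ ^ 2 * n * (k * k) ≤ 1 * (k * k) := by linarith
    exact le_of_mul_le_mul_right h3 (by positivity)
  have hm1 := hmain ξ hξ0 hξ1 hξn
  have hm2 : 2 * ξ * h - ξ ^ 2 * (k * h + k * n) = h ^ 2 / (k * (h + n)) := by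
    rw [hξ]
    field_simp
    ring
  rw [hm2] at hm1
  -- A
  obtain ⟨b, hb⟩ : ∃ b, b = h / (h + n) := ⟨_, rfl⟩
  have hA : h ^ 2 / (k * (h + n)) = b * h / k := by rw [hb]; field_simp
  rw [hA] at hm1
  have hb1 : (1 - τ) * v ≤ b := by
    rw [hv, hb, ← mul_div_assoc, div_le_div_iff₀ (by linarith) hhn]
    have h1 : 0 ≤ (h - 2 * e * (1 - τ)) * n := mul_nonneg (by linarith) hn0.le
    have h2 : 0 ≤ 2 * e * τ * h := by positivity
    linarith
  -- bound b from above is not needed: replace h by h1 = 2 e (1 - tau)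
  obtain ⟨h₀, hh₀⟩ : ∃ h₀, h₀ = 2 * e * (1 - τ) := ⟨_, rfl⟩
  have hh₀p : 0 < h₀ := by rw [hh₀]; exact mul_pos (by linarith) (by linarith)
  rw [← hh₀] at hh1
  have hAlow : (1 - τ) * v * h₀ / k ≤ b * h / k := by
    apply div_le_div_of_nonneg_right _ hkpos.le
    have hvt : 0 ≤ (1 - τ) * v := mul_nonneg (by linarith) hv0.le
    exact mul_le_mul hb1 hh1 hh₀p.le (hvt.trans hb1)
  -- k0
  obtain ⟨k₀, hk₀⟩ : ∃ k₀, k₀ = w * r * (1 - τ) := ⟨_, rfl⟩
  have hwp : 0 < w := lt_of_le_of_ne hw0 (fun h0 => by rw [← h0] at hw; norm_num at hw)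
  have hk₀p : 0 < k₀ := by rw [hk₀]; exact mul_pos (mul_pos hwp hr0) (by linarith)
  have hk₀h : k₀ * k₀ ≤ h₀ := by
    rw [hk₀, hh₀, he]
    have : w * r * (1 - τ) * (w * r * (1 - τ)) = 2 * (r * r) * (1 - τ) * (1 - τ) := by
      have : w * r * (1 - τ) * (w * r * (1 - τ)) = (w * w) * (r * r) * (1 - τ) * (1 - τ) := by ring
      rw [this, hw]
    rw [this]
    have h1 : 0 ≤ 2 * (r * r) * (1 - τ) := mul_nonneg (by positivity) (by linarith)
    have h2 := mul_nonneg h1 hτ0.le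
    linarith
  have hkk : k₀ ≤ k := by
    by_contra hlt
    rw [not_le] at hlt
    have : k * k < k₀ * k₀ := mul_self_lt_mul_self hk0 hlt
    linarith
  -- monotonicity
  have hAG : (1 - τ) * v * h₀ / k ≥ (1 - τ) * v * (2 * k₀ - k) := by
    rw [ge_iff_le, le_div_iff₀ hkpos]
    have h1 : (2 * k₀ - k) * k ≤ h₀ := by linarith [mul_self_nonneg (k - k₀)]
    have hvt : 0 ≤ (1 - τ) * v := mul_nonneg (by linarith) hv0.le
    have := mul_le_mul_of_nonneg_left h1 hvt
    linarith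
  have ht1 : u * ((1 - η) * k) ≤ u * t := mul_le_mul_of_nonneg_left hkt hu0.le
  have hσu : σ ≤ u * (τ / 2) := by
    rw [hσ]
    have h5 : 2 * g * (τ / 2) ≤ u * (τ / 2) := mul_le_mul_of_nonneg_right hug (by positivity)
    have h6 : g ^ 2 * τ ≤ g * τ := by
      have h8 : g * (g * τ) ≤ 1 * (g * τ) := mul_le_mul_of_nonneg_right hg1 (by positivity)
      have h9 : g ^ 2 * τ = g * (g * τ) := by ring
      linarith
    have h7 : 0 < g * τ := by positivity
    linarith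
  have hηu : u * η ≤ u * (τ / 2) := mul_le_mul_of_nonneg_left hη1 hu0.le
  have hgap : 0 ≤ u * (1 - η) - σ - (1 - τ) * v := by
    have h1 : 0 ≤ (1 - τ) * (u - v) := mul_nonneg (by linarith) (by linarith)
    linarith
  have hfin : (1 - 2 * τ) * (w * r * (u + v)) ≤ u * t + L := by
    have h1 : k₀ * (u * (1 - η) - σ - (1 - τ) * v) ≤ k * (u * (1 - η) - σ - (1 - τ) * v) :=
      mul_le_mul_of_nonneg_right hkk hgap
    have h2 : k₀ * (u * (1 - η) - σ + (1 - τ) * v) ≤ u * t + L := by linarith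
    have h3 : (1 - τ) * (u + v) ≤ u * (1 - η) - σ + (1 - τ) * v := by
      linarith
    have h4 : k₀ * ((1 - τ) * (u + v)) ≤ k₀ * (u * (1 - η) - σ + (1 - τ) * v) :=
      mul_le_mul_of_nonneg_left h3 hk₀p.le
    have h5 : (1 - 2 * τ) * (w * r * (u + v)) ≤ k₀ * ((1 - τ) * (u + v)) := by
      rw [hk₀]
      have : w * r * (1 - τ) * ((1 - τ) * (u + v)) = ((1 - τ) * (1 - τ)) * (w * r * (u + v)) := by
        ring
      rw [this]
      apply mul_le_mul_of_nonneg_right _ hZ0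
      have h7 := mul_self_nonneg τ
      linarith
    linarith
  linarith

end Pool.Agent.T2H88.LE
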