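import Pool.Agent.T2H88.LE.Hub

/-!
# The balanced multi-hub graph and its trial projection
-/

set_option autoImplicit false

namespace Pool.Agent.T2H88.LE

open Finset Matrix Pool.Agent.Helper554.LE

section multi
variable {n k : ℕ}

/-- the size of the class `i` modulo `k` -/
def ta (n k i : ℕ) : ℕ := (Finset.univ.filter (fun v : Fin n => v.val % k = i)).card

theorem ta_ge (hk : 0 < k) {i : ℕ} (hi : i < k) : n / k ≤ ta n k i := by
  unfold ta
  have h : (Finset.range (n / k)).card ≤
      ((Finset.univ.filter (fun v : Fin n => v.val % k = i)).image Fin.val).card := by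
    refine Finset.card_le_card_of_injOn (fun q => i + k * q) ?_ ?_
    · intro q hq
      rw [Finset.mem_coe, Finset.mem_range] at hq
      rw [Finset.mem_coe, Finset.mem_image]
      have h1 : k * (q + 1) ≤ n := by
        calc k * (q + 1) ≤ k * (n / k) := Nat.mul_le_mul_left _ hq
          _ ≤ n := Nat.mul_div_le n k
      refine ⟨⟨i + k * q, by nlinarith⟩, ?_, rfl⟩
      rw [Finset.mem_filter]
      refine ⟨Finset.mem_univ _, ?_⟩
      simp only
      rw [Nat.add_mul_mod_self_left, Nat.mod_eq_of_lt hi]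
    · intro a _ b _ hab
      simp only at hab
      exact Nat.eq_of_mul_eq_mul_left hk (by omega)
  rwa [Finset.card_range, Finset.card_image_of_injective _ Fin.val_injective] at h

/-- sums over `Fin n` by classes modulo `k` -/
theorem sum_classes (hk : 0 < k) (f : Fin n → ℝ) :
    ∑ v, f v = ∑ i ∈ Finset.range k, ∑ v, (if v.val % k = i then f v else 0) := by
  rw [← Finset.sum_fiberwise_of_maps_to (s := Finset.univ) (t := Finset.range k)
    (g := fun v : Fin n => v.val % k) (fun v _ => Finset.mem_range.2 (Nat.mod_lt _ hk))]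
  refine Finset.sum_congr rfl fun i _ => ?_
  rw [Finset.sum_filter]

theorem sum_class_one (i : ℕ) (a : ℝ) :
    ∑ v : Fin n, (if v.val % k = i then a else 0) = ta n k i * a := by
  rw [← Finset.sum_filter, Finset.sum_const, nsmul_eq_mul]
  rfl

theorem sum_class_hub (hkn : k ≤ n) {i : ℕ} (hi : i < k) (a : ℝ) :
    ∑ v : Fin n, (if v.val % k = i then (if v.val < k then a else 0) else 0) = a := by
  have h : ∀ v : Fin n, (if v.val % k = i then (if v.val < k then a else 0) else 0) =
      if v = ⟨i, by omega⟩ then a else 0 := by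
    intro v
    by_cases h1 : v.val < k
    · rw [Nat.mod_eq_of_lt h1, if_pos h1]
      by_cases h2 : v.val = i
      · rw [if_pos h2, if_pos (Fin.ext h2)]
      · rw [if_neg h2, if_neg fun hh => h2 (by rw [hh])]
    · rw [if_neg h1, ite_self, if_neg fun hh => h1 (by rw [hh]; exact hi)]
  rw [Finset.sum_congr rfl fun v _ => h v, Finset.sum_ite_eq', if_pos (Finset.mem_univ _)]

/-- `τ - 1` at the hubs, `-1` at the pendant vertices -/
noncomputable def gv (n k : ℕ) (v : Fin n) : ℝ := (if v.val < k then (ta n k (v.val % k) : ℝ) else 0) - 1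

theorem gv_sq (v : Fin n) : gv n k v * gv n k v =
    1 + (if v.val < k then (ta n k (v.val % k) : ℝ) ^ 2 - 2 * ta n k (v.val % k) else 0) := by
  unfold gv; split_ifs <;> ring

theorem sum_gv_sq (hkn : k ≤ n) {i : ℕ} (hi : i < k) :
    ∑ v : Fin n, (if v.val % k = i then gv n k v * gv n k v else 0) =
      (ta n k i : ℝ) * (ta n k i - 1) := by
  have h : ∀ v : Fin n, (if v.val % k = i then gv n k v * gv n k v else 0) =
      (if v.val % k = i then (1 : ℝ) else 0) +
      (if v.val % k = i then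
        (if v.val < k then (ta n k i : ℝ) ^ 2 - 2 * ta n k i else 0) else 0) := by
    intro v
    by_cases h1 : v.val % k = i
    · rw [if_pos h1, if_pos h1, if_pos h1, gv_sq, h1]
    · rw [if_neg h1, if_neg h1, if_neg h1, add_zero]
  rw [Finset.sum_congr rfl fun v _ => h v, Finset.sum_add_distrib, sum_class_one,
    sum_class_hub hkn hi]
  ring

/-- the trial projection -/
noncomputable def Ph (n k : ℕ) : Matrix (Fin n) (Fin n) ℝ := fun u v =>
  if u.val % k = v.val % k then
    gv n k u * gv n k v / ((ta n k (u.val % k) : ℝ) * (ta n k (u.val % k) - 1)) else 0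

theorem Ph_symm : (Ph n k)ᵀ = Ph n k := by
  ext i j
  rw [Matrix.transpose_apply]
  unfold Ph
  by_cases h : i.val % k = j.val % k
  · rw [if_pos h, if_pos h.symm, h, mul_comm (gv n k j)]
  · rw [if_neg h, if_neg fun h' => h h'.symm]

theorem tt_ne (hk : 0 < k) (hkn : 2 * k ≤ n) {i : ℕ} (hi : i < k) :
    (2 : ℝ) ≤ ta n k i := by
  have h1 : 2 ≤ n / k := (Nat.le_div_iff_mul_le hk).2 hkn
  exact_mod_cast h1.trans (ta_ge hk hi)

theorem tt_ne0 (hk : 0 < k) (hkn : 2 * k ≤ n) {i : ℕ} (hi : i < k) :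
    (ta n k i : ℝ) * (ta n k i - 1) ≠ 0 := by
  have := tt_ne hk hkn hi
  exact mul_ne_zero (by linarith) (by linarith)

theorem Ph_idem (hk : 0 < k) (hkn : 2 * k ≤ n) : Ph n k * Ph n k = Ph n k := by
  ext u v
  rw [Matrix.mul_apply]
  by_cases h : u.val % k = v.val % k
  · set i := v.val % k with hi
    have hik : i < k := Nat.mod_lt _ hk
    have h1 : ∀ w : Fin n, Ph n k u w * Ph n k w v =
        (gv n k u * gv n k v / (((ta n k i : ℝ) * (ta n k i - 1)) ^ 2)) *
        (if w.val % k = i then gv n k w * gv n k w else 0) := by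
      intro w
      unfold Ph
      rw [h, ← hi]
      by_cases h2 : w.val % k = i
      · rw [if_pos h2.symm, if_pos h2, if_pos h2, h2]
        generalize (ta n k i : ℝ) * (ta n k i - 1) = N
        ring
      · rw [if_neg fun h' => h2 h'.symm, if_neg h2, if_neg h2]
        ring
    rw [Finset.sum_congr rfl fun w _ => h1 w, ← Finset.mul_sum, sum_gv_sq (by omega) hik]
    unfold Ph
    rw [h, ← hi, if_pos rfl]
    have := tt_ne0 hk hkn hik
    rw [div_mul_eq_mul_div, pow_two, mul_div_mul_right _ _ this]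
  · have h1 : ∀ w : Fin n, Ph n k u w * Ph n k w v = 0 := by
      intro w
      unfold Ph
      by_cases h2 : u.val % k = w.val % k
      · rw [if_neg (c := w.val % k = v.val % k) fun h3 => h (h2.trans h3), mul_zero]
      · rw [if_neg h2, zero_mul]
    rw [Finset.sum_eq_zero fun w _ => h1 w]
    unfold Ph
    rw [if_neg h]

theorem Ph_trace (hk : 0 < k) (hkn : 2 * k ≤ n) : (Ph n k).trace = k := by
  rw [Matrix.trace, sum_classes hk]
  have h : ∀ i ∈ Finset.range k, ∑ v : Fin n, (if v.val % k = i then (Ph n k).diag v else 0) = 1 := by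
    intro i hi
    rw [Finset.mem_range] at hi
    have h1 : ∀ v : Fin n, (if v.val % k = i then (Ph n k).diag v else 0) =
        (1 / ((ta n k i : ℝ) * (ta n k i - 1))) *
          (if v.val % k = i then gv n k v * gv n k v else 0) := by
      intro v
      by_cases h2 : v.val % k = i
      · rw [if_pos h2, if_pos h2, Matrix.diag_apply]
        unfold Ph
        rw [if_pos rfl, h2]
        ring
      · rw [if_neg h2, if_neg h2, mul_zero]
    rw [Finset.sum_congr rfl fun v _ => h1 v, ← Finset.mul_sum, sum_gv_sq (by omega) hi,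
      one_div_mul_cancel (tt_ne0 hk hkn hi)]
  rw [Finset.sum_congr rfl h]
  simp

theorem Ph_diag_hub (hk : 0 < k) (hkn : 2 * k ≤ n) {u : Fin n} (hu : u.val < k) :
    Ph n k u u = 1 - 1 / ta n k u.val := by
  have h := tt_ne hk hkn hu
  unfold Ph gv
  rw [if_pos rfl, Nat.mod_eq_of_lt hu, if_pos hu]
  have h1 : (ta n k u.val : ℝ) - 1 ≠ 0 := by linarith
  have h2 : (ta n k u.val : ℝ) ≠ 0 := by linarith
  field_simp

/-- hub - hub edge -/
theorem Ph_hub (hk : 0 < k) (hkn : 2 * k ≤ n) {u v : Fin n} (huv : u ≠ v) (hu : u.val < k)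
    (hv : v.val < k) :
    2 - 2 / ((n / k : ℕ) : ℝ) ≤ Ph n k u u + Ph n k v v - 2 * Ph n k u v := by
  rw [Ph_diag_hub hk hkn hu, Ph_diag_hub hk hkn hv]
  have h1 : Ph n k u v = 0 := by
    unfold Ph
    rw [Nat.mod_eq_of_lt hu, Nat.mod_eq_of_lt hv, if_neg fun h => huv (Fin.ext h)]
  rw [h1]
  have h2 : 2 ≤ n / k := (Nat.le_div_iff_mul_le hk).2 hkn
  have h3 : (0 : ℝ) < ((n / k : ℕ) : ℝ) := by exact_mod_cast (by omega : 0 < n / k)
  have h4 : 1 / (ta n k u.val : ℝ) ≤ 1 / ((n / k : ℕ) : ℝ) :=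
    one_div_le_one_div_of_le h3 (by exact_mod_cast ta_ge hk hu)
  have h5 : 1 / (ta n k v.val : ℝ) ≤ 1 / ((n / k : ℕ) : ℝ) :=
    one_div_le_one_div_of_le h3 (by exact_mod_cast ta_ge hk hv)
  have h6 : 2 / ((n / k : ℕ) : ℝ) = 1 / ((n / k : ℕ) : ℝ) + 1 / ((n / k : ℕ) : ℝ) := by ring
  rw [h6]
  linarith

/-- hub - pendant vertex edge -/
theorem Ph_pend (hk : 0 < k) (hkn : 2 * k ≤ n) {u v : Fin n} (hv : k ≤ v.val)
    (hu : u.val = v.val % k) :
    Ph n k u u + Ph n k v v - 2 * Ph n k u v =
      ta n k (v.val % k) / ((ta n k (v.val % k) : ℝ) - 1) := by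
  have hik : v.val % k < k := Nat.mod_lt _ hk
  have huk : u.val < k := by omega
  have hum : u.val % k = v.val % k := by rw [Nat.mod_eq_of_lt huk, hu]
  have h := tt_ne hk hkn hik
  unfold Ph gv
  rw [if_pos rfl, if_pos rfl, if_pos hum, if_pos huk, if_neg (by omega), hum]
  have h1 : (ta n k (v.val % k) : ℝ) - 1 ≠ 0 := by linarith
  have h2 : (ta n k (v.val % k) : ℝ) ≠ 0 := by linarith
  field_simp
  ring

theorem sum_pend (hk : 0 < k) (hkn : 2 * k ≤ n) :
    ∑ v : Fin n, (if k ≤ v.val then ta n k (v.val % k) / ((ta n k (v.val % k) : ℝ) - 1) else 0)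
      = n := by
  rw [sum_classes hk]
  have h : ∀ i ∈ Finset.range k, ∑ v : Fin n, (if v.val % k = i then
      (if k ≤ v.val then ta n k (v.val % k) / ((ta n k (v.val % k) : ℝ) - 1) else 0) else 0) =
      ta n k i := by
    intro i hi
    rw [Finset.mem_range] at hi
    have h1 : ∀ v : Fin n, (if v.val % k = i then
      (if k ≤ v.val then ta n k (v.val % k) / ((ta n k (v.val % k) : ℝ) - 1) else 0) else 0) =
        (if v.val % k = i then ta n k i / ((ta n k i : ℝ) - 1) else 0) -
        (if v.val % k = i then (if v.val < k then ta n k i / ((ta n k i : ℝ) - 1) else 0) else 0) := by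
      intro v
      by_cases h2 : v.val % k = i
      · rw [if_pos h2, if_pos h2, if_pos h2, h2]
        by_cases h3 : v.val < k
        · rw [if_pos h3, if_neg (by omega)]; ring
        · rw [if_neg h3, if_pos (by omega)]; ring
      · rw [if_neg h2, if_neg h2, if_neg h2, sub_zero]
    rw [Finset.sum_congr rfl fun v _ => h1 v, Finset.sum_sub_distrib, sum_class_one,
      sum_class_hub (by omega) hi]
    have := tt_ne hk hkn hi
    have h1 : (ta n k i : ℝ) - 1 ≠ 0 := by linarith
    field_simp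
  rw [Finset.sum_congr rfl h]
  have h2 := sum_classes (n := n) hk (fun _ => (1 : ℝ))
  rw [Finset.sum_congr rfl fun i _ => sum_class_one (n := n) (k := k) i 1] at h2
  simp only [mul_one] at h2
  rw [← h2]
  simp

/-- **The balanced multi-hub graph.** -/
theorem multi_lower {m : ℕ} (hk1 : 1 ≤ k) (hkn : 2 * k ≤ n) (hm : n - 1 ≤ m)
    (hf : 2 * (m - (n - 1)) ≤ (k - 1) * (k - 2)) :
    ∃ E ∈ Energies n m, 2 * ((n : ℝ) + (m - n + k) * (2 - 2 / ((n / k : ℕ) : ℝ))
      - 2 * m / n * k) ≤ E := by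
  classical
  obtain ⟨F, hFc, hF⟩ := exists_F n (k - 1) (m - (n - 1)) (by omega) (by
    rw [show k - 1 - 1 = k - 2 from by omega]; exact hf)
  have hn : 0 < n := by omega
  set p : Fin n → Fin n := fun v => if v.val < k then ⟨0, hn⟩ else
    ⟨v.val % k, lt_of_lt_of_le (Nat.mod_lt _ hk1) (by omega)⟩ with hpdef
  have hp0 : ∀ v : Fin n, v.val < k → p v = ⟨0, hn⟩ := fun v hv => by rw [hpdef]; simp only [hv, if_true]
  have hp1 : ∀ v : Fin n, ¬ v.val < k → (p v).val = v.val % k := fun v hv => by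
    rw [hpdef]; simp only [hv, if_false]
  have hp : ∀ v : Fin n, 0 < v.val → p v < v := fun v hv => by
    rw [Fin.lt_def]
    by_cases h : v.val < k
    · rw [hp0 v h]; exact hv
    · rw [hp1 v h]
      exact lt_of_lt_of_le (Nat.mod_lt _ hk1) (by omega)
  have hF' : ∀ e ∈ F, e.1 < e.2 := fun e he => (hF e he).2.1
  have hd : Disjoint (baseE p) F := by
    rw [Finset.disjoint_left]
    intro e he he'
    unfold baseE at he
    rw [Finset.mem_image] at he
    obtain ⟨v, hv, rfl⟩ := he
    obtain ⟨a1, a2, a3⟩ := hF _ he'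
    simp only at a1 a2 a3
    have : v.val < k := by omega
    rw [hp0 v this] at a1
    simp at a1
  obtain ⟨hc, he, hs⟩ := gr_props hn hp hF' hd
  have hm' : (gr (baseE p ∪ F)).edgeFinset.card = m := by rw [he, hFc]; omega
  refine ⟨lapEnergy (gr (baseE p ∪ F)), ⟨_, inferInstance, hc, hm', rfl⟩, ?_⟩
  have h1 := energy_lb hn (gr (baseE p ∪ F)) (Ph_symm (n := n) (k := k)) (Ph_idem hk1 hkn)
  have h2 := trace_mul_lap (gr (baseE p ∪ F)) (Ph n k) Ph_symm
  have hsy : ∀ i j, Ph n k i i + Ph n k j j - 2 * Ph n k i j =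
      Ph n k j j + Ph n k i i - 2 * Ph n k j i := by
    intro i j
    have : Ph n k i j = Ph n k j i := by
      conv_lhs => rw [← Ph_symm (n := n) (k := k)]
      rfl
    rw [this]; ring
  rw [hs (fun i j => Ph n k i i + Ph n k j j - 2 * Ph n k i j) hsy] at h2
  set D : ℝ := 2 - 2 / ((n / k : ℕ) : ℝ) with hD
  have h3 : (n : ℝ) + (k - 1) * D ≤ ∑ v ∈ Finset.univ.filter (fun v : Fin n => 0 < v.val),
      (Ph n k (p v) (p v) + Ph n k v v - 2 * Ph n k (p v) v) := by
    have e1 : ∀ v ∈ Finset.univ.filter (fun v : Fin n => 0 < v.val),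
        (if k ≤ v.val then ta n k (v.val % k) / ((ta n k (v.val % k) : ℝ) - 1) else 0) +
        (if v.val < k then D else 0) ≤
        (Ph n k (p v) (p v) + Ph n k v v - 2 * Ph n k (p v) v) := by
      intro v hv
      rw [Finset.mem_filter] at hv
      by_cases h : v.val < k
      · rw [if_neg (by omega), if_pos h, zero_add]
        rw [hp0 v h]
        exact Ph_hub hk1 hkn (fun h' => by rw [← h'] at hv; simp at hv) hk1 h
      · rw [if_pos (by omega), if_neg h, add_zero]
        rw [Ph_pend hk1 hkn (by omega) (hp1 v h)]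
    refine le_trans (le_of_eq ?_) (Finset.sum_le_sum e1)
    rw [Finset.sum_add_distrib]
    have e2 : ∑ v ∈ Finset.univ.filter (fun v : Fin n => 0 < v.val),
        (if k ≤ v.val then ta n k (v.val % k) / ((ta n k (v.val % k) : ℝ) - 1) else 0) = n := by
      rw [← sum_pend hk1 hkn]
      refine Finset.sum_subset (Finset.filter_subset _ _) fun v _ hv => ?_
      rw [if_neg]
      intro h
      exact hv (by
        rw [Finset.mem_filter]
        exact ⟨Finset.mem_univ _, by omega⟩)
    have e3 : ∑ v ∈ Finset.univ.filter (fun v : Fin n => 0 < v.val),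
        (if v.val < k then D else 0) = (k - 1) * D := by
      rw [← Finset.sum_filter, Finset.filter_filter]
      have : (Finset.univ.filter (fun v : Fin n => 0 < v.val ∧ v.val < k)) =
          (Finset.univ.filter (fun v : Fin n => 0 < v.val ∧ v.val ≤ k - 1)) := by
        refine Finset.filter_congr fun v _ => ?_
        omega
      rw [this, Finset.sum_const, card_Ioc n (k - 1) (by omega), nsmul_eq_mul,
        Nat.cast_sub hk1]
      simp
    rw [e2, e3]
  have h4 : (F.card : ℝ) * D ≤
      ∑ e ∈ F, (Ph n k e.1 e.1 + Ph n k e.2 e.2 - 2 * Ph n k e.1 e.2) := by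
    have e1 : ∀ e ∈ F, D ≤ (Ph n k e.1 e.1 + Ph n k e.2 e.2 - 2 * Ph n k e.1 e.2) := by
      intro e he
      obtain ⟨a1, a2, a3⟩ := hF e he
      rw [Fin.lt_def] at a2
      exact Ph_hub hk1 hkn (by intro h; rw [h] at a2; omega) (by omega) (by omega)
    refine le_trans (le_of_eq ?_) (Finset.sum_le_sum e1)
    rw [Finset.sum_const, nsmul_eq_mul]
  rw [hFc, Nat.cast_sub hm, Nat.cast_sub (by omega)] at h4
  rw [Ph_trace hk1 hkn, hm'] at h1
  push_cast at h4
  have h5 : (n : ℝ) + (m - n + k) * D ≤ (Ph n k * (gr (baseE p ∪ F)).lapMatrix ℝ).trace := by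
    nlinarith
  linarith

end multi

end Pool.Agent.T2H88.LE
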