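import Pool.Agent.T2H88.LE.Cor

/-!
# Star forests and orthonormal bases: the loss in the bound for the sum of eigenvalues
-/

set_option autoImplicit false

namespace Pool.Agent.T2H88.LE

open Finset Matrix Pool.Agent.Helper554.LE

section abs
variable {n : ℕ} (x : Fin n → Fin n → ℝ) (T : Finset (Fin n)) (p : Fin n → Fin n)

/-- the star of `w` -/
def cls (w : Fin n) : Finset (Fin n) := Finset.univ.filter (fun v => p v = w)
/-- sum over the star of `w` -/
noncomputable def ty (a w : Fin n) : ℝ := ∑ v ∈ cls p w, x a v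
/-- number of vertices of the star of `w` -/
noncomputable def tq (w : Fin n) : ℝ := ((cls p w).card : ℝ)
/-- deviation of the value at the center from the mean of the star -/
noncomputable def tg (a w : Fin n) : ℝ := x a w - ty x p a w / tq p w
/-- the set of centers -/
def ctr : Finset (Fin n) := Finset.univ.filter (fun w => p w = w)
noncomputable def tA (w : Fin n) : ℝ := ∑ a ∈ Tᶜ, (tg x p a w) ^ 2
noncomputable def tB (w : Fin n) : ℝ := (∑ a ∈ T, (ty x p a w) ^ 2) / tq p w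
noncomputable def tpsi (u v : Fin n) : ℝ := ∑ a ∈ Tᶜ, (x a u - x a v) ^ 2

variable {x T p}

theorem bil (hO : ∀ i j, ∑ a, x a i * x a j = if i = j then 1 else 0) (C D : Finset (Fin n)) :
    ∑ a, (∑ i ∈ C, x a i) * (∑ j ∈ D, x a j) = ((C ∩ D).card : ℝ) := by
  have h1 : ∀ a, (∑ i ∈ C, x a i) * (∑ j ∈ D, x a j) = ∑ i ∈ C, ∑ j ∈ D, x a i * x a j := by
    intro a
    rw [Finset.sum_mul_sum]
  rw [Finset.sum_congr rfl fun a _ => h1 a, Finset.sum_comm]
  have h2 : ∀ i ∈ C, ∑ a, ∑ j ∈ D, x a i * x a j = if i ∈ D then 1 else 0 := by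
    intro i _
    rw [Finset.sum_comm, Finset.sum_congr rfl fun j _ => hO i j, Finset.sum_ite_eq]
  rw [Finset.sum_congr rfl h2, Finset.sum_ite_mem]
  simp

theorem mem_cls_self {w : Fin n} (hw : p w = w) : w ∈ cls p w := by
  unfold cls; simp [hw]

theorem tq_pos {w : Fin n} (hw : p w = w) : 0 < tq p w := by
  unfold tq
  exact_mod_cast Finset.card_pos.2 ⟨w, mem_cls_self hw⟩

theorem sum_ty_sq (hO : ∀ i j, ∑ a, x a i * x a j = if i = j then 1 else 0) (w : Fin n) :
    ∑ a, (ty x p a w) ^ 2 = tq p w := by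
  have h := bil hO (cls p w) (cls p w)
  rw [Finset.inter_self] at h
  unfold tq ty
  rw [← h]
  exact Finset.sum_congr rfl fun a _ => by ring

theorem sum_x_ty (hO : ∀ i j, ∑ a, x a i * x a j = if i = j then 1 else 0) (i w : Fin n) :
    ∑ a, x a i * ty x p a w = if p i = w then 1 else 0 := by
  have h := bil hO {i} (cls p w)
  simp only [Finset.sum_singleton] at h
  unfold ty
  rw [h]
  by_cases hi : p i = w
  · rw [if_pos hi]
    have : {i} ∩ cls p w = {i} := by
      ext v; simp only [Finset.mem_inter, Finset.mem_singleton, cls, Finset.mem_filter,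
        Finset.mem_univ, true_and]
      constructor
      · exact fun h => h.1
      · rintro rfl; exact ⟨rfl, hi⟩
    rw [this]; simp
  · rw [if_neg hi]
    have : {i} ∩ cls p w = ∅ := by
      ext v; simp only [Finset.mem_inter, Finset.mem_singleton, cls, Finset.mem_filter,
        Finset.mem_univ, true_and, Finset.notMem_empty, iff_false, not_and]
      rintro rfl; exact hi
    rw [this]; simp

theorem sum_tg_sq (hO : ∀ i j, ∑ a, x a i * x a j = if i = j then 1 else 0) {w : Fin n}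
    (hw : p w = w) : ∑ a, (tg x p a w) ^ 2 = 1 - 1 / tq p w := by
  have h0 := (tq_pos hw).ne'
  have h1 : ∀ a, (tg x p a w) ^ 2 = x a w * x a w - (2 / tq p w) * (x a w * ty x p a w) +
      (1 / tq p w ^ 2) * (ty x p a w) ^ 2 := by
    intro a
    unfold tg
    field_simp
    ring
  rw [Finset.sum_congr rfl fun a _ => h1 a, Finset.sum_add_distrib, Finset.sum_sub_distrib,
    ← Finset.mul_sum, ← Finset.mul_sum, hO, sum_x_ty hO, sum_ty_sq hO, if_pos rfl, if_pos hw]
  field_simp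
  ring

theorem sum_cross (hO : ∀ i j, ∑ a, x a i * x a j = if i = j then 1 else 0) {u v : Fin n}
    (hu : p u = u) (hv : p v = v) (huv : u ≠ v) :
    ∑ a, (ty x p a u / tq p u - ty x p a v / tq p v) ^ 2 = 1 / tq p u + 1 / tq p v := by
  have h0 := (tq_pos hu).ne'
  have h0' := (tq_pos hv).ne'
  have h1 : ∀ a, (ty x p a u / tq p u - ty x p a v / tq p v) ^ 2 =
      (1 / tq p u ^ 2) * (ty x p a u) ^ 2 + (1 / tq p v ^ 2) * (ty x p a v) ^ 2 -
      (2 / (tq p u * tq p v)) * (ty x p a u * ty x p a v) := by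
    intro a
    field_simp
    ring
  have h2 : ∑ a, ty x p a u * ty x p a v = 0 := by
    have h := bil hO (cls p u) (cls p v)
    unfold ty
    rw [h]
    have : cls p u ∩ cls p v = ∅ := by
      ext w; simp only [Finset.mem_inter, cls, Finset.mem_filter,
        Finset.mem_univ, true_and, Finset.notMem_empty, iff_false, not_and]
      intro h1 h2
      exact huv (h1.symm.trans h2)
    rw [this]; simp
  rw [Finset.sum_congr rfl fun a _ => h1 a, Finset.sum_sub_distrib, Finset.sum_add_distrib,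
    ← Finset.mul_sum, ← Finset.mul_sum, ← Finset.mul_sum, h2, sum_ty_sq hO, sum_ty_sq hO]
  field_simp
  ring

theorem split_T (f : Fin n → ℝ) : ∑ a ∈ Tᶜ, f a = ∑ a, f a - ∑ a ∈ T, f a := by
  rw [← Finset.sum_add_sum_compl T f]; ring

theorem tB_nonneg (w : Fin n) : 0 ≤ tB x T p w := by
  unfold tB tq
  exact div_nonneg (Finset.sum_nonneg fun a _ => sq_nonneg _) (by positivity)

theorem tA_nonneg (w : Fin n) : 0 ≤ tA x T p w :=
  Finset.sum_nonneg fun a _ => sq_nonneg _

theorem tpsi_nonneg (u v : Fin n) : 0 ≤ tpsi x T u v :=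
  Finset.sum_nonneg fun a _ => sq_nonneg _

/-- the outgoing edge bound -/
theorem outgoing (hO : ∀ i j, ∑ a, x a i * x a j = if i = j then 1 else 0) {i j w : Fin n}
    (hw : p w = w) (hi : p i = w) (hj : p j ≠ w) :
    1 ≤ 4 * tq p w * (tpsi x T i j + tB x T p w) := by
  have h0 := tq_pos hw
  have hij : i ≠ j := fun h => hj (by rw [← h]; exact hi)
  obtain ⟨U, hU⟩ : ∃ U, U = ∑ a ∈ Tᶜ, (x a i - x a j) * ty x p a w := ⟨_, rfl⟩
  obtain ⟨S, hS⟩ : ∃ S, S = ∑ a ∈ T, (x a i - x a j) * ty x p a w := ⟨_, rfl⟩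
  have h1 : U + S = 1 := by
    rw [hU, hS, split_T, sub_add_cancel]
    have : ∀ a, (x a i - x a j) * ty x p a w = x a i * ty x p a w - x a j * ty x p a w :=
      fun a => by ring
    rw [Finset.sum_congr rfl fun a _ => this a, Finset.sum_sub_distrib, sum_x_ty hO,
      sum_x_ty hO, if_pos hi, if_neg hj, sub_zero]
  have h2 : U ^ 2 ≤ tpsi x T i j * tq p w := by
    rw [hU]
    refine (Finset.sum_mul_sq_le_sq_mul_sq _ _ _).trans ?_
    refine mul_le_mul_of_nonneg_left ?_ (tpsi_nonneg _ _)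
    rw [← sum_ty_sq hO w, split_T]
    have : 0 ≤ ∑ a ∈ T, (ty x p a w) ^ 2 := Finset.sum_nonneg fun a _ => sq_nonneg _
    linarith
  have h3 : S ^ 2 ≤ 2 * (tq p w * tB x T p w) := by
    rw [hS]
    refine (Finset.sum_mul_sq_le_sq_mul_sq _ _ _).trans ?_
    have e1 : ∑ a ∈ T, (x a i - x a j) ^ 2 ≤ 2 := by
      have e2 : ∑ a, (x a i - x a j) ^ 2 = 2 := by
        have : ∀ a, (x a i - x a j) ^ 2 = x a i * x a i + x a j * x a j - 2 * (x a i * x a j) :=
          fun a => by ring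
        rw [Finset.sum_congr rfl fun a _ => this a, Finset.sum_sub_distrib,
          Finset.sum_add_distrib, ← Finset.mul_sum, hO, hO, hO, if_pos rfl, if_pos rfl,
          if_neg hij]
        norm_num
      rw [← e2]
      exact Finset.sum_le_sum_of_subset_of_nonneg (Finset.subset_univ _) fun _ _ _ => sq_nonneg _
    have e3 : ∑ a ∈ T, (ty x p a w) ^ 2 = tq p w * tB x T p w := by
      unfold tB
      field_simp
    rw [e3]
    exact mul_le_mul_of_nonneg_right e1 (mul_nonneg h0.le (tB_nonneg w))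
  have h4 : 0 ≤ tB x T p w := tB_nonneg w
  have h5 : 0 ≤ tq p w * tpsi x T i j := mul_nonneg h0.le (tpsi_nonneg _ _)
  have h6 : 0 ≤ (U - S) ^ 2 := sq_nonneg _
  have h7 : (U + S) ^ 2 = 1 := by rw [h1]; norm_num
  nlinarith

/-- the bound for an edge between two centers -/
theorem core_edge (hO : ∀ i j, ∑ a, x a i * x a j = if i = j then 1 else 0) {u v : Fin n}
    (hu : p u = u) (hv : p v = v) (huv : u ≠ v) {θ : ℝ} (hθ : 0 < θ) (hθ1 : θ ≤ 1) :
    (1 - θ) * ((1 - 2 * tB x T p u) / tq p u + (1 - 2 * tB x T p v) / tq p v) -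
      2 / θ * (tA x T p u + tA x T p v) ≤ tpsi x T u v := by
  have h0 := tq_pos hu
  have h0' := tq_pos hv
  have h1 : ∀ a, (1 - θ) * (ty x p a u / tq p u - ty x p a v / tq p v) ^ 2 -
      2 / θ * ((tg x p a u) ^ 2 + (tg x p a v) ^ 2) ≤ (x a u - x a v) ^ 2 := by
    intro a
    obtain ⟨Y, hY⟩ : ∃ Y, Y = ty x p a u / tq p u - ty x p a v / tq p v := ⟨_, rfl⟩
    obtain ⟨g1, hg1⟩ : ∃ g, g = tg x p a u := ⟨_, rfl⟩
    obtain ⟨g2, hg2⟩ : ∃ g, g = tg x p a v := ⟨_, rfl⟩
    have e1 : x a u - x a v = Y + (g1 - g2) := by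
      rw [hY, hg1, hg2]; unfold tg; ring
    rw [← hY, ← hg1, ← hg2, e1]
    have e2 : 0 ≤ (θ * Y + (g1 - g2)) ^ 2 / θ := by positivity
    have e3 : (θ * Y + (g1 - g2)) ^ 2 / θ = θ * Y ^ 2 + 2 * Y * (g1 - g2) + (g1 - g2) ^ 2 / θ := by
      field_simp
      ring
    have e4 : (g1 - g2) ^ 2 / θ ≤ 2 / θ * (g1 ^ 2 + g2 ^ 2) := by
      rw [div_mul_eq_mul_div]
      exact div_le_div_of_nonneg_right (by nlinarith [sq_nonneg (g1 + g2)]) hθ.le
    nlinarith [sq_nonneg (g1 - g2)]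
  have h2 : ∑ a ∈ Tᶜ, ((1 - θ) * (ty x p a u / tq p u - ty x p a v / tq p v) ^ 2 -
      2 / θ * ((tg x p a u) ^ 2 + (tg x p a v) ^ 2)) ≤ tpsi x T u v :=
    Finset.sum_le_sum fun a _ => h1 a
  rw [Finset.sum_sub_distrib, ← Finset.mul_sum, ← Finset.mul_sum, Finset.sum_add_distrib] at h2
  have h3 : (1 - 2 * tB x T p u) / tq p u + (1 - 2 * tB x T p v) / tq p v ≤
      ∑ a ∈ Tᶜ, (ty x p a u / tq p u - ty x p a v / tq p v) ^ 2 := by
    rw [split_T, sum_cross hO hu hv huv]
    have e1 : ∑ a ∈ T, (ty x p a u / tq p u - ty x p a v / tq p v) ^ 2 ≤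
        ∑ a ∈ T, ((2 / tq p u ^ 2) * (ty x p a u) ^ 2 + (2 / tq p v ^ 2) * (ty x p a v) ^ 2) := by
      refine Finset.sum_le_sum fun a _ => ?_
      have : (2 / tq p u ^ 2) * (ty x p a u) ^ 2 + (2 / tq p v ^ 2) * (ty x p a v) ^ 2 =
          2 * (ty x p a u / tq p u) ^ 2 + 2 * (ty x p a v / tq p v) ^ 2 := by
        rw [div_pow, div_pow]; ring
      rw [this]
      nlinarith [sq_nonneg (ty x p a u / tq p u + ty x p a v / tq p v)]
    rw [Finset.sum_add_distrib, ← Finset.mul_sum, ← Finset.mul_sum] at e1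
    have e2 : ∀ w, 0 < tq p w →
        (2 / tq p w ^ 2) * ∑ a ∈ T, (ty x p a w) ^ 2 = 2 * tB x T p w / tq p w := by
      intro w hw
      unfold tB
      field_simp
    rw [e2 u h0, e2 v h0'] at e1
    have e3 : ∀ w, (1 - 2 * tB x T p w) / tq p w = 1 / tq p w - 2 * tB x T p w / tq p w := by
      intro w; rw [sub_div]
    rw [e3, e3]
    linarith
  have h4 := mul_le_mul_of_nonneg_left h3 (by linarith : 0 ≤ 1 - θ)
  have h5 : tA x T p u = ∑ a ∈ Tᶜ, (tg x p a u) ^ 2 := rfl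
  have h6 : tA x T p v = ∑ a ∈ Tᶜ, (tg x p a v) ^ 2 := rfl
  rw [← h5, ← h6] at h2
  linarith

/-- `ψ` of an edge at a leaf with small projection -/
theorem leaf_edge (hO : ∀ i j, ∑ a, x a i * x a j = if i = j then 1 else 0) {l j : Fin n}
    (hlj : l ≠ j) (hl : ∑ a ∈ T, (x a l) ^ 2 ≤ 1 / 100) : 1 / 2 ≤ tpsi x T l j := by
  have e2 : ∑ a, (x a l - x a j) ^ 2 = 2 := by
    have : ∀ a, (x a l - x a j) ^ 2 = x a l * x a l + x a j * x a j - 2 * (x a l * x a j) :=
      fun a => by ring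
    rw [Finset.sum_congr rfl fun a _ => this a, Finset.sum_sub_distrib,
      Finset.sum_add_distrib, ← Finset.mul_sum, hO, hO, hO, if_pos rfl, if_pos rfl,
      if_neg hlj]
    norm_num
  have e3 : ∑ a ∈ T, (x a j) ^ 2 ≤ 1 := by
    have : ∑ a, (x a j) ^ 2 = 1 := by
      have := hO j j
      rw [if_pos rfl] at this
      rw [← this]
      exact Finset.sum_congr rfl fun a _ => by ring
    rw [← this]
    exact Finset.sum_le_sum_of_subset_of_nonneg (Finset.subset_univ _) fun _ _ _ => sq_nonneg _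
  have e4 : ∑ a ∈ T, (x a l - x a j) ^ 2 ≤ ∑ a ∈ T, (11 * (x a l) ^ 2 + 11 / 10 * (x a j) ^ 2) := by
    refine Finset.sum_le_sum fun a _ => ?_
    nlinarith [sq_nonneg (10 * x a l + x a j)]
  rw [Finset.sum_add_distrib, ← Finset.mul_sum, ← Finset.mul_sum] at e4
  unfold tpsi
  rw [split_T, e2]
  linarith

end abs

end Pool.Agent.T2H88.LE
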