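import Pool.Agent.T2H88.LE.Sharp

/-!
# The loss in the bound for the sum of eigenvalues: exact formula
-/

set_option autoImplicit false

namespace Pool.Agent.T2H88.LE

open Finset Matrix Pool.Agent.Helper554.LE Pool.Helper237.Brouwer

section abs
variable {n : ℕ} {x : Fin n → Fin n → ℝ} {T : Finset (Fin n)} {p : Fin n → Fin n}

/-- sums by stars -/
theorem sum_stars (hp : ∀ v, p (p v) = p v) (f : Fin n → ℝ) :
    ∑ v, f v = ∑ w ∈ ctr p, ∑ v ∈ cls p w, f v := by
  rw [← Finset.sum_fiberwise_of_maps_to (s := Finset.univ) (t := ctr p) (g := p)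
    (fun v _ => by unfold ctr; simp [hp])]
  rfl

theorem star_id (hp : ∀ v, p (p v) = p v) (a : Fin n) :
    ∑ v, (x a v - x a (p v)) ^ 2 = ∑ v, (x a v) ^ 2 +
      ∑ w ∈ ctr p, (tq p w * (tg x p a w) ^ 2 - (ty x p a w) ^ 2 / tq p w) := by
  rw [sum_stars hp, sum_stars hp (fun v => (x a v) ^ 2), ← Finset.sum_add_distrib]
  refine Finset.sum_congr rfl fun w hw => ?_
  have hw' : p w = w := (Finset.mem_filter.1 hw).2
  have h0 := (tq_pos hw').ne'
  have h1 : ∀ v ∈ cls p w, (x a v - x a (p v)) ^ 2 =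
      (x a v) ^ 2 - 2 * x a w * x a v + (x a w) ^ 2 := by
    intro v hv
    have : p v = w := (Finset.mem_filter.1 hv).2
    rw [this]; ring
  rw [Finset.sum_congr rfl h1, Finset.sum_add_distrib, Finset.sum_sub_distrib, ← Finset.mul_sum,
    Finset.sum_const, nsmul_eq_mul]
  have h2 : ∑ v ∈ cls p w, x a v = ty x p a w := rfl
  have h3 : ((cls p w).card : ℝ) = tq p w := rfl
  rw [h2, h3]
  unfold tg
  field_simp
  ring

/-- lower bound of the square sum over a star -/
theorem star_ge {w l : Fin n} (hw : p w = w) (hl : p l = w) (hlw : l ≠ w) (a : Fin n) :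
    (tq p w / (tq p w - 1)) * (tg x p a w) ^ 2 + (ty x p a w) ^ 2 / tq p w +
      (x a l - (ty x p a w - x a w) / (tq p w - 1)) ^ 2 ≤ ∑ v ∈ cls p w, (x a v) ^ 2 := by
  obtain ⟨μ, hμ⟩ : ∃ μ, μ = (ty x p a w - x a w) / (tq p w - 1) := ⟨_, rfl⟩
  rw [← hμ]
  have hlc : l ∈ (cls p w).erase w := by
    rw [Finset.mem_erase]; exact ⟨hlw, by unfold cls; simp [hl]⟩
  have hc : 2 ≤ (cls p w).card := by
    have h1 : 1 ≤ ((cls p w).erase w).card := Finset.card_pos.2 ⟨l, hlc⟩
    rw [Finset.card_erase_of_mem (mem_cls_self hw)] at h1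
    omega
  have hcR : (2 : ℝ) ≤ tq p w := by unfold tq; exact_mod_cast hc
  have hτ1 : tq p w - 1 ≠ 0 := by linarith
  have hτ0 : tq p w ≠ 0 := by linarith
  have e1 : ∑ v ∈ (cls p w).erase w, x a v = ty x p a w - x a w := by
    unfold ty
    rw [← Finset.add_sum_erase _ _ (mem_cls_self hw)]; ring
  have e2 : ∑ v ∈ (cls p w).erase w, (x a v) ^ 2 = ∑ v ∈ cls p w, (x a v) ^ 2 - (x a w) ^ 2 := by
    rw [← Finset.add_sum_erase _ _ (mem_cls_self hw)]; ring
  have e3 : (((cls p w).erase w).card : ℝ) = tq p w - 1 := by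
    rw [Finset.card_erase_of_mem (mem_cls_self hw)]
    unfold tq
    push_cast [Nat.cast_sub (by omega : 1 ≤ (cls p w).card)]
    ring
  have e4 : (x a l - μ) ^ 2 ≤ ∑ v ∈ (cls p w).erase w, (x a v - μ) ^ 2 :=
    Finset.single_le_sum (f := fun v => (x a v - μ) ^ 2) (fun _ _ => sq_nonneg _) hlc
  have e5 : ∑ v ∈ (cls p w).erase w, (x a v - μ) ^ 2 =
      ∑ v ∈ (cls p w).erase w, (x a v) ^ 2 - 2 * μ * ∑ v ∈ (cls p w).erase w, x a v +
        (tq p w - 1) * μ ^ 2 := by
    rw [← e3, ← nsmul_eq_mul, ← Finset.sum_const, Finset.mul_sum, ← Finset.sum_sub_distrib,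
      ← Finset.sum_add_distrib]
    exact Finset.sum_congr rfl fun v _ => by ring
  rw [e5, e1, e2] at e4
  have e6 : ty x p a w - x a w = (tq p w - 1) * μ := by rw [hμ]; field_simp
  rw [e6] at e4
  have e7 : (tq p w / (tq p w - 1)) * (tg x p a w) ^ 2 + (ty x p a w) ^ 2 / tq p w =
      (x a w) ^ 2 + (tq p w - 1) * μ ^ 2 := by
    have e8 : ty x p a w = x a w + (tq p w - 1) * μ := by linarith
    unfold tg
    rw [e8]
    field_simp
    ring
  rw [e7]
  linarith

theorem tT_sq (hO : ∀ i j, ∑ a, x a i * x a j = if i = j then 1 else 0) {w : Fin n}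
    (hw : p w = w) : ∑ a ∈ T, (tg x p a w) ^ 2 = 1 - 1 / tq p w - tA x T p w := by
  unfold tA
  rw [split_T, sum_tg_sq hO hw]; ring

/-- Bessel's inequality for the star vectors -/
theorem bess (hO : ∀ i j, ∑ a, x a i * x a j = if i = j then 1 else 0)
    (hN : ∀ a, ∑ i, (x a i) ^ 2 = 1) (hp : ∀ v, p (p v) = p v)
    (hl : ∀ w, p w = w → ∃ l, p l = w ∧ l ≠ w) {w0 l0 : Fin n} (hw0 : p w0 = w0)
    (hl0 : p l0 = w0) (hlw0 : l0 ≠ w0) :
    ((ctr p).card : ℝ) - ∑ w ∈ ctr p, (tq p w / (tq p w - 1)) * tA x T p w +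
      ∑ w ∈ ctr p, tB x T p w +
      ∑ a ∈ T, (x a l0 - (ty x p a w0 - x a w0) / (tq p w0 - 1)) ^ 2 ≤ T.card := by
  have h1 : ∀ a ∈ T, ∑ w ∈ ctr p, ((tq p w / (tq p w - 1)) * (tg x p a w) ^ 2 +
      (ty x p a w) ^ 2 / tq p w +
      (if w = w0 then (x a l0 - (ty x p a w0 - x a w0) / (tq p w0 - 1)) ^ 2 else 0)) ≤ 1 := by
    intro a _
    refine le_trans ?_ (le_of_eq (hN a))
    rw [sum_stars hp]
    refine Finset.sum_le_sum fun w hw => ?_
    have hw' : p w = w := (Finset.mem_filter.1 hw).2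
    by_cases h : w = w0
    · subst h
      rw [if_pos rfl]
      exact star_ge hw' hl0 hlw0 a
    · rw [if_neg h, add_zero]
      obtain ⟨l, hl1, hl2⟩ := hl w hw'
      have := star_ge (x := x) hw' hl1 hl2 a
      have h2 := sq_nonneg (x a l - (ty x p a w - x a w) / (tq p w - 1))
      linarith
  have h2 := Finset.sum_le_sum h1
  rw [Finset.sum_const, nsmul_eq_mul, mul_one, Finset.sum_comm] at h2
  refine le_trans (le_of_eq ?_) h2
  have h3 : ∀ w ∈ ctr p, ∑ a ∈ T, ((tq p w / (tq p w - 1)) * (tg x p a w) ^ 2 +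
      (ty x p a w) ^ 2 / tq p w +
      (if w = w0 then (x a l0 - (ty x p a w0 - x a w0) / (tq p w0 - 1)) ^ 2 else 0)) =
      (1 - (tq p w / (tq p w - 1)) * tA x T p w) + tB x T p w +
      (if w = w0 then ∑ a ∈ T, (x a l0 - (ty x p a w0 - x a w0) / (tq p w0 - 1)) ^ 2 else 0) := by
    intro w hw
    have hw' : p w = w := (Finset.mem_filter.1 hw).2
    rw [Finset.sum_add_distrib, Finset.sum_add_distrib, ← Finset.mul_sum, ← Finset.sum_div,
      tT_sq hO hw']
    congr 1
    · congr 1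
      obtain ⟨l, hl1, hl2⟩ := hl w hw'
      have hc : 2 ≤ (cls p w).card := by
        have h1 : 1 ≤ ((cls p w).erase w).card := Finset.card_pos.2 ⟨l, by
          rw [Finset.mem_erase]; exact ⟨hl2, by unfold cls; simp [hl1]⟩⟩
        rw [Finset.card_erase_of_mem (mem_cls_self hw')] at h1
        omega
      have hcR : (2 : ℝ) ≤ tq p w := by unfold tq; exact_mod_cast hc
      have hτ1 : tq p w - 1 ≠ 0 := by linarith
      have hτ0 : tq p w ≠ 0 := by linarith
      field_simp
    · by_cases h : w = w0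
      · simp [h]
      · simp [h]
  rw [Finset.sum_congr rfl h3, Finset.sum_add_distrib, Finset.sum_add_distrib,
    Finset.sum_sub_distrib, Finset.sum_ite_eq', if_pos (by unfold ctr; simp [hw0])]
  simp

end abs

/-- the edges outside of the star forest -/
def hh {n : ℕ} (G : SimpleGraph (Fin n)) (p : Fin n → Fin n) : SimpleGraph (Fin n) where
  Adj i j := G.Adj i j ∧ p i ≠ j ∧ p j ≠ i
  symm := ⟨fun _ _ h => ⟨h.1.symm, h.2.2, h.2.1⟩⟩
  loopless := ⟨fun _ h => G.loopless.irrefl _ h.1⟩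

instance {n : ℕ} (G : SimpleGraph (Fin n)) [DecidableRel G.Adj] (p : Fin n → Fin n) :
    DecidableRel (hh G p).Adj := fun i j =>
  inferInstanceAs (Decidable (G.Adj i j ∧ p i ≠ j ∧ p j ≠ i))

theorem adj_split {n : ℕ} (G : SimpleGraph (Fin n)) [DecidableRel G.Adj] {p : Fin n → Fin n}
    (hp : ∀ v, p (p v) = p v) (ha : ∀ v, p v ≠ v → G.Adj v (p v)) (ψ : Fin n → Fin n → ℝ)
    (hψs : ∀ i j, ψ i j = ψ j i) :
    ∑ i, ∑ j, (if G.Adj i j then ψ i j else 0) =
      ∑ i, ∑ j, (if (hh G p).Adj i j then ψ i j else 0) +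
        2 * ∑ v, if p v ≠ v then ψ v (p v) else 0 := by
  have h4 : ∀ i j, (if G.Adj i j then ψ i j else 0) =
      (if (hh G p).Adj i j then ψ i j else 0) + ((if p i = j ∧ i ≠ j then ψ i j else 0) +
        (if p j = i ∧ i ≠ j then ψ i j else 0)) := by
    intro i j
    by_cases c1 : p i = j ∧ i ≠ j
    · have hadj : G.Adj i j := by
        have := ha i (by rw [c1.1]; exact fun h => c1.2 h.symm)
        rwa [c1.1] at this
      have c2 : ¬ (p j = i ∧ i ≠ j) := by
        rintro ⟨h, -⟩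
        have h6 := hp i
        rw [c1.1, h] at h6
        exact c1.2 h6
      rw [if_pos c1, if_neg c2, if_pos hadj, if_neg fun h => h.2.1 c1.1]; ring
    · by_cases c2 : p j = i ∧ i ≠ j
      · have hadj : G.Adj i j := by
          have := ha j (by rw [c2.1]; exact c2.2)
          rw [c2.1] at this
          exact this.symm
        rw [if_neg c1, if_pos c2, if_pos hadj, if_neg fun h => h.2.2 c2.1]; ring
      · rw [if_neg c1, if_neg c2]
        by_cases c3 : G.Adj i j
        · rw [if_pos c3, if_pos ⟨c3, fun h => c1 ⟨h, c3.ne⟩, fun h => c2 ⟨h, c3.ne⟩⟩]; ring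
        · rw [if_neg c3, if_neg fun h => c3 h.1]; ring
  have h5 : ∑ i, ∑ j, ((if p i = j ∧ i ≠ j then ψ i j else 0) +
        (if p j = i ∧ i ≠ j then ψ i j else 0)) = 2 * ∑ v, if p v ≠ v then ψ v (p v) else 0 := by
    have e1 : ∀ i, ∑ j, (if p i = j ∧ i ≠ j then ψ i j else 0) =
        if p i ≠ i then ψ i (p i) else 0 := by
      intro i
      rw [Finset.sum_eq_single (p i)]
      · by_cases h : p i = i
        · rw [if_neg (by rw [h]; simp), if_neg (by simpa using h)]
        · rw [if_pos ⟨rfl, fun h' => h h'.symm⟩, if_pos h]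
      · intro j _ hj
        rw [if_neg fun h => hj h.1.symm]
      · intro h
        exact absurd (Finset.mem_univ _) h
    have e2 : ∀ j, ∑ i, (if p j = i ∧ i ≠ j then ψ i j else 0) =
        if p j ≠ j then ψ j (p j) else 0 := by
      intro j
      rw [← e1 j]
      refine Finset.sum_congr rfl fun i _ => ?_
      by_cases h : p j = i ∧ i ≠ j
      · rw [if_pos h, if_pos ⟨h.1, fun h' => h.2 h'.symm⟩, hψs]
      · rw [if_neg h, if_neg fun h' => h ⟨h'.1, fun h'' => h'.2 h''.symm⟩]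
    simp_rw [Finset.sum_add_distrib]
    rw [Finset.sum_congr rfl fun i _ => e1 i, Finset.sum_comm,
      Finset.sum_congr rfl fun i _ => e2 i]
    ring
  rw [← h5, ← Finset.sum_add_distrib]
  refine Finset.sum_congr rfl fun i _ => ?_
  rw [← Finset.sum_add_distrib]
  exact Finset.sum_congr rfl fun j _ => h4 i j

section conc
variable {n : ℕ} (G : SimpleGraph (Fin n)) [DecidableRel G.Adj]

/-- the eigenvector basis as an array -/
noncomputable def xx (a i : Fin n) : ℝ := (G.isHermitian_lapMatrix ℝ).eigenvectorBasis a i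

theorem xx_norm (a : Fin n) : ∑ i, (xx G a i) ^ 2 = 1 := by
  have h := inner_sum (G.isHermitian_lapMatrix ℝ).eigenvectorBasis a a
  rw [if_pos rfl] at h
  rw [← h]
  exact Finset.sum_congr rfl fun i _ => by unfold xx; ring

theorem xx_orth (i j : Fin n) : ∑ a, xx G a i * xx G a j = if i = j then 1 else 0 := by
  have h1 : (Matrix.of (xx G)) * (Matrix.of (xx G))ᵀ = 1 := by
    ext a c
    rw [Matrix.mul_apply, Matrix.one_apply]
    exact inner_sum (G.isHermitian_lapMatrix ℝ).eigenvectorBasis a c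
  have h2 := mul_eq_one_comm.1 h1
  have h3 := congrFun (congrFun h2 i) j
  rw [Matrix.mul_apply, Matrix.one_apply] at h3
  exact h3

/-- **the exact formula for the loss** -/
theorem loss_eq {p : Fin n → Fin n} (hp : ∀ v, p (p v) = p v)
    (ha : ∀ v, p v ≠ v → G.Adj v (p v)) (T : Finset (Fin n)) :
    2 * (2 * (G.edgeFinset.card : ℝ) - n + 2 * T.card -
      ∑ a ∈ T, (G.isHermitian_lapMatrix ℝ).eigenvalues a) =
      ∑ i, ∑ j, (if (hh G p).Adj i j then tpsi (xx G) T i j else 0) +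
      2 * ∑ w ∈ ctr p, (tq p w * tA (xx G) T p w + tB (xx G) T p w) +
      2 * ((T.card : ℝ) - (ctr p).card) := by
  have h1 : ∑ a ∈ T, (G.isHermitian_lapMatrix ℝ).eigenvalues a +
      ∑ a ∈ Tᶜ, (G.isHermitian_lapMatrix ℝ).eigenvalues a = 2 * (G.edgeFinset.card : ℝ) := by
    rw [Finset.sum_add_sum_compl]
    have h3 : (G.lapMatrix ℝ).trace = ∑ i, (G.isHermitian_lapMatrix ℝ).eigenvalues i := by
      have := (G.isHermitian_lapMatrix ℝ).trace_eq_sum_eigenvalues
      simpa using this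
    rw [← h3, trace_lap]
  have h2 : 2 * ∑ a ∈ Tᶜ, (G.isHermitian_lapMatrix ℝ).eigenvalues a =
      ∑ i, ∑ j, (if (hh G p).Adj i j then tpsi (xx G) T i j else 0) +
        2 * ∑ a ∈ Tᶜ, ∑ v, (xx G a v - xx G a (p v)) ^ 2 := by
    rw [Finset.mul_sum, Finset.sum_congr rfl fun a _ => eigen_eq G a]
    have e1 : ∀ a, ∑ i, ∑ j, (if G.Adj i j then
        ((G.isHermitian_lapMatrix ℝ).eigenvectorBasis a i -
        (G.isHermitian_lapMatrix ℝ).eigenvectorBasis a j) ^ 2 else 0) =
        ∑ i, ∑ j, (if (hh G p).Adj i j then (xx G a i - xx G a j) ^ 2 else 0) +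
        2 * ∑ v, (xx G a v - xx G a (p v)) ^ 2 := by
      intro a
      have := adj_split G hp ha (fun i j => (xx G a i - xx G a j) ^ 2) (fun i j => by ring)
      have e2 : (∑ v, if p v ≠ v then (xx G a v - xx G a (p v)) ^ 2 else 0) =
          ∑ v, (xx G a v - xx G a (p v)) ^ 2 := by
        refine Finset.sum_congr rfl fun v _ => ?_
        by_cases h : p v = v
        · rw [if_neg (by simpa using h), h]; ring
        · rw [if_pos h]
      rw [e2] at this
      exact this
    rw [Finset.sum_congr rfl fun a _ => e1 a, Finset.sum_add_distrib, ← Finset.mul_sum]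
    congr 1
    rw [Finset.sum_comm]
    refine Finset.sum_congr rfl fun i _ => ?_
    rw [Finset.sum_comm]
    refine Finset.sum_congr rfl fun j _ => ?_
    by_cases h : (hh G p).Adj i j
    · simp only [if_pos h]; rfl
    · simp only [if_neg h, Finset.sum_const_zero]
  have h3 : ∑ a ∈ Tᶜ, ∑ v, (xx G a v - xx G a (p v)) ^ 2 =
      ((n : ℝ) - T.card) + ∑ w ∈ ctr p, (tq p w * tA (xx G) T p w + tB (xx G) T p w) -
        (ctr p).card := by
    rw [Finset.sum_congr rfl fun a _ => star_id hp a, Finset.sum_add_distrib,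
      Finset.sum_congr rfl fun a _ => xx_norm G a, Finset.sum_const, nsmul_eq_mul, mul_one,
      Finset.card_compl, Fintype.card_fin, Finset.sum_comm]
    have e1 : ∀ w ∈ ctr p, ∑ a ∈ Tᶜ, (tq p w * (tg (xx G) p a w) ^ 2 -
        (ty (xx G) p a w) ^ 2 / tq p w) = (tq p w * tA (xx G) T p w + tB (xx G) T p w) - 1 := by
      intro w hw
      have hw' : p w = w := (Finset.mem_filter.1 hw).2
      have h0 := (tq_pos hw').ne'
      rw [Finset.sum_sub_distrib, ← Finset.mul_sum, ← Finset.sum_div, split_T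
        (f := fun a => (ty (xx G) p a w) ^ 2), sum_ty_sq (xx_orth G)]
      unfold tA tB
      field_simp
      ring
    rw [Finset.sum_congr rfl e1, Finset.sum_sub_distrib, Finset.sum_const, nsmul_eq_mul, mul_one,
      Nat.cast_sub (by simpa using Finset.card_le_univ T)]
    ring
  rw [h3] at h2
  linarith

end conc

end Pool.Agent.T2H88.LE
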