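import Pool.Agent.T2H88.LE.Sharp2

/-!
# The sharp lower bound of the loss
-/

set_option autoImplicit false

namespace Pool.Agent.T2H88.LE

open Finset Matrix Pool.Agent.Helper554.LE Pool.Helper237.Brouwer

theorem two_rows {n : ℕ} (f : Fin n → Fin n → ℝ) (hf : ∀ i j, 0 ≤ f i j) {i j : Fin n}
    (hij : i ≠ j) : f i j + f j i ≤ ∑ i, ∑ j, f i j := by
  have h1 : ∑ k ∈ ({i, j} : Finset (Fin n)), ∑ l, f k l ≤ ∑ k, ∑ l, f k l :=
    Finset.sum_le_sum_of_subset_of_nonneg (Finset.subset_univ _)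
      fun k _ _ => Finset.sum_nonneg fun l _ => hf k l
  rw [Finset.sum_pair hij] at h1
  have h2 : f i j ≤ ∑ l, f i l :=
    Finset.single_le_sum (f := fun l => f i l) (fun l _ => hf i l) (Finset.mem_univ j)
  have h3 : f j i ≤ ∑ l, f j l :=
    Finset.single_le_sum (f := fun l => f j l) (fun l _ => hf j l) (Finset.mem_univ i)
  linarith

theorem tpsi_symm {n : ℕ} {x : Fin n → Fin n → ℝ} {T : Finset (Fin n)} (i j : Fin n) :
    tpsi x T i j = tpsi x T j i := by
  unfold tpsi
  exact Finset.sum_congr rfl fun a _ => by ring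

theorem sharp_loss {n m : ℕ} (hn : 250 ≤ n) (G : SimpleGraph (Fin n)) [DecidableRel G.Adj]
    (hc : G.Connected) (hm : G.edgeFinset.card = m) (hnm : n ≤ m) (T : Finset (Fin n)) {L : ℝ}
    (hL : L = 2 * (m : ℝ) - n + 2 * T.card -
      ∑ a ∈ T, (G.isHermitian_lapMatrix ℝ).eigenvalues a)
    {θ : ℝ} (hθ0 : 0 < θ) (hθ1 : θ < 1) (hL1 : L ≤ 1 / 1000) (hL2 : L < (1 - θ) * θ / 2) :
    2 ≤ T.card ∧ (1 - θ) * (2 * ((m : ℝ) - n + T.card)) ^ 2 / (((T.card : ℝ) - 1) * n) ≤ L := by
  classical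
  obtain ⟨p, hp, ha, hl0⟩ := star_partition G (fun v => exists_nbr (by omega) hc v)
  have hl : ∀ w, p w = w → ∃ l, p l = w ∧ l ≠ w := fun w hw => by
    obtain ⟨v, h1, h2⟩ := hl0 w hw
    exact ⟨v, h2, h1⟩
  have O := xx_orth G
  have hloss := loss_eq G hp ha T
  rw [hm, ← hL] at hloss
  obtain ⟨x, hx⟩ : ∃ x, x = xx G := ⟨_, rfl⟩
  have N : ∀ a, ∑ i, (x a i) ^ 2 = 1 := by rw [hx]; exact xx_norm G
  rw [← hx] at O hloss
  have hnR : (250 : ℝ) ≤ n := by exact_mod_cast hn
  have htwo : ∀ w, p w = w → (2 : ℝ) ≤ tq p w := by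
    intro w hw
    obtain ⟨l, hl1, hl2⟩ := hl w hw
    have hc : 2 ≤ (cls p w).card := by
      have h1 : 1 ≤ ((cls p w).erase w).card := Finset.card_pos.2 ⟨l, by
        rw [Finset.mem_erase]; exact ⟨hl2, by unfold cls; simp [hl1]⟩⟩
      rw [Finset.card_erase_of_mem (mem_cls_self hw)] at h1
      omega
    unfold tq; exact_mod_cast hc
  have hctr : ∀ w ∈ ctr p, p w = w := fun w hw => (Finset.mem_filter.1 hw).2
  -- abbreviations
  obtain ⟨SA1, hSA1⟩ : ∃ S, S = ∑ w ∈ ctr p, (tq p w / (tq p w - 1)) * tA x T p w := ⟨_, rfl⟩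
  obtain ⟨SA2, hSA2⟩ : ∃ S, S = ∑ w ∈ ctr p,
    (tq p w - 2) * ((tq p w / (tq p w - 1)) * tA x T p w) := ⟨_, rfl⟩
  obtain ⟨SB, hSB⟩ : ∃ S, S = ∑ w ∈ ctr p, tB x T p w := ⟨_, rfl⟩
  obtain ⟨SP, hSP⟩ : ∃ S, S = ∑ i, ∑ j, (if (hh G p).Adj i j then tpsi x T i j else 0) :=
    ⟨_, rfl⟩
  have hterm : ∀ w ∈ ctr p, 0 ≤ (tq p w / (tq p w - 1)) * tA x T p w := fun w hw => by
    have h2 := htwo w (hctr w hw)
    exact mul_nonneg (div_nonneg (by linarith) (by linarith)) (tA_nonneg w)
  have hSA1n : 0 ≤ SA1 := by rw [hSA1]; exact Finset.sum_nonneg hterm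
  have hSA2n : 0 ≤ SA2 := by
    rw [hSA2]
    exact Finset.sum_nonneg fun w hw =>
      mul_nonneg (by linarith [htwo w (hctr w hw)]) (hterm w hw)
  have hSBn : 0 ≤ SB := by rw [hSB]; exact Finset.sum_nonneg fun w _ => tB_nonneg w
  have hBle : ∀ w ∈ ctr p, tB x T p w ≤ SB := fun w hw => by
    rw [hSB]
    exact Finset.single_le_sum (f := fun w => tB x T p w) (fun w _ => tB_nonneg w) hw
  have hpn : ∀ i j, 0 ≤ (if (hh G p).Adj i j then tpsi x T i j else 0) := fun i j => by
    split_ifs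
    · exact tpsi_nonneg i j
    · exact le_refl _
  have hSPn : 0 ≤ SP := by
    rw [hSP]
    exact Finset.sum_nonneg fun i _ => Finset.sum_nonneg fun j _ => hpn i j
  have hSPe : ∀ i j, (hh G p).Adj i j → 2 * tpsi x T i j ≤ SP := by
    intro i j hij
    have h := two_rows _ hpn hij.ne
    rw [if_pos hij, if_pos hij.symm, tpsi_symm j i, ← hSP] at h
    linarith
  have hsplit : ∑ w ∈ ctr p, (tq p w * tA x T p w + tB x T p w) = SA1 + SA2 + SB := by
    rw [hSA1, hSA2, hSB, ← Finset.sum_add_distrib, ← Finset.sum_add_distrib]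
    refine Finset.sum_congr rfl fun w hw => ?_
    have h2 := htwo w (hctr w hw)
    have h3 : tq p w - 1 ≠ 0 := by linarith
    field_simp
    ring
  rw [hsplit, ← hSP] at hloss
  -- Bessel
  have hb := fun (w0 l0 : Fin n) (h1 : p w0 = w0) (h2 : p l0 = w0) (h3 : l0 ≠ w0) =>
    bess (T := T) O N hp hl h1 h2 h3
  rw [← hSA1, ← hSB] at hb
  obtain ⟨t, ht⟩ : ∃ t : ℝ, t = T.card := ⟨_, rfl⟩
  obtain ⟨s, hs⟩ : ∃ s : ℝ, s = (ctr p).card := ⟨_, rfl⟩
  rw [← ht, ← hs] at hloss hb
  have hn0 : 0 < n := by omega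
  have hne : (ctr p).Nonempty := ⟨p ⟨0, hn0⟩, by unfold ctr; simp [hp]⟩
  have hb0 : s - SA1 + SB ≤ t := by
    obtain ⟨w, hw⟩ := hne
    obtain ⟨l, hl1, hl2⟩ := hl w (hctr w hw)
    have h1 := hb w l (hctr w hw) hl1 hl2
    have h2 : 0 ≤ ∑ a ∈ T, (x a l - (ty x p a w - x a w) / (tq p w - 1)) ^ 2 :=
      Finset.sum_nonneg fun a _ => sq_nonneg _
    linarith
  have hstar : SP / 2 + SA2 + 2 * SB ≤ L := by linarith
  -- all stars are large
  have hbig : ∀ w, p w = w → (250 : ℝ) ≤ tq p w := by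
    intro w hw
    by_cases hall : ∀ v, p v = w
    · have : cls p w = Finset.univ := by
        ext v; unfold cls; simp [hall v]
      unfold tq
      rw [this, Finset.card_univ, Fintype.card_fin]
      exact hnR
    · push Not at hall
      obtain ⟨v, hv⟩ := hall
      obtain ⟨walk⟩ := hc.preconnected w v
      obtain ⟨d, -, hd1, hd2⟩ := walk.exists_boundary_dart {v | p v = w} hw hv
      have hd1' : p d.fst = w := hd1
      have hd2' : p d.snd ≠ w := hd2
      have hH : (hh G p).Adj d.fst d.snd := by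
        refine ⟨d.adj, fun h => ?_, fun h => ?_⟩
        · rw [hd1'] at h
          exact hd2' (by rw [← h]; exact hw)
        · have h2 := hp d.snd
          rw [h] at h2
          exact hd2' (by rw [h, ← h2]; exact hd1')
      have h1 := outgoing (T := T) O hw hd1' hd2'
      have h2 := hSPe _ _ hH
      have h3 := hBle w (by unfold ctr; simp [hw])
      have h4 : tpsi x T d.fst d.snd + tB x T p w ≤ 1 / 1000 := by linarith
      have h5 := tq_pos hw
      have h6 : 4 * tq p w * (tpsi x T d.fst d.snd + tB x T p w) ≤ 4 * tq p w * (1 / 1000) :=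
        mul_le_mul_of_nonneg_left h4 (by linarith)
      linarith
  -- t = s
  have hSA12 : SA1 ≤ SA2 := by
    rw [hSA1, hSA2]
    refine Finset.sum_le_sum fun w hw => ?_
    have h1 := hterm w hw
    have h2 := hbig w (hctr w hw)
    nlinarith
  have hts : T.card = (ctr p).card := by
    have h1 : t - s < 1 := by linarith
    have h2 : s - t < 1 := by linarith
    rw [ht, hs] at h1 h2
    have h3 : T.card < (ctr p).card + 1 := by
      have : (T.card : ℝ) < (ctr p).card + 1 := by linarith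
      exact_mod_cast this
    have h4 : (ctr p).card < T.card + 1 := by
      have : ((ctr p).card : ℝ) < T.card + 1 := by linarith
      exact_mod_cast this
    omega
  have hts' : t = s := by rw [ht, hs, hts]
  -- leaves
  have hleaf : ∀ l, p l ≠ l → ∑ a ∈ T, (x a l) ^ 2 ≤ 1 / 100 := by
    intro l hll
    have hw : p (p l) = p l := hp l
    obtain ⟨w, hwd⟩ : ∃ w, w = p l := ⟨_, rfl⟩
    rw [← hwd] at hw hll
    have h1 := hb w l hw hwd.symm (fun h => hll h.symm)
    have hτ := hbig w hw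
    obtain ⟨τ, hτd⟩ : ∃ τ, τ = tq p w := ⟨_, rfl⟩
    rw [← hτd] at h1 hτ
    have h2 : ∑ a ∈ T, (x a l) ^ 2 ≤ ∑ a ∈ T, (2 * (x a l - (ty x p a w - x a w) / (τ - 1)) ^ 2 +
        (4 / (τ - 1) ^ 2) * ((ty x p a w) ^ 2 + (x a w) ^ 2)) := by
      refine Finset.sum_le_sum fun a _ => ?_
      obtain ⟨μ, hμ⟩ : ∃ μ, μ = (ty x p a w - x a w) / (τ - 1) := ⟨_, rfl⟩
      have e1 : μ ^ 2 ≤ (2 / (τ - 1) ^ 2) * ((ty x p a w) ^ 2 + (x a w) ^ 2) := by
        rw [hμ, div_pow, div_mul_eq_mul_div]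
        exact div_le_div_of_nonneg_right (by nlinarith [sq_nonneg (ty x p a w + x a w)])
          (by positivity)
      rw [← hμ]
      have e2 : (4 / (τ - 1) ^ 2) * ((ty x p a w) ^ 2 + (x a w) ^ 2) =
        2 * ((2 / (τ - 1) ^ 2) * ((ty x p a w) ^ 2 + (x a w) ^ 2)) := by ring
      rw [e2]
      nlinarith [sq_nonneg (x a l - 2 * μ)]
    rw [Finset.sum_add_distrib, ← Finset.mul_sum, ← Finset.mul_sum, Finset.sum_add_distrib] at h2
    have h3 : ∑ a ∈ T, (ty x p a w) ^ 2 ≤ τ * (1 / 1000) := by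
      have e1 : ∑ a ∈ T, (ty x p a w) ^ 2 = τ * tB x T p w := by
        unfold tB
        rw [← hτd]
        field_simp
      rw [e1]
      have := hBle w (by unfold ctr; simp [hw])
      exact mul_le_mul_of_nonneg_left (by linarith) (by linarith)
    have h4 : ∑ a ∈ T, (x a w) ^ 2 ≤ 1 := by
      have : ∑ a, (x a w) ^ 2 = 1 := by
        have := O w w
        rw [if_pos rfl] at this
        rw [← this]
        exact Finset.sum_congr rfl fun a _ => by ring
      rw [← this]
      exact Finset.sum_le_sum_of_subset_of_nonneg (Finset.subset_univ _)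
        fun _ _ _ => sq_nonneg _
    have h5 : (4 / (τ - 1) ^ 2) * (∑ a ∈ T, (ty x p a w) ^ 2 + ∑ a ∈ T, (x a w) ^ 2) ≤
        4 / 1000 := by
      have e1 : 0 < (τ - 1) ^ 2 := by nlinarith
      rw [div_mul_eq_mul_div, div_le_iff₀ e1]
      nlinarith
    linarith
  have hcent : ∀ i j, (hh G p).Adj i j → p i = i := by
    intro i j hij
    by_contra h
    have h1 := leaf_edge (T := T) O hij.ne (hleaf i h)
    have h2 := hSPe i j hij
    linarith
  -- the main inequality
  have hdsum : ∀ f : Fin n → ℝ, ∑ i, ∑ j, (if (hh G p).Adj i j then f i + f j else 0) =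
      2 * ∑ w ∈ ctr p, ((hh G p).degree w : ℝ) * f w := by
    intro f
    have e1 : ∑ i, ∑ j, (if (hh G p).Adj i j then f i else 0) =
        ∑ w ∈ ctr p, ((hh G p).degree w : ℝ) * f w := by
      have e2 : ∀ i, ∑ j, (if (hh G p).Adj i j then f i else 0) =
          ((hh G p).degree i : ℝ) * f i := by
        intro i
        rw [(hh G p).degree_eq_sum_if_adj, Finset.sum_mul]
        refine Finset.sum_congr rfl fun j _ => ?_
        split_ifs <;> ring
      rw [Finset.sum_congr rfl fun i _ => e2 i]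
      symm
      refine Finset.sum_subset (Finset.subset_univ _) fun i _ hi => ?_
      have : (hh G p).degree i = 0 := by
        by_contra h
        obtain ⟨j, hj⟩ := ((hh G p).degree_pos_iff_exists_adj i).1 (Nat.pos_of_ne_zero h)
        exact hi (by unfold ctr; simp [hcent i j hj])
      rw [this]; simp
    have e3 : ∑ i, ∑ j, (if (hh G p).Adj i j then f j else 0) =
        ∑ i, ∑ j, (if (hh G p).Adj i j then f i else 0) := by
      rw [Finset.sum_comm]
      refine Finset.sum_congr rfl fun i _ => Finset.sum_congr rfl fun j _ => ?_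
      by_cases h : (hh G p).Adj i j
      · rw [if_pos h, if_pos h.symm]
      · rw [if_neg h, if_neg fun h' => h h'.symm]
    have e4 : ∑ i, ∑ j, (if (hh G p).Adj i j then f i + f j else 0) =
        ∑ i, ∑ j, (if (hh G p).Adj i j then f i else 0) +
        ∑ i, ∑ j, (if (hh G p).Adj i j then f j else 0) := by
      rw [← Finset.sum_add_distrib]
      refine Finset.sum_congr rfl fun i _ => ?_
      rw [← Finset.sum_add_distrib]
      refine Finset.sum_congr rfl fun j _ => ?_
      split_ifs <;> ring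
    rw [e4, e3, e1]; ring
  have hmain : ∀ lam : ℝ, 0 ≤ lam → lam ≤ 1 →
      (∀ w ∈ ctr p, lam * (hh G p).degree w ≤ θ / 2 * tq p w) →
      (1 - θ) * (lam * ∑ w ∈ ctr p, ((hh G p).degree w : ℝ) / tq p w) ≤ L := by
    intro lam hl0 hl1 hd
    obtain ⟨f, hf⟩ : ∃ f : Fin n → ℝ, f = fun w =>
      (1 - θ) * ((1 - 2 * tB x T p w) / tq p w) - 2 / θ * tA x T p w := ⟨_, rfl⟩
    have e1 : ∑ i, ∑ j, (if (hh G p).Adj i j then f i + f j else 0) ≤ SP := by
      rw [hSP]
      refine Finset.sum_le_sum fun i _ => Finset.sum_le_sum fun j _ => ?_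
      by_cases h : (hh G p).Adj i j
      · rw [if_pos h, if_pos h]
        have := core_edge (T := T) O (hcent i j h) (hcent j i h.symm) h.ne hθ0 hθ1.le
        rw [hf]
        simp only
        linarith
      · rw [if_neg h, if_neg h]
    rw [hdsum] at e1
    have e2 : lam * (2 * ∑ w ∈ ctr p, ((hh G p).degree w : ℝ) * f w) ≤ SP := by
      rcases le_or_gt 0 (2 * ∑ w ∈ ctr p, ((hh G p).degree w : ℝ) * f w) with h | h
      · nlinarith
      · have : lam * (2 * ∑ w ∈ ctr p, ((hh G p).degree w : ℝ) * f w) ≤ 0 :=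
          mul_nonpos_of_nonneg_of_nonpos hl0 h.le
        linarith
    have e3 : (1 - θ) * (lam * ∑ w ∈ ctr p, ((hh G p).degree w : ℝ) / tq p w) ≤
        lam * ∑ w ∈ ctr p, ((hh G p).degree w : ℝ) * f w +
          ∑ w ∈ ctr p, (tq p w * tA x T p w + tB x T p w) := by
      rw [← mul_assoc, Finset.mul_sum, Finset.mul_sum, ← Finset.sum_add_distrib]
      refine Finset.sum_le_sum fun w hw => ?_
      have hτ := hbig w (hctr w hw)
      have hdw := hd w hw
      have hA := tA_nonneg (x := x) (T := T) (p := p) w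
      have hB := tB_nonneg (x := x) (T := T) (p := p) w
      obtain ⟨τ, hτd⟩ : ∃ τ, τ = tq p w := ⟨_, rfl⟩
      obtain ⟨A, hAd⟩ : ∃ A, A = tA x T p w := ⟨_, rfl⟩
      obtain ⟨B, hBd⟩ : ∃ B, B = tB x T p w := ⟨_, rfl⟩
      obtain ⟨D, hDd⟩ : ∃ D : ℝ, D = (hh G p).degree w := ⟨_, rfl⟩
      have hD0 : 0 ≤ D := by rw [hDd]; positivity
      rw [hf]
      simp only
      rw [← hτd, ← hAd, ← hBd, ← hDd]
      rw [← hτd] at hτ hdw
      rw [← hAd] at hA
      rw [← hBd] at hB
      rw [← hDd] at hdw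
      have hτ0 : 0 < τ := by linarith
      have q1 : 2 / θ * (lam * D) ≤ τ := by
        rw [div_mul_eq_mul_div, div_le_iff₀ hθ0]; linarith
      have q2 : lam * D / τ ≤ θ / 2 := by rw [div_le_iff₀ hτ0]; exact hdw
      have q3 : 2 / θ * (lam * D) * A ≤ τ * A := mul_le_mul_of_nonneg_right q1 hA
      have q4 : (1 - θ) * (2 * (lam * D / τ)) ≤ 1 := by
        have : (1 - θ) * (2 * (lam * D / τ)) ≤ (1 - θ) * θ := by
          apply mul_le_mul_of_nonneg_left _ (by linarith)
          linarith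
        nlinarith
      have q5 : (1 - θ) * (2 * (lam * D / τ)) * B ≤ 1 * B := mul_le_mul_of_nonneg_right q4 hB
      have q6 : lam * (D * ((1 - θ) * ((1 - 2 * B) / τ) - 2 / θ * A)) =
          (1 - θ) * lam * (D / τ) - (1 - θ) * (2 * (lam * D / τ)) * B
            - 2 / θ * (lam * D) * A := by
        field_simp
      rw [q6]
      linarith
    rw [hsplit] at e3
    linarith
  -- small degrees
  have hdeg : ∀ w ∈ ctr p, 1 * ((hh G p).degree w : ℝ) ≤ θ / 2 * tq p w := by
    obtain ⟨w0, hw0, hmax⟩ := Finset.exists_max_image (ctr p)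
      (fun w => ((hh G p).degree w : ℝ) / tq p w) hne
    by_contra hcon
    push Not at hcon
    obtain ⟨w1, hw1, hw1'⟩ := hcon
    obtain ⟨r, hr⟩ : ∃ r, r = ((hh G p).degree w0 : ℝ) / tq p w0 := ⟨_, rfl⟩
    rw [← hr] at hmax
    have hrθ : θ / 2 < r := by
      have h1 := hmax w1 hw1
      have h2 := hbig w1 (hctr w1 hw1)
      have h3 : θ / 2 < ((hh G p).degree w1 : ℝ) / tq p w1 := by
        rw [lt_div_iff₀ (by linarith)]; linarith
      linarith
    have hr0 : 0 < r := by linarith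
    have h1 := hmain (θ / (2 * r)) (by positivity) (by
      rw [div_le_one (by positivity)]; linarith) (fun w hw => by
        have h2 := hmax w hw
        have h3 := hbig w (hctr w hw)
        have h3' : 0 < tq p w := by linarith
        rw [div_le_iff₀ h3'] at h2
        rw [div_mul_eq_mul_div, div_le_iff₀ (by positivity)]
        nlinarith)
    have h2 : r ≤ ∑ w ∈ ctr p, ((hh G p).degree w : ℝ) / tq p w := by
      rw [hr]
      exact Finset.single_le_sum (f := fun w => ((hh G p).degree w : ℝ) / tq p w)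
        (fun w hw => div_nonneg (by positivity) (by linarith [hbig w (hctr w hw)])) hw0
    have h3 : θ / 2 ≤ θ / (2 * r) * ∑ w ∈ ctr p, ((hh G p).degree w : ℝ) / tq p w := by
      have : θ / (2 * r) * r = θ / 2 := by field_simp
      rw [← this]
      exact mul_le_mul_of_nonneg_left h2 (by positivity)
    have h4 := mul_le_mul_of_nonneg_left h3 (by linarith : 0 ≤ 1 - θ)
    linarith
  have hfin := hmain 1 (by norm_num) (le_refl _) hdeg
  rw [one_mul] at hfin
  -- counting
  have hcount : ∑ w ∈ ctr p, ((hh G p).degree w : ℝ) = 2 * ((m : ℝ) - n + t) := by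
    have e1 := adj_split G hp ha (fun _ _ => 1) (fun _ _ => rfl)
    rw [edges_eq G, hm] at e1
    have e2 : ∑ i, ∑ j, (if (hh G p).Adj i j then (1 : ℝ) else 0) =
        2 * ∑ w ∈ ctr p, ((hh G p).degree w : ℝ) * (1 / 2) := by
      rw [← hdsum (fun _ => 1 / 2)]
      refine Finset.sum_congr rfl fun i _ => Finset.sum_congr rfl fun j _ => ?_
      split_ifs <;> norm_num
    have e3 : (∑ v, if p v ≠ v then (1 : ℝ) else 0) = n - s := by
      have e4 : ∀ v, (if p v ≠ v then (1 : ℝ) else 0) = 1 - (if p v = v then 1 else 0) := by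
        intro v
        by_cases h : p v = v
        · simp [h]
        · simp [h]
      rw [Finset.sum_congr rfl fun v _ => e4 v, Finset.sum_sub_distrib, hs]
      unfold ctr
      simp
    rw [e3] at e1
    have e5 : 2 * ∑ w ∈ ctr p, ((hh G p).degree w : ℝ) * (1 / 2) =
        ∑ w ∈ ctr p, ((hh G p).degree w : ℝ) := by
      rw [← Finset.sum_mul]; ring
    rw [e5] at e2
    rw [← e2, hts']
    linarith
  have hdle : ∀ w ∈ ctr p, ((hh G p).degree w : ℝ) ≤ t - 1 := by
    intro w hw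
    have h1 : insert w ((hh G p).neighborFinset w) ⊆ ctr p := by
      intro v hv
      rw [Finset.mem_insert] at hv
      rcases hv with rfl | hv
      · exact hw
      · rw [SimpleGraph.mem_neighborFinset] at hv
        unfold ctr; simp [hcent v w hv.symm]
    have h2 := Finset.card_le_card h1
    rw [Finset.card_insert_of_notMem (by
      rw [SimpleGraph.mem_neighborFinset]; exact (hh G p).loopless.irrefl w),
      SimpleGraph.card_neighborFinset_eq_degree] at h2
    have h3 : (((hh G p).degree w + 1 : ℕ) : ℝ) ≤ ((ctr p).card : ℝ) := by exact_mod_cast h2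
    push_cast at h3
    rw [hts', hs]
    linarith
  have hs1 : 1 ≤ s := by
    rw [hs]; exact_mod_cast Finset.card_pos.2 hne
  have hnmR : (n : ℝ) ≤ m := by exact_mod_cast hnm
  have hsum_le : ∑ w ∈ ctr p, ((hh G p).degree w : ℝ) ≤ s * (t - 1) := by
    refine (Finset.sum_le_sum hdle).trans (le_of_eq ?_)
    rw [Finset.sum_const, nsmul_eq_mul, hs]
  have ht3 : 3 ≤ t := by
    rw [hcount] at hsum_le
    rw [← hts'] at hsum_le hs1
    nlinarith
  have hτsum : ∑ w ∈ ctr p, tq p w = n := by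
    have e1 := sum_stars hp (fun _ => (1 : ℝ))
    simp only [Finset.sum_const, nsmul_eq_mul, mul_one, Finset.card_univ, Fintype.card_fin] at e1
    rw [e1]
    rfl
  have hcs : (∑ w ∈ ctr p, ((hh G p).degree w : ℝ)) ^ 2 ≤
      (∑ w ∈ ctr p, ((hh G p).degree w : ℝ) / tq p w) *
      ∑ w ∈ ctr p, ((hh G p).degree w : ℝ) * tq p w := by
    apply Finset.sum_sq_le_sum_mul_sum_of_sq_le_mul
    · exact fun w hw => div_nonneg (by positivity) (by linarith [hbig w (hctr w hw)])
    · exact fun w hw => mul_nonneg (by positivity) (by linarith [hbig w (hctr w hw)])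
    · intro w hw
      have := hbig w (hctr w hw)
      have h0 : tq p w ≠ 0 := by linarith
      refine le_of_eq ?_
      field_simp
  have hg : ∑ w ∈ ctr p, ((hh G p).degree w : ℝ) * tq p w ≤ (t - 1) * n := by
    rw [← hτsum, Finset.mul_sum]
    refine Finset.sum_le_sum fun w hw => ?_
    exact mul_le_mul_of_nonneg_right (hdle w hw) (by linarith [hbig w (hctr w hw)])
  have hq0 : 0 ≤ ∑ w ∈ ctr p, ((hh G p).degree w : ℝ) / tq p w :=
    Finset.sum_nonneg fun w hw => div_nonneg (by positivity) (by linarith [hbig w (hctr w hw)])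
  rw [hcount] at hcs
  refine ⟨?_, ?_⟩
  · have : (2 : ℝ) ≤ T.card := by rw [← ht]; linarith
    exact_mod_cast this
  · rw [← ht]
    refine le_trans ?_ hfin
    rw [mul_div_assoc]
    refine mul_le_mul_of_nonneg_left ?_ (by linarith)
    have h1 : 0 < (t - 1) * (n : ℝ) := mul_pos (by linarith) (by linarith)
    rw [div_le_iff₀ h1]
    exact hcs.trans (mul_le_mul_of_nonneg_left hg hq0)

end Pool.Agent.T2H88.LE
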