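import Pool.Agent.T2H88.LE.Multi

/-!
# Lower bound of the Laplacian energy of graphs with pendant vertices at hubs
-/

set_option autoImplicit false

namespace Pool.Agent.T2H88.LE

open Finset Matrix Pool.Agent.Helper554.LE

theorem tr1 {n : ℕ} (G : SimpleGraph (Fin n)) [DecidableRel G.Adj]
    (P : Matrix (Fin n) (Fin n) ℝ) :
    (P * G.lapMatrix ℝ).trace = ∑ i, ∑ j, (if G.Adj i j then (P i i - P i j) else 0) := by
  rw [Matrix.trace]
  refine Finset.sum_congr rfl fun i _ => ?_
  rw [Matrix.diag_apply, Matrix.mul_apply]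
  have h2 : ∀ j, P i j * G.lapMatrix ℝ j i =
      (if j = i then P i i * G.degree i else 0) - (if G.Adj i j then P i j else 0) := by
    intro j
    by_cases h : j = i
    · subst h
      simp [SimpleGraph.lapMatrix, SimpleGraph.degMatrix]
    · have e1 : G.lapMatrix ℝ j i = - if G.Adj j i then 1 else 0 := by
        simp [SimpleGraph.lapMatrix, SimpleGraph.degMatrix, h, SimpleGraph.adjMatrix_apply]
      rw [e1, if_neg h]
      by_cases ha : G.Adj i j
      · rw [if_pos ha, if_pos ha.symm]; ring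
      · rw [if_neg ha, if_neg fun h => ha h.symm]; ring
  rw [Finset.sum_congr rfl fun j _ => h2 j, Finset.sum_sub_distrib, Finset.sum_ite_eq',
    if_pos (Finset.mem_univ i), G.degree_eq_sum_if_adj, Finset.mul_sum, ← Finset.sum_sub_distrib]
  refine Finset.sum_congr rfl fun j _ => ?_
  split_ifs <;> ring

section hub
variable {n : ℕ} (G : SimpleGraph (Fin n)) [DecidableRel G.Adj] (c : Fin n → Fin n)

/-- size of the class of `h` -/
def tc (h : Fin n) : ℕ := (Finset.univ.filter (fun v => c v = h)).card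

/-- degree at the hubs, `-1` at the pendant vertices -/
noncomputable def wv (v : Fin n) : ℝ := if c v = v then (G.degree v : ℝ) else -1

/-- the squared norm of `wv` on the class of `h` -/
noncomputable def Nc (h : Fin n) : ℝ := (G.degree h : ℝ) ^ 2 + (tc c h - 1)

/-- the trial projection -/
noncomputable def Pw : Matrix (Fin n) (Fin n) ℝ := fun u v =>
  if c u = c v then wv G c u * wv G c v / Nc G c (c u) else 0

theorem sum_cls (f : Fin n → ℝ) :
    ∑ v, f v = ∑ h, ∑ v, (if c v = h then f v else 0) := by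
  rw [Finset.sum_comm]
  refine Finset.sum_congr rfl fun v _ => ?_
  rw [Finset.sum_ite_eq, if_pos (Finset.mem_univ _)]

theorem sum_cls_one (h : Fin n) (a : ℝ) :
    ∑ v, (if c v = h then a else 0) = tc c h * a := by
  rw [← Finset.sum_filter, Finset.sum_const, nsmul_eq_mul]
  rfl

variable {G c}

theorem cls_hub (hc : ∀ v, c (c v) = c v) {v h : Fin n} (hv : c v = h) : c h = h := by
  rw [← hv, hc]

theorem tc_pos {h : Fin n} (hh : c h = h) : 1 ≤ tc c h := by
  unfold tc
  exact Finset.card_pos.2 ⟨h, by simp [hh]⟩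

/-- sums over a class -/
theorem sum_cls_split {h : Fin n} (hh : c h = h) (f : Fin n → ℝ) (a : ℝ)
    (hf : ∀ v, c v = h → v ≠ h → f v = a) :
    ∑ v, (if c v = h then f v else 0) = f h + (tc c h - 1) * a := by
  have h1 : ∀ v, (if c v = h then f v else 0) = (if c v = h then a else 0) +
      (if v = h then f h - a else 0) := by
    intro v
    by_cases h1 : v = h
    · subst h1; rw [if_pos hh, if_pos hh, if_pos rfl]; ring
    · by_cases h2 : c v = h
      · rw [if_pos h2, if_pos h2, if_neg h1, hf v h2 h1, add_zero]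
      · rw [if_neg h2, if_neg h2, if_neg h1, add_zero]
  rw [Finset.sum_congr rfl fun v _ => h1 v, Finset.sum_add_distrib, sum_cls_one,
    Finset.sum_ite_eq', if_pos (Finset.mem_univ _)]
  ring

theorem wv_pend {v h : Fin n} (h1 : c v = h) (h2 : v ≠ h) : wv G c v = -1 := by
  unfold wv
  rw [if_neg (by rw [h1]; exact fun h3 => h2 h3.symm)]

theorem wv_hub {h : Fin n} (hh : c h = h) : wv G c h = G.degree h := by
  unfold wv
  rw [if_pos hh]

theorem sum_wv_sq {h : Fin n} (hh : c h = h) :
    ∑ v, (if c v = h then wv G c v * wv G c v else 0) = Nc G c h := by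
  rw [sum_cls_split hh (fun v => wv G c v * wv G c v) 1 (fun v h1 h2 => by
    rw [wv_pend h1 h2]; norm_num)]
  rw [wv_hub hh]
  unfold Nc
  ring

theorem Nc_pos (hD : ∀ v, c v = v → 0 < G.degree v) {h : Fin n} (hh : c h = h) :
    0 < Nc G c h := by
  have h1 : (1 : ℝ) ≤ G.degree h := by exact_mod_cast hD h hh
  have h2 : (1 : ℝ) ≤ tc c h := by exact_mod_cast tc_pos hh
  unfold Nc
  nlinarith

theorem Pw_symm : (Pw G c)ᵀ = Pw G c := by
  ext i j
  rw [Matrix.transpose_apply]
  unfold Pw
  by_cases h : c i = c j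
  · rw [if_pos h, if_pos h.symm, h, mul_comm (wv G c j)]
  · rw [if_neg h, if_neg fun h' => h h'.symm]

theorem Pw_idem (hc : ∀ v, c (c v) = c v) (hD : ∀ v, c v = v → 0 < G.degree v) :
    Pw G c * Pw G c = Pw G c := by
  ext u v
  rw [Matrix.mul_apply]
  by_cases h : c u = c v
  · obtain ⟨i, hi⟩ : ∃ i, i = c v := ⟨_, rfl⟩
    have hii : c i = i := by rw [hi, hc]
    have h1 : ∀ w : Fin n, Pw G c u w * Pw G c w v =
        (wv G c u * wv G c v / ((Nc G c i) ^ 2)) *
        (if c w = i then wv G c w * wv G c w else 0) := by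
      intro w
      unfold Pw
      rw [h, ← hi]
      by_cases h2 : c w = i
      · rw [if_pos h2.symm, if_pos h2, if_pos h2, h2]
        ring
      · rw [if_neg fun h' => h2 h'.symm, if_neg h2, if_neg h2]
        ring
    rw [Finset.sum_congr rfl fun w _ => h1 w, ← Finset.mul_sum, sum_wv_sq hii]
    unfold Pw
    rw [h, ← hi, if_pos rfl]
    have := (Nc_pos hD hii).ne'
    rw [div_mul_eq_mul_div, pow_two, mul_div_mul_right _ _ this]
  · have h1 : ∀ w : Fin n, Pw G c u w * Pw G c w v = 0 := by
      intro w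
      unfold Pw
      by_cases h2 : c u = c w
      · rw [if_neg (c := c w = c v) fun h3 => h (h2.trans h3), mul_zero]
      · rw [if_neg h2, zero_mul]
    rw [Finset.sum_eq_zero fun w _ => h1 w]
    unfold Pw
    rw [if_neg h]

theorem sum_hub (hc : ∀ v, c (c v) = c v) (f : Fin n → ℝ) (g : Fin n → ℝ)
    (hg : ∀ h, c h = h → ∑ v, (if c v = h then f v else 0) = g h) :
    ∑ v, f v = ∑ h ∈ Finset.univ.filter (fun h => c h = h), g h := by
  rw [sum_cls c, Finset.sum_filter]
  refine Finset.sum_congr rfl fun h _ => ?_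
  by_cases hh : c h = h
  · rw [if_pos hh, hg h hh]
  · rw [if_neg hh]
    refine Finset.sum_eq_zero fun v _ => ?_
    rw [if_neg fun h1 => hh (cls_hub hc h1)]

theorem Pw_trace (hc : ∀ v, c (c v) = c v) (hD : ∀ v, c v = v → 0 < G.degree v) :
    (Pw G c).trace = (Finset.univ.filter (fun h => c h = h)).card := by
  rw [Matrix.trace, sum_hub hc _ (fun _ => 1) ?_]
  · simp
  · intro h hh
    have h1 : ∀ v : Fin n, (if c v = h then (Pw G c).diag v else 0) =
        (1 / Nc G c h) * (if c v = h then wv G c v * wv G c v else 0) := by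
      intro v
      by_cases h2 : c v = h
      · rw [if_pos h2, if_pos h2, Matrix.diag_apply]
        unfold Pw
        rw [if_pos rfl, h2]
        ring
      · rw [if_neg h2, if_neg h2, mul_zero]
    rw [Finset.sum_congr rfl fun v _ => h1 v, ← Finset.mul_sum, sum_wv_sq hh,
      one_div_mul_cancel (Nc_pos hD hh).ne']

/-- the row sum at a pendant vertex -/
theorem row_pend (hp : ∀ v u, c v ≠ v → (G.Adj v u ↔ u = c v)) {v h : Fin n} (h1 : c v = h)
    (h2 : v ≠ h) (hh : c h = h) :
    ∑ j, (if G.Adj v j then (Pw G c v v - Pw G c v j) else 0) =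
      (1 + (G.degree h : ℝ)) / Nc G c h := by
  have h3 : c v ≠ v := by rw [h1]; exact h2.symm
  have h4 : ∀ j, (if G.Adj v j then (Pw G c v v - Pw G c v j) else 0) =
      if j = h then (Pw G c v v - Pw G c v h) else 0 := by
    intro j
    by_cases h5 : j = h
    · subst h5
      rw [if_pos ((hp v j h3).2 h1.symm), if_pos rfl]
    · rw [if_neg fun h6 => h5 (by rw [(hp v j h3).1 h6, h1]), if_neg h5]
  rw [Finset.sum_congr rfl fun j _ => h4 j, Finset.sum_ite_eq', if_pos (Finset.mem_univ _)]
  unfold Pw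
  rw [if_pos rfl, h1, if_pos hh.symm, wv_pend h1 h2, wv_hub hh]
  ring

omit [DecidableRel G.Adj] in
theorem adj_hub (hp : ∀ v u, c v ≠ v → (G.Adj v u ↔ u = c v)) {v h : Fin n} (h1 : c v = h)
    (h2 : v ≠ h) : G.Adj h v :=
  ((hp v h (by rw [h1]; exact h2.symm)).2 h1.symm).symm

/-- the row sum at a hub -/
theorem row_hub (hp : ∀ v u, c v ≠ v → (G.Adj v u ↔ u = c v)) {h : Fin n} (hh : c h = h) :
    ∑ j, (if G.Adj h j then (Pw G c h h - Pw G c h j) else 0) =
      ((G.degree h : ℝ) ^ 3 + (tc c h - 1) * G.degree h) / Nc G c h := by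
  have h4 : ∀ j, (if G.Adj h j then (Pw G c h h - Pw G c h j) else 0) =
      (G.degree h : ℝ) ^ 2 / Nc G c h * (if G.Adj h j then 1 else 0) +
      (if c j = h then (if j = h then 0 else (G.degree h : ℝ) / Nc G c h) else 0) := by
    intro j
    by_cases h5 : c j = h
    · by_cases h6 : j = h
      · subst h6
        rw [if_neg (G.loopless.irrefl j), if_neg (G.loopless.irrefl j), if_pos hh, if_pos rfl]
        ring
      · rw [if_pos (adj_hub hp h5 h6), if_pos (adj_hub hp h5 h6), if_pos h5, if_neg h6]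
        unfold Pw
        rw [if_pos rfl, hh, if_pos h5.symm, wv_pend h5 h6, wv_hub hh]
        ring
    · rw [if_neg h5, add_zero]
      by_cases ha : G.Adj h j
      · rw [if_pos ha, if_pos ha]
        unfold Pw
        rw [if_pos rfl, hh, if_neg fun h' => h5 h'.symm, wv_hub hh]
        ring
      · rw [if_neg ha, if_neg ha, mul_zero]
  rw [Finset.sum_congr rfl fun j _ => h4 j, Finset.sum_add_distrib, ← Finset.mul_sum,
    ← G.degree_eq_sum_if_adj,
    sum_cls_split hh (fun j => if j = h then 0 else (G.degree h : ℝ) / Nc G c h)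
      ((G.degree h : ℝ) / Nc G c h) (fun v _ h2 => by rw [if_neg h2]), if_pos rfl]
  ring

theorem tc_le (hp : ∀ v u, c v ≠ v → (G.Adj v u ↔ u = c v)) {h : Fin n} :
    tc c h ≤ G.degree h + 1 := by
  have h1 : (Finset.univ.filter (fun v => c v = h)) ⊆ insert h (G.neighborFinset h) := by
    intro v hv
    rw [Finset.mem_filter] at hv
    rw [Finset.mem_insert]
    by_cases h2 : v = h
    · exact Or.inl h2
    · right
      rw [SimpleGraph.mem_neighborFinset]
      exact adj_hub hp hv.2 h2
  have h2 := Finset.card_le_card h1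
  exact h2.trans ((Finset.card_insert_le _ _).trans (by rw [G.card_neighborFinset_eq_degree]))

theorem real_aux {D p : ℝ} (hD : 1 ≤ D) (hp : 0 ≤ p) (hpD : p ≤ D) :
    D + p / D ≤ (D ^ 3 + p * D) / (D ^ 2 + p) + p * ((1 + D) / (D ^ 2 + p)) := by
  have h1 : 0 < D ^ 2 + p := by positivity
  have h2 : 0 < D := by linarith
  rw [← mul_div_assoc, ← add_div, le_div_iff₀ h1]
  have h3 : p / D * p ≤ p := by
    rw [div_mul_eq_mul_div, div_le_iff₀ h2]
    nlinarith
  have h4 : p / D * D = p := by field_simp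
  have h5 : p / D * D ^ 2 = p * D := by rw [pow_two, ← mul_assoc, h4]
  nlinarith

/-- **Hubs with pendant vertices.** -/
theorem hub_lower (hn : 0 < n) (hc : ∀ v, c (c v) = c v)
    (hp : ∀ v u, c v ≠ v → (G.Adj v u ↔ u = c v))
    (hD : ∀ v, c v = v → 0 < G.degree v) :
    2 * (2 * (G.edgeFinset.card : ℝ) - n + (Finset.univ.filter (fun h => c h = h)).card +
      ∑ h ∈ Finset.univ.filter (fun h => c h = h), ((tc c h : ℝ) - 1) / G.degree h -
      2 * (G.edgeFinset.card : ℝ) / n * (Finset.univ.filter (fun h => c h = h)).card) ≤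
      lapEnergy G := by
  have h1 := energy_lb hn G (Pw_symm (G := G) (c := c)) (Pw_idem hc hD)
  rw [Pw_trace hc hD, tr1] at h1
  have h2 : ∑ i, ∑ j, (if G.Adj i j then (Pw G c i i - Pw G c i j) else 0) =
      ∑ h ∈ Finset.univ.filter (fun h => c h = h),
        (((G.degree h : ℝ) ^ 3 + (tc c h - 1) * G.degree h) / Nc G c h +
          (tc c h - 1) * ((1 + (G.degree h : ℝ)) / Nc G c h)) := by
    refine sum_hub hc _ _ fun h hh => ?_
    rw [sum_cls_split hh _ ((1 + (G.degree h : ℝ)) / Nc G c h)
      (fun v h1 h2 => row_pend hp h1 h2 hh), row_hub hp hh]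
  have h3 : ∑ h ∈ Finset.univ.filter (fun h => c h = h),
      ((G.degree h : ℝ) + ((tc c h : ℝ) - 1) / G.degree h) ≤
      ∑ i, ∑ j, (if G.Adj i j then (Pw G c i i - Pw G c i j) else 0) := by
    rw [h2]
    refine Finset.sum_le_sum fun h hh => ?_
    rw [Finset.mem_filter] at hh
    have e1 : (1 : ℝ) ≤ G.degree h := by exact_mod_cast hD h hh.2
    have e2 : (1 : ℝ) ≤ tc c h := by exact_mod_cast tc_pos hh.2
    have e3 : (tc c h : ℝ) ≤ G.degree h + 1 := by exact_mod_cast tc_le (h := h) hp
    unfold Nc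
    exact real_aux e1 (by linarith) (by linarith)
  have h4 : ∑ h ∈ Finset.univ.filter (fun h => c h = h), ((G.degree h : ℝ)) =
      2 * (G.edgeFinset.card : ℝ) - n + (Finset.univ.filter (fun h => c h = h)).card := by
    have e1 : ∑ v, (G.degree v : ℝ) = ∑ h ∈ Finset.univ.filter (fun h => c h = h),
        ((G.degree h : ℝ) + ((tc c h : ℝ) - 1) * 1) := by
      refine sum_hub hc _ _ fun h hh => ?_
      rw [sum_cls_split hh _ 1 (fun v h1 h2 => ?_)]
      have h3 : c v ≠ v := by rw [h1]; exact h2.symm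
      have : G.neighborFinset v = {h} := by
        ext u
        rw [SimpleGraph.mem_neighborFinset, hp v u h3, Finset.mem_singleton, h1]
      rw [← G.card_neighborFinset_eq_degree, this]
      simp
    have e2 : ∑ _v : Fin n, (1 : ℝ) = ∑ h ∈ Finset.univ.filter (fun h => c h = h), ((tc c h : ℝ) * 1) := by
      refine sum_hub hc _ _ fun h hh => ?_
      exact sum_cls_one c h 1
    have e3 : (∑ v, (G.degree v : ℝ)) = 2 * (G.edgeFinset.card : ℝ) := by
      have := SimpleGraph.sum_degrees_eq_twice_card_edges G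
      exact_mod_cast this
    simp only [mul_one] at e1 e2
    rw [Finset.sum_add_distrib, Finset.sum_sub_distrib, ← e2, e3] at e1
    simp only [Finset.sum_const, Finset.card_univ, Fintype.card_fin, nsmul_eq_mul, mul_one] at e1
    linarith
  rw [Finset.sum_add_distrib, h4] at h3
  linarith

end hub

end Pool.Agent.T2H88.LE
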